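import Pool.Agent.Helper5.B54.Sound6

/-!
# Cells of the parameter region
-/

namespace Pool.Agent.Helper5.B54

open Pool.Agent.Helper65.B54

/-- all points of the region in this box of `(α, γ)` are dead -/
def Cell (D a0 a1 g0 g1 : ℕ) : Prop :=
  ∀ α γ : ℝ, (a0 : ℝ) ≤ D * α → D * α ≤ a1 → (g0 : ℝ) ≤ D * γ → D * γ ≤ g1 → 0 ≤ γ → γ ≤ α →
    α + γ ≤ 1 → α ≤ 3 / 5 → Dead MM α γ (R0 α γ)

/-- the chain from the facets `prev` on -/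
def CellR (prev : List Facet) (D a0 a1 g0 g1 : ℕ) : Prop :=
  ∀ α γ : ℝ, (a0 : ℝ) ≤ D * α → D * α ≤ a1 → (g0 : ℝ) ≤ D * γ → D * γ ≤ g1 → 0 ≤ γ → γ ≤ α →
    α + γ ≤ 1 → α ≤ 3 / 5 → Dead MM α γ (Rs prev α γ)

theorem Cell.of {D a0 a1 g0 g1 : ℕ} (h : CellR [] D a0 a1 g0 g1) : Cell D a0 a1 g0 g1 := by
  intro α γ h1 h2 h3 h4 h5 h6 h7 h8
  rw [← Rs_nil]
  exact h α γ h1 h2 h3 h4 h5 h6 h7 h8

theorem CellR.step {prev : List Facet} {F : Facet} {D a0 a1 g0 g1 : ℕ} {ds : List Dual} {t : Tree}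
    (h : stepChk D a0 a1 g0 g1 prev F ds t = true) (hn : CellR (prev ++ [F]) D a0 a1 g0 g1) :
    CellR prev D a0 a1 g0 g1 := by
  intro α γ h1 h2 h3 h4 h5 h6 h7 h8
  exact dead_step h h1 h2 h3 h4 h6 h7 h8 (hn α γ h1 h2 h3 h4 h5 h6 h7 h8)

theorem CellR.fin {prev : List Facet} {D a0 a1 g0 g1 : ℕ} {ds : List Dual} {t : Tree}
    (h : finChk D a0 a1 g0 g1 prev ds t = true) : CellR prev D a0 a1 g0 g1 := by
  intro α γ h1 h2 h3 h4 h5 h6 h7 h8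
  exact dead_fin h h1 h2 h3 h4 h5 h6 h7 h8

theorem Cell.splitA {D a0 a1 g0 g1 : ℕ} (p : ℕ) (hl : Cell D a0 p g0 g1) (hr : Cell D p a1 g0 g1) :
    Cell D a0 a1 g0 g1 := by
  intro α γ h1 h2 h3 h4 h5 h6 h7 h8
  rcases le_total (D * α) p with h | h
  · exact hl α γ h1 h h3 h4 h5 h6 h7 h8
  · exact hr α γ h h2 h3 h4 h5 h6 h7 h8

theorem Cell.splitG {D a0 a1 g0 g1 : ℕ} (p : ℕ) (hl : Cell D a0 a1 g0 p) (hr : Cell D a0 a1 p g1) :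
    Cell D a0 a1 g0 g1 := by
  intro α γ h1 h2 h3 h4 h5 h6 h7 h8
  rcases le_total (D * γ) p with h | h
  · exact hl α γ h1 h2 h3 h h5 h6 h7 h8
  · exact hr α γ h1 h2 h h4 h5 h6 h7 h8

/-- a step on a smaller box of `(α, γ)` may be used for a part of the cell -/
theorem CellR.splitA {prev : List Facet} {D a0 a1 g0 g1 : ℕ} (p : ℕ)
    (hl : CellR prev D a0 p g0 g1) (hr : CellR prev D p a1 g0 g1) : CellR prev D a0 a1 g0 g1 := by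
  intro α γ h1 h2 h3 h4 h5 h6 h7 h8
  rcases le_total (D * α) p with h | h
  · exact hl α γ h1 h h3 h4 h5 h6 h7 h8
  · exact hr α γ h h2 h3 h4 h5 h6 h7 h8

theorem CellR.splitG {prev : List Facet} {D a0 a1 g0 g1 : ℕ} (p : ℕ)
    (hl : CellR prev D a0 a1 g0 p) (hr : CellR prev D a0 a1 p g1) : CellR prev D a0 a1 g0 g1 := by
  intro α γ h1 h2 h3 h4 h5 h6 h7 h8
  rcases le_total (D * γ) p with h | h
  · exact hl α γ h1 h2 h3 h h5 h6 h7 h8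
  · exact hr α γ h1 h2 h h4 h5 h6 h7 h8

/-- no point with `γ ≤ α` -/
theorem Cell.emptyDiag {D a0 a1 g0 g1 : ℕ} (h : a1 < g0) : Cell D a0 a1 g0 g1 := by
  intro α γ h1 h2 h3 h4 h5 h6 h7 h8
  exfalso
  have h9 : (a1 : ℝ) < g0 := by exact_mod_cast h
  have h10 : (D : ℝ) * γ ≤ D * α := mul_le_mul_of_nonneg_left h6 (Nat.cast_nonneg _)
  linarith

/-- no point with `α + γ ≤ 1` -/
theorem Cell.emptySum {D a0 a1 g0 g1 : ℕ} (h : D < a0 + g0) : Cell D a0 a1 g0 g1 := by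
  intro α γ h1 h2 h3 h4 h5 h6 h7 h8
  exfalso
  have h9 : (D : ℝ) < a0 + g0 := by exact_mod_cast h
  have h10 : (D : ℝ) * (α + γ) ≤ D * 1 := mul_le_mul_of_nonneg_left h7 (Nat.cast_nonneg _)
  linarith

end Pool.Agent.Helper5.B54
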