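import Pool.Agent.Helper5.B54.Sound4

/-!
# Meaning of a corner leaf
-/

namespace Pool.Agent.Helper5.B54

open Finset MvPolynomial Pool.Agent.Helper65.B54

theorem Q0_ok : (offOf V0).Ok 0 where
  h0 := isOffP_of _ _ _ (by decide +kernel)
  h1 := isOffP_of _ _ _ (by decide +kernel)
  h2 := isOffP_of _ _ _ (by decide +kernel)
  h3 := isOffP_of _ _ _ (by decide +kernel)
  h4 := isOffP_of _ _ _ (by decide +kernel)
  h5 := isOffP_of _ _ _ (by decide +kernel)

theorem Q2_ok : (offOf V2).Ok 2 where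
  h0 := isOffP_of _ _ _ (by decide +kernel)
  h1 := isOffP_of _ _ _ (by decide +kernel)
  h2 := isOffP_of _ _ _ (by decide +kernel)
  h3 := isOffP_of _ _ _ (by decide +kernel)
  h4 := isOffP_of _ _ _ (by decide +kernel)
  h5 := isOffP_of _ _ _ (by decide +kernel)

theorem Q4_ok : (offOf V4).Ok 4 where
  h0 := isOffP_of _ _ _ (by decide +kernel)
  h1 := isOffP_of _ _ _ (by decide +kernel)
  h2 := isOffP_of _ _ _ (by decide +kernel)
  h3 := isOffP_of _ _ _ (by decide +kernel)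
  h4 := isOffP_of _ _ _ (by decide +kernel)
  h5 := isOffP_of _ _ _ (by decide +kernel)

/-! ### the absorption test -/

theorem numE_digit {c : E → ℕ} (hc : ∀ m ∈ Ix, c m < 2 ^ bb) {m : E} (hm : m ∈ Ix) :
    numE Ix c / 2 ^ (bb * pos m) % 2 ^ bb = c m := by
  rw [numE_eq_num (subset_refl _)]
  apply Nat.eq_of_testBit_eq
  intro i
  rw [Nat.testBit_mod_two_pow, Nat.testBit_div_two_pow,
    testBit_num bb_pos (image_forall (subset_refl _) hc)]
  by_cases hi : i < bb
  · have h1 : (i + bb * pos m) / bb = pos m := by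
      rw [Nat.add_mul_div_left _ _ bb_pos, Nat.div_eq_of_lt hi, zero_add]
    have h2 : (i + bb * pos m) % bb = i := by
      rw [Nat.add_mul_mod_self_left, Nat.mod_eq_of_lt hi]
    rw [h1, h2, inv_pos hm]
    have h3 : pos m ∈ Ix.image pos := mem_image_of_mem _ hm
    simp [hi, h3]
  · have h3 : (c m).testBit i = false := by
      apply Nat.testBit_lt_two_pow
      exact lt_of_lt_of_le (hc m hm) (Nat.pow_le_pow_right (by norm_num) (by omega))
    simp [hi, h3]

/-- the index of a variable -/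
def fi (i : ℕ) : Fin 6 := Fin.ofNat 6 i

theorem varD_ok {i : ℕ} (h : i ≤ 4) : (varD i).Ok (fi i) := by
  interval_cases i
  · exact V0_ok
  · exact V1_ok
  · exact V2_ok
  · exact V3_ok
  · exact V4_ok

/-- the exponent of the linear monomial -/
noncomputable def E1 (i : ℕ) : E := Finsupp.single (fi i) 1 + Finsupp.single 5 4

theorem fi_ne {i : ℕ} (h : i ≤ 4) : fi i ≠ 5 := by
  interval_cases i <;> decide

theorem E1_mem {i : ℕ} (h : i ≤ 4) : E1 i ∈ Ix := by
  rw [mem_IxN]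
  unfold E1
  simp only [Finsupp.coe_add, Pi.add_apply, sum_add_distrib]
  rw [sum_eq_single (fi i), sum_eq_single (5 : Fin 6)]
  · simp
  · intro k _ hk
    simp [Finsupp.single_apply, hk.symm]
  · simp
  · intro k _ hk
    simp [Finsupp.single_apply, hk.symm]
  · simp

theorem pos_E1 {i : ℕ} (h : i ≤ 4) : pos (E1 i) = fs (fi i) := by
  unfold E1
  rw [pos_add]
  interval_cases i <;>
  · unfold pos fi
    rw [Fin.sum_univ_six, Fin.sum_univ_six]
    simp [fs, Fin.ofNat]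

theorem E1_inj {i j : ℕ} (hi : i ≤ 4) (hj : j ≤ 4) (h : E1 i = E1 j) : i = j := by
  have h1 := pos_E1 hi
  have h2 := pos_E1 hj
  rw [h, h2] at h1
  revert h1
  interval_cases i <;> interval_cases j <;> decide

theorem mon_E1 {t : Fin 6 → ℝ} (h5 : t 5 = 1) {i : ℕ} (h : i ≤ 4) : mon t (E1 i) = t (fi i) := by
  unfold mon E1
  simp only [Finsupp.coe_add, Pi.add_apply, pow_add, prod_mul_distrib]
  rw [prod_eq_single (fi i), prod_eq_single (5 : Fin 6)]
  · simp [h5]
  · intro k _ hk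
    simp [Finsupp.single_apply, hk.symm]
  · simp
  · intro k _ hk
    simp [Finsupp.single_apply, hk.symm]
  · simp

theorem mon_nonneg {t : Fin 6 → ℝ} (h0 : ∀ i, 0 ≤ t i) (m : E) : 0 ≤ mon t m :=
  prod_nonneg fun i _ => pow_nonneg (h0 i) _

theorem mon_le_of {t : Fin 6 → ℝ} (h0 : ∀ i, 0 ≤ t i) (h1 : ∀ i, t i ≤ 1) {m : E} {i : Fin 6}
    (hm : m i ≠ 0) : mon t m ≤ t i := by
  unfold mon
  rw [← mul_prod_erase _ _ (mem_univ i)]
  have h2 : ∏ x ∈ univ.erase i, t x ^ m x ≤ 1 :=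
    prod_le_one (fun x _ => pow_nonneg (h0 x) _) fun x _ => pow_le_one₀ (h0 x) (h1 x)
  have h3 : t i ^ m i ≤ t i := by
    obtain ⟨k, hk⟩ := Nat.exists_eq_succ_of_ne_zero hm
    rw [hk, pow_succ]
    have := pow_le_one₀ (n := k) (h0 i) (h1 i)
    calc t i ^ k * t i ≤ 1 * t i := mul_le_mul_of_nonneg_right this (h0 i)
      _ = t i := one_mul _
  calc t i ^ m i * ∏ x ∈ univ.erase i, t x ^ m x ≤ t i ^ m i * 1 :=
        mul_le_mul_of_nonneg_left h2 (pow_nonneg (h0 i) _)
    _ = t i ^ m i := mul_one _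
    _ ≤ t i := h3

theorem numE_sdiff {J : Finset E} (I : Finset E) (c : E → ℕ) :
    numE J c - numE (J ∩ I) c = numE (J \ I) c := by
  have h : numE J c = numE (J \ I) c + numE (J ∩ I) c := by
    unfold numE
    rw [← sum_sdiff (inter_subset_left : J ∩ I ⊆ J)]
    congr 1
    rw [sdiff_inter_self_left]
  rw [h, Nat.add_sub_cancel]

theorem numE_eq_zero {J : Finset E} {c : E → ℕ} (h : numE J c = 0) : ∀ m ∈ J, c m = 0 := by
  intro m hm
  unfold numE at h
  rw [sum_eq_zero_iff] at h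
  have := h m hm
  rcases Nat.mul_eq_zero.mp this with h1 | h1
  · exact h1
  · exact absurd h1 (by positivity)

theorem absorb_sound {c w : E → ℕ} (hc : ∀ m ∈ Ix, c m < 2 ^ bb) (hw : ∀ m ∈ Ix, w m < 2 ^ bb)
    (hs : ∑ m ∈ Ix, c m < 2 ^ bb - 1) {t : Fin 6 → ℝ} (h0 : ∀ i, 0 ≤ t i) (h1 : ∀ i, t i ≤ 1) :
    ∀ (ord : List ℕ) (J : Finset E), J ⊆ Ix → ordOk ord = true →
      absorb (numE Ix w) ord (numE J c) = true →
      ∑ m ∈ J, (c m : ℝ) * mon t m ≤ (ord.map (fun i => (w (E1 i) : ℝ) * t (fi i))).sum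
  | [], J, hJ, _, h => by
    unfold absorb at h
    rw [Nat.beq_eq] at h
    have h2 := numE_eq_zero h
    rw [List.map_nil, List.sum_nil]
    apply le_of_eq
    apply sum_eq_zero
    intro m hm
    rw [h2 m hm]; simp
  | i :: l, J, hJ, ho, h => by
    unfold absorb at h
    unfold ordOk at ho
    rw [Bool.and_eq_true, Bool.and_eq_true, Nat.ble_eq] at ho
    rw [Bool.and_eq_true, Nat.ble_eq, bbm, bbl] at h
    obtain ⟨hi, _, hol⟩ := ho
    obtain ⟨ha, hb⟩ := h
    obtain ⟨hS, hM, _⟩ := varD_ok hi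
    have e1 : Nat.land (numE J c) (varD i).M0 = numE (J ∩ Iv (fi i) 0) c := by
      rw [hM]
      exact numE_and hJ (Iv_sub _ _) fun m hm => hc m (hJ hm)
    rw [e1] at ha hb
    have e2 : Nat.sub (numE J c) (numE (J ∩ Iv (fi i) 0) c) = numE (J \ Iv (fi i) 0) c :=
      numE_sdiff _ _
    have e3 : Nat.mod (Nat.shiftRight (numE Ix w) (varD i).S) (2 ^ bb) = w (E1 i) := by
      rw [hS, ← pos_E1 hi]
      change (numE Ix w) >>> (bb * pos (E1 i)) % 2 ^ bb = _
      rw [Nat.shiftRight_eq_div_pow]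
      exact numE_digit hw (E1_mem hi)
    have e4 : Nat.mod (numE (J \ Iv (fi i) 0) c) (2 ^ bb - 1) = ∑ m ∈ J \ Iv (fi i) 0, c m :=
      numE_mod (sdiff_subset.trans hJ) (lt_of_le_of_lt
        (sum_le_sum_of_subset (sdiff_subset.trans hJ)) hs)
    rw [e2, e3, e4] at ha
    have ih := absorb_sound hc hw hs h0 h1 l (J ∩ Iv (fi i) 0) (inter_subset_left.trans hJ) hol hb
    rw [List.map_cons, List.sum_cons, ← sum_sdiff (inter_subset_left : J ∩ Iv (fi i) 0 ⊆ J),
      sdiff_inter_self_left]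
    refine add_le_add ?_ ih
    calc ∑ m ∈ J \ Iv (fi i) 0, (c m : ℝ) * mon t m
        ≤ ∑ m ∈ J \ Iv (fi i) 0, (c m : ℝ) * t (fi i) := by
          refine sum_le_sum fun m hm => ?_
          apply mul_le_mul_of_nonneg_left _ (Nat.cast_nonneg _)
          rw [mem_sdiff] at hm
          apply mon_le_of h0 h1
          intro hcon
          exact hm.2 (mem_filter.mpr ⟨hJ hm.1, hcon⟩)
      _ = ((∑ m ∈ J \ Iv (fi i) 0, c m : ℕ) : ℝ) * t (fi i) := by
          rw [← sum_mul]; push_cast; rfl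
      _ ≤ (w (E1 i) : ℝ) * t (fi i) := by
          apply mul_le_mul_of_nonneg_right _ (h0 _)
          exact_mod_cast ha

theorem memN_spec {i : ℕ} : ∀ {l : List ℕ}, memN i l = false → i ∉ l
  | [], _ => by simp
  | j :: l, h => by
    unfold memN at h
    rw [Bool.or_eq_false_iff] at h
    rw [List.mem_cons, not_or]
    exact ⟨fun hc => by rw [hc, Nat.beq_refl] at h; simp at h, memN_spec h.2⟩

theorem ordOk_spec : ∀ {l : List ℕ}, ordOk l = true → l.Nodup ∧ ∀ i ∈ l, i ≤ 4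
  | [], _ => ⟨List.nodup_nil, by simp⟩
  | j :: l, h => by
    unfold ordOk at h
    rw [Bool.and_eq_true, Bool.and_eq_true, Nat.ble_eq] at h
    obtain ⟨h1, h2, h3⟩ := h
    have h4 := ordOk_spec h3
    refine ⟨List.nodup_cons.mpr ⟨memN_spec (by simpa using h2), h4.1⟩, ?_⟩
    intro i hi
    rcases List.mem_cons.mp hi with rfl | hi
    · exact h1
    · exact h4.2 i hi

/-- the corner test -/
theorem corn_test {T : MvPolynomial (Fin 6) ℤ} (hT : T.IsHomogeneous 5)
    (hc : ∀ m, |coeff m T| < 2 ^ aa) (hs : ∑ m ∈ Ix, (coeff m T).natAbs < 2 ^ bb - 1)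
    {ord : List ℕ} (ho : ordOk ord = true) (h : cornTest ord (pk T + (cOff : ℤ)).toNat = true)
    {t : Fin 6 → ℝ} (h0 : ∀ i, 0 ≤ t i) (h1 : ∀ i, t i ≤ 1) (h5 : t 5 = 1) : aeval t T ≤ 0 := by
  have hpos : ∀ m, (coeff m T).toNat < 2 ^ bb := by
    intro m
    have := abs_lt.mp (hc m)
    have h2 : (2 : ℤ) ^ bb = 2 * 2 ^ aa := by rw [bb_eq, pow_succ]; ring
    zify
    by_cases h0 : 0 ≤ coeff m T
    · rw [Int.toNat_of_nonneg h0]; linarith
    · rw [Int.toNat_of_nonpos (by linarith)]; positivity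
  have hneg : ∀ m, (-coeff m T).toNat < 2 ^ bb := by
    intro m
    have := abs_lt.mp (hc m)
    have h2 : (2 : ℤ) ^ bb = 2 * 2 ^ aa := by rw [bb_eq, pow_succ]; ring
    zify
    by_cases h0 : 0 ≤ -coeff m T
    · rw [Int.toNat_of_nonneg h0]; linarith
    · rw [Int.toNat_of_nonpos (by linarith)]; positivity
  unfold cornTest at h
  change absorb (posPart aa cOff (Nat.sub (Nat.mul 2 cOff) (pk T + (cOff : ℤ)).toNat)) ord
    (posPart aa cOff (pk T + (cOff : ℤ)).toNat) = true at h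
  rw [Z_pos hT off_ok hc, Z_neg hT off_ok hc] at h
  have hsp : ∑ m ∈ Ix, (coeff m T).toNat < 2 ^ bb - 1 := by
    refine lt_of_le_of_lt (sum_le_sum fun m _ => ?_) hs
    omega
  have key := absorb_sound (fun m _ => hpos m) (fun m _ => hneg m) hsp h0 h1 ord Ix
    (subset_refl _) ho h
  obtain ⟨hnd, hle⟩ := ordOk_spec ho
  rw [← List.sum_toFinset _ hnd] at key
  have h2 : ∑ i ∈ ord.toFinset, (((-coeff (E1 i) T).toNat : ℕ) : ℝ) * t (fi i) ≤
      ∑ m ∈ Ix, (((-coeff m T).toNat : ℕ) : ℝ) * mon t m := by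
    have h3 : ∑ i ∈ ord.toFinset, (((-coeff (E1 i) T).toNat : ℕ) : ℝ) * t (fi i) =
        ∑ m ∈ ord.toFinset.image E1, (((-coeff m T).toNat : ℕ) : ℝ) * mon t m := by
      rw [sum_image]
      · refine sum_congr rfl fun i hi => ?_
        rw [mon_E1 h5 (hle i (List.mem_toFinset.mp hi))]
      · intro a ha b hb hab
        have ha' : a ∈ ord.toFinset := by exact_mod_cast ha
        have hb' : b ∈ ord.toFinset := by exact_mod_cast hb
        exact E1_inj (hle a (List.mem_toFinset.mp ha')) (hle b (List.mem_toFinset.mp hb')) hab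
    rw [h3]
    apply sum_le_sum_of_subset_of_nonneg
    · intro m hm
      rw [mem_image] at hm
      obtain ⟨i, hi, rfl⟩ := hm
      exact E1_mem (hle i (List.mem_toFinset.mp hi))
    · intro m _ _
      exact mul_nonneg (Nat.cast_nonneg _) (mon_nonneg h0 m)
  rw [aeval_eq_sum T (support_of_hom hT)]
  have h4 : ∑ m ∈ IxN 5, (algebraMap ℤ ℝ) (coeff m T) * mon t m =
      ∑ m ∈ Ix, (((coeff m T).toNat : ℕ) : ℝ) * mon t m -
        ∑ m ∈ Ix, (((-coeff m T).toNat : ℕ) : ℝ) * mon t m := by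
    rw [← sum_sub_distrib]
    refine sum_congr rfl fun m _ => ?_
    have hx : (algebraMap ℤ ℝ (coeff m T)) = ((coeff m T).toNat : ℝ) - ((-coeff m T).toNat : ℝ) := by
      have : coeff m T = ((coeff m T).toNat : ℤ) - ((-coeff m T).toNat : ℤ) := by omega
      rw [eq_intCast]
      exact_mod_cast this
    rw [hx]
    ring
  rw [h4]
  linarith

end Pool.Agent.Helper5.B54
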