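import Pool.Agent.Helper5.B54.Corner

/-!
# Corner leaves are sound
-/

namespace Pool.Agent.Helper5.B54

open Finset MvPolynomial Pool.Agent.Helper65.B54

theorem subst_eq (i : Fin 6) (l p : MvPolynomial (Fin 6) ℤ) (hp : p.IsHomogeneous 5) :
    subst i l p = aeval (Function.update X i l) p := by
  have h := aeval_subst (A := MvPolynomial (Fin 6) ℤ) i l p hp X
  rw [aeval_X_left_apply, aeval_X_left_apply] at h
  exact h

theorem bd_mon {l : Fin 6 → MvPolynomial (Fin 6) ℤ} {L : ℕ} (hl : ∀ i, Bd (l i) L) {m : E}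
    (hm : ∑ k, m k = 5) : Bd (mon l m) (L ^ 5) := by
  unfold mon
  rw [Fin.prod_univ_six]
  rw [Fin.sum_univ_six] at hm
  have h := ((((((hl 0).pow (m 0)).mul ((hl 1).pow (m 1))).mul ((hl 2).pow (m 2))).mul
    ((hl 3).pow (m 3))).mul ((hl 4).pow (m 4))).mul ((hl 5).pow (m 5))
  refine h.mono (le_of_eq ?_)
  calc L ^ m 0 * L ^ m 1 * L ^ m 2 * L ^ m 3 * L ^ m 4 * L ^ m 5
      = L ^ (m 0 + m 1 + m 2 + m 3 + m 4 + m 5) := by ring
    _ = L ^ 5 := congrArg (fun n => L ^ n) hm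

theorem bd_comp {p : MvPolynomial (Fin 6) ℤ} (hp : p.IsHomogeneous 5) {K L : ℕ}
    (hK : ∑ m ∈ Ix, (coeff m p).natAbs ≤ K) {l : Fin 6 → MvPolynomial (Fin 6) ℤ}
    (hl : ∀ i, Bd (l i) L) : Bd (aeval l p) (K * L ^ 5) := by
  rw [aeval_eq_sum p (support_of_hom hp)]
  have h1 : ∀ m ∈ IxN 5, Bd ((algebraMap ℤ (MvPolynomial (Fin 6) ℤ)) (coeff m p) * mon l m)
      ((coeff m p).natAbs * L ^ 5) := by
    intro m hm
    refine Bd.mul ?_ (bd_mon hl (mem_IxN.mp hm))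
    exact Bd.C (S := (coeff m p).natAbs) (coeff m p) (by simp)
  refine (Bd.sum _ _ _ h1).mono ?_
  rw [← sum_mul]
  exact Nat.mul_le_mul_right _ hK

theorem hom_comp {p : MvPolynomial (Fin 6) ℤ} (hp : p.IsHomogeneous 5)
    {l : Fin 6 → MvPolynomial (Fin 6) ℤ} (hl : ∀ i, (l i).IsHomogeneous 1) :
    (aeval l p).IsHomogeneous 5 := by
  rw [aeval_eq_sum p (support_of_hom hp)]
  apply IsHomogeneous.sum
  intro m hm
  have hm5 := mem_IxN.mp hm
  have h1 : (mon l m).IsHomogeneous 5 := by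
    unfold mon
    have := IsHomogeneous.prod univ (fun i => l i ^ m i) (fun i => 1 * m i) fun i _ => (hl i).pow _
    simp only [one_mul] at this
    rwa [hm5] at this
  exact h1.C_mul _

theorem comp_step {p : MvPolynomial (Fin 6) ℤ} (hp : p.IsHomogeneous 5)
    {M M' : Fin 6 → MvPolynomial (Fin 6) ℤ} (hM : ∀ i, (M i).IsHomogeneous 1)
    {K L : ℕ} (hK : ∑ m ∈ Ix, (coeff m p).natAbs ≤ K) (hL : ∀ i, Bd (M i) L)
    (hKL : K * L ^ 5 < 2 ^ aa)
    {V : VarD} {Q : OffD} {i : Fin 6} (hV : V.Ok i) (hQ : Q.Ok i) (l : MvPolynomial (Fin 6) ℤ)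
    (hM' : ∀ j, aeval (Function.update X i l) (M j) = M' j) :
    conv V Q cOff (pk l) (pk (aeval M p)) = pk (aeval M' p) := by
  have hh := hom_comp hp hM
  have e : (fun j => aeval (Function.update X i l) (M j)) = M' := funext hM'
  rw [conv_eq hV hQ hh (lt_aa (bd_comp hp hK hL) hKL) off_ok l, subst_eq i l _ hh,
    MvPolynomial.comp_aeval_apply, e]

section forms
variable (m : Bool) (D2 : ℕ) (c : Cor)

noncomputable def e0P : MvPolynomial (Fin 6) ℤ :=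
  match m with
  | true => X 1 - C (c.r0 : ℤ) * X 0
  | false => C (c.r0 : ℤ) * X 0

noncomputable def e3P : MvPolynomial (Fin 6) ℤ := C (D2 : ℤ) * X 5 - (X 1 + X 4 + C (c.r3 : ℤ) * X 3)

noncomputable def e1P : MvPolynomial (Fin 6) ℤ := C (c.c1 : ℤ) * X 5 - C (c.r1 : ℤ) * X 1

noncomputable def e2P : MvPolynomial (Fin 6) ℤ := C (c.r2 : ℤ) * X 2

noncomputable def e4P : MvPolynomial (Fin 6) ℤ := C (c.r4 : ℤ) * X 4

noncomputable def f0P : MvPolynomial (Fin 6) ℤ :=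
  match m with
  | true => e1P c - C (c.r0 : ℤ) * X 0
  | false => C (c.r0 : ℤ) * X 0

noncomputable def g3P : MvPolynomial (Fin 6) ℤ :=
  C (D2 : ℤ) * X 5 - (e1P c + X 4 + C (c.r3 : ℤ) * X 3)

noncomputable def f3P : MvPolynomial (Fin 6) ℤ :=
  C (D2 : ℤ) * X 5 - e1P c - (C (c.r4 : ℤ) * X 4 + C (c.r3 : ℤ) * X 3)

noncomputable def M0P : Fin 6 → MvPolynomial (Fin 6) ℤ := ![X 0, X 1, X 2, X 3, X 4, C (D2 : ℤ) * X 5]
noncomputable def M1P : Fin 6 → MvPolynomial (Fin 6) ℤ :=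
  ![e0P m c, X 1, X 2, X 3, X 4, C (D2 : ℤ) * X 5]
noncomputable def M2P : Fin 6 → MvPolynomial (Fin 6) ℤ :=
  ![e0P m c, X 1, X 2, e3P D2 c, X 4, C (D2 : ℤ) * X 5]
noncomputable def M3P : Fin 6 → MvPolynomial (Fin 6) ℤ :=
  ![f0P m c, e1P c, X 2, g3P D2 c, X 4, C (D2 : ℤ) * X 5]
noncomputable def M4P : Fin 6 → MvPolynomial (Fin 6) ℤ :=
  ![f0P m c, e1P c, e2P c, g3P D2 c, X 4, C (D2 : ℤ) * X 5]
noncomputable def M5P : Fin 6 → MvPolynomial (Fin 6) ℤ :=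
  ![f0P m c, e1P c, e2P c, f3P D2 c, e4P c, C (D2 : ℤ) * X 5]

end forms

variable {m : Bool} {D2 : ℕ} {c : Cor}

theorem step1 : ∀ j, aeval (Function.update X 0 (e0P m c)) (M0P D2 j) = M1P m D2 c j := by
  intro j
  fin_cases j <;> cases m <;> simp [M0P, M1P]

theorem step2 : ∀ j, aeval (Function.update X 3 (e3P D2 c)) (M1P m D2 c j) = M2P m D2 c j := by
  intro j
  fin_cases j <;> cases m <;> simp [M1P, M2P, e0P]

theorem step3 : ∀ j, aeval (Function.update X 1 (e1P c)) (M2P m D2 c j) = M3P m D2 c j := by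
  intro j
  fin_cases j <;> cases m <;> simp [M2P, M3P, e0P, f0P, e3P, g3P]

theorem step4 : ∀ j, aeval (Function.update X 2 (e2P c)) (M3P m D2 c j) = M4P m D2 c j := by
  intro j
  fin_cases j <;> cases m <;> simp [M3P, M4P, e1P, f0P, g3P]

theorem step5 : ∀ j, aeval (Function.update X 4 (e4P c)) (M4P m D2 c j) = M5P m D2 c j := by
  intro j
  fin_cases j <;> cases m <;> simp [M4P, M5P, e1P, f0P, e2P, g3P, f3P, e4P] <;> ring

theorem hX (i : Fin 6) : (X i : MvPolynomial (Fin 6) ℤ).IsHomogeneous 1 := isHomogeneous_X _ _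

theorem hom_e1P : (e1P c).IsHomogeneous 1 := (hom_CX _ _).sub (hom_CX _ _)

theorem hom_e0P : (e0P m c).IsHomogeneous 1 := by
  cases m
  · exact hom_CX _ _
  · exact (hX 1).sub (hom_CX _ _)

theorem hom_f0P : (f0P m c).IsHomogeneous 1 := by
  cases m
  · exact hom_CX _ _
  · exact hom_e1P.sub (hom_CX _ _)

theorem hom_e3P : (e3P D2 c).IsHomogeneous 1 :=
  (hom_CX _ _).sub (((hX 1).add (hX 4)).add (hom_CX _ _))

theorem hom_g3P : (g3P D2 c).IsHomogeneous 1 :=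
  (hom_CX _ _).sub ((hom_e1P.add (hX 4)).add (hom_CX _ _))

theorem hom_f3P : (f3P D2 c).IsHomogeneous 1 :=
  ((hom_CX _ _).sub hom_e1P).sub ((hom_CX _ _).add (hom_CX _ _))

theorem hom_M0P : ∀ i, (M0P D2 i).IsHomogeneous 1 := by
  intro i
  fin_cases i
  exacts [hX 0, hX 1, hX 2, hX 3, hX 4, hom_CX _ _]

theorem hom_M1P : ∀ i, (M1P m D2 c i).IsHomogeneous 1 := by
  intro i
  fin_cases i
  exacts [hom_e0P, hX 1, hX 2, hX 3, hX 4, hom_CX _ _]

theorem hom_M2P : ∀ i, (M2P m D2 c i).IsHomogeneous 1 := by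
  intro i
  fin_cases i
  exacts [hom_e0P, hX 1, hX 2, hom_e3P, hX 4, hom_CX _ _]

theorem hom_M3P : ∀ i, (M3P m D2 c i).IsHomogeneous 1 := by
  intro i
  fin_cases i
  exacts [hom_f0P, hom_e1P, hX 2, hom_g3P, hX 4, hom_CX _ _]

theorem hom_M4P : ∀ i, (M4P m D2 c i).IsHomogeneous 1 := by
  intro i
  fin_cases i
  exacts [hom_f0P, hom_e1P, hom_CX _ _, hom_g3P, hX 4, hom_CX _ _]

theorem hom_M5P : ∀ i, (M5P m D2 c i).IsHomogeneous 1 := by
  intro i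
  fin_cases i
  exacts [hom_f0P, hom_e1P, hom_CX _ _, hom_f3P, hom_CX _ _, hom_CX _ _]

theorem bdCX (a : ℕ) (i : Fin 6) : Bd (C (a : ℤ) * X i) a := by
  have := (Bd.C (S := a) (a : ℤ) (by simp)).mul (Bd.X i)
  simpa using this

theorem cornR_eq : cornR D2 c = c.r0 + c.r1 + c.r2 + c.r3 + c.r4 + c.c1 + (D2 + 3) := rfl

theorem bd_e1P : Bd (e1P c) (c.c1 + c.r1) := (bdCX _ _).sub (bdCX _ _)

theorem bd_e0P : Bd (e0P m c) (cornR D2 c) := by
  rw [cornR_eq]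
  cases m
  · exact (bdCX _ _).mono (by omega)
  · exact ((Bd.X 1).sub (bdCX _ _)).mono (by omega)

theorem bd_f0P : Bd (f0P m c) (cornR D2 c) := by
  rw [cornR_eq]
  cases m
  · exact (bdCX _ _).mono (by omega)
  · exact (bd_e1P.sub (bdCX _ _)).mono (by omega)

theorem bd_X' (i : Fin 6) : Bd (X i) (cornR D2 c) := (Bd.X i).mono (by rw [cornR_eq]; omega)

theorem bd_D2 : Bd (C (D2 : ℤ) * X 5) (cornR D2 c) := (bdCX _ _).mono (by rw [cornR_eq]; omega)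

theorem bd_e1P' : Bd (e1P c) (cornR D2 c) := bd_e1P.mono (by rw [cornR_eq]; omega)

theorem bd_e2P : Bd (e2P c) (cornR D2 c) := (bdCX _ _).mono (by rw [cornR_eq]; omega)

theorem bd_e4P : Bd (e4P c) (cornR D2 c) := (bdCX _ _).mono (by rw [cornR_eq]; omega)

theorem bd_e3P : Bd (e3P D2 c) (cornR D2 c) :=
  ((bdCX _ _).sub (((Bd.X 1).add (Bd.X 4)).add (bdCX _ _))).mono (by rw [cornR_eq]; omega)

theorem bd_g3P : Bd (g3P D2 c) (cornR D2 c) :=
  ((bdCX _ _).sub ((bd_e1P.add (Bd.X 4)).add (bdCX _ _))).mono (by rw [cornR_eq]; omega)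

theorem bd_f3P : Bd (f3P D2 c) (cornR D2 c) :=
  (((bdCX _ _).sub bd_e1P).sub ((bdCX _ _).add (bdCX _ _))).mono (by rw [cornR_eq]; omega)

theorem bd_M0P (c : Cor) : ∀ i, Bd (M0P D2 i) (cornR D2 c) := by
  intro i
  fin_cases i
  exacts [bd_X' 0, bd_X' 1, bd_X' 2, bd_X' 3, bd_X' 4, bd_D2]

theorem bd_M1P : ∀ i, Bd (M1P m D2 c i) (cornR D2 c) := by
  intro i
  fin_cases i
  exacts [bd_e0P, bd_X' 1, bd_X' 2, bd_X' 3, bd_X' 4, bd_D2]

theorem bd_M2P : ∀ i, Bd (M2P m D2 c i) (cornR D2 c) := by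
  intro i
  fin_cases i
  exacts [bd_e0P, bd_X' 1, bd_X' 2, bd_e3P, bd_X' 4, bd_D2]

theorem bd_M3P : ∀ i, Bd (M3P m D2 c i) (cornR D2 c) := by
  intro i
  fin_cases i
  exacts [bd_f0P, bd_e1P', bd_X' 2, bd_g3P, bd_X' 4, bd_D2]

theorem bd_M4P : ∀ i, Bd (M4P m D2 c i) (cornR D2 c) := by
  intro i
  fin_cases i
  exacts [bd_f0P, bd_e1P', bd_e2P, bd_g3P, bd_X' 4, bd_D2]

theorem bd_M5P : ∀ i, Bd (M5P m D2 c i) (cornR D2 c) := by
  intro i
  fin_cases i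
  exacts [bd_f0P, bd_e1P', bd_e2P, bd_f3P, bd_e4P, bd_D2]

/-! ### packed values -/

theorem pkCX (a : ℕ) (i : Fin 6) {n : ℕ} (h : n = 2 ^ (bb * fs i)) :
    Int.ofNat (Nat.mul a n) = pk (C (a : ℤ) * X i) := by
  rw [pk_mul, pk_C, ← XI_eq h]
  change ((a * n : ℕ) : ℤ) = _
  push_cast
  rfl

theorem pkCX5 (a : ℕ) : Int.ofNat a = pk (C (a : ℤ) * X 5) := by
  have := pkCX a 5 X5_eq
  rw [← this]
  change (a : ℤ) = ((a * 1 : ℕ) : ℤ)
  rw [mul_one]

theorem pk_e1P : cE1 c = pk (e1P c) := by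
  unfold cE1 e1P
  rw [pk_sub', ← pkCX _ _ X1_eq, ← pkCX5]
  rfl

theorem pk_e0P : cE0 m c = pk (e0P m c) := by
  cases m
  · exact pkCX _ _ X0_eq
  · unfold cE0 e0P
    simp only
    rw [pk_sub', ← pkCX _ _ X0_eq, ← XI_eq X1_eq]
    rfl

theorem pk_e3P : cE3 D2 c = pk (e3P D2 c) := by
  unfold cE3 e3P
  rw [pk_sub', pk_add, pk_add, ← pkCX _ _ X3_eq, ← pkCX5, ← XI_eq X1_eq, ← XI_eq X4_eq]
  change (D2 : ℤ) - ((X1 + X4 + c.r3 * X3 : ℕ) : ℤ) = (D2 : ℤ) - ((X1 : ℤ) + (X4 : ℤ) +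
    ((c.r3 * X3 : ℕ) : ℤ))
  push_cast
  ring

theorem pk_f0P : cF0 m c = pk (f0P m c) := by
  cases m
  · exact pkCX _ _ X0_eq
  · unfold cF0 f0P
    simp only
    rw [pk_sub', ← pkCX _ _ X0_eq, ← pk_e1P]
    rfl

theorem pk_f3P : cF3 D2 c = pk (f3P D2 c) := by
  unfold cF3 f3P
  rw [pk_sub', pk_sub', pk_add, ← pkCX _ _ X3_eq, ← pkCX _ _ X4_eq, ← pkCX5, ← pk_e1P]
  change (D2 : ℤ) - cE1 c - ((c.r4 * X4 + c.r3 * X3 : ℕ) : ℤ) = (D2 : ℤ) - cE1 c -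
    (((c.r4 * X4 : ℕ) : ℤ) + ((c.r3 * X3 : ℕ) : ℤ))
  push_cast
  ring

/-- the first packed value -/
theorem start_eq {P : DP} {p : MvPolynomial (Fin 6) ℤ} (hS : Sem D2 P p) :
    Int.sub (Int.ofNat P.X) (Int.ofNat (Nat.mul P.K
      (Nat.pow (Nat.add (Nat.add (Nat.add (Nat.add (Nat.add X0 X1) X2) X3) X4) D2) 5))) =
    pk (aeval (M0P D2) p) := by
  obtain ⟨g, hg, hgX, hgv⟩ := hS.g
  have hpoly : cst g - C (P.K : ℤ) * (∑ k, M0P D2 k) ^ 5 = aeval (M0P D2) p := by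
    apply MvPolynomial.funext
    intro x
    have hcast : ∀ q : MvPolynomial (Fin 6) ℤ, ((eval x q : ℤ) : ℝ) =
        aeval (fun k => (x k : ℝ)) q := by
      intro q
      rw [eval_eq_sum q (subset_refl _), aeval_eq_sum q (subset_refl _)]
      push_cast
      refine sum_congr rfl fun m _ => ?_
      simp [mon]
    have h1 : ((eval x (cst g - C (P.K : ℤ) * (∑ k, M0P D2 k) ^ 5) : ℤ) : ℝ) =
        ((eval x (aeval (M0P D2) p) : ℤ) : ℝ) := by
      rw [hcast, hcast, map_sub, map_mul, map_pow, aeval_cst, hgv, MvPolynomial.comp_aeval_apply,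
        map_sum]
      have h2 : (fun i => aeval (fun k => (x k : ℝ)) (M0P D2 i)) =
          Function.update (fun k => (x k : ℝ)) 5 (D2 * (x 5 : ℝ)) := by
        funext i
        fin_cases i <;> simp [M0P]
      have h3 : ∀ i, aeval (fun k => (x k : ℝ)) (M0P D2 i) =
          Function.update (fun k => (x k : ℝ)) 5 (D2 * (x 5 : ℝ)) i := fun i => congrFun h2 i
      simp only [h3]
      rw [aeval_C, eq_intCast]
      push_cast
      ring
    exact_mod_cast h1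
  rw [← hpoly, pk_sub', pk_mul, pk_C, pk_pow, pk_cst, hgX]
  have h4 : pk (∑ k, M0P D2 k) = ((X0 + X1 + X2 + X3 + X4 + D2 : ℕ) : ℤ) := by
    rw [pk_sum, Fin.sum_univ_six]
    change pk (X 0) + pk (X 1) + pk (X 2) + pk (X 3) + pk (X 4) + pk (C (D2 : ℤ) * X 5) = _
    rw [← XI_eq X0_eq, ← XI_eq X1_eq, ← XI_eq X2_eq, ← XI_eq X3_eq, ← XI_eq X4_eq, ← pkCX5]
    push_cast
    rfl
  rw [h4]
  change (P.X : ℤ) - ((P.K * (X0 + X1 + X2 + X3 + X4 + D2) ^ 5 : ℕ) : ℤ) = _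
  push_cast
  ring

theorem cornN_eq {P : DP} {p : MvPolynomial (Fin 6) ℤ} (hS : Sem D2 P p)
    (hKL : P.K * (cornR D2 c) ^ 5 < 2 ^ aa) :
    cornN m D2 c P = pk (aeval (M5P m D2 c) p) := by
  have h2 : Int.ofNat (Nat.mul c.r2 X2) = pk (e2P c) := pkCX _ _ X2_eq
  have h4 : Int.ofNat (Nat.mul c.r4 X4) = pk (e4P c) := pkCX _ _ X4_eq
  unfold cornN
  rw [start_eq hS, pk_e0P, pk_e3P, pk_e1P, h2, h4]
  rw [comp_step hS.hom hom_M0P hS.norm (bd_M0P c) hKL V0_ok Q0_ok (e0P m c) step1]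
  rw [comp_step hS.hom hom_M1P hS.norm bd_M1P hKL V3_ok Q3_ok (e3P D2 c) step2]
  rw [comp_step hS.hom hom_M2P hS.norm bd_M2P hKL V1_ok Q1_ok (e1P c) step3]
  rw [comp_step hS.hom hom_M3P hS.norm bd_M3P hKL V2_ok Q2_ok (e2P c) step4]
  exact comp_step hS.hom hom_M4P hS.norm bd_M4P hKL V4_ok Q4_ok (e4P c) step5

/-- the linear part -/
noncomputable def linC (m : Bool) (D2 : ℕ) (c : Cor) (a : V6) : MvPolynomial (Fin 6) ℤ :=
  C a.a0 * f0P m c + C a.a1 * e1P c + C a.a2 * e2P c + C a.a3 * f3P D2 c + C a.a4 * e4P c +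
    C a.a5 * (C (D2 : ℤ) * X 5)

theorem cornL_eq (a : V6) : cornL m D2 c a = pk (linC m D2 c a) := by
  unfold cornL linC e2P e4P
  rw [pk_add, pk_add, pk_add, pk_add, pk_add, pk_mul (C a.a0), pk_mul (C a.a1), pk_mul (C a.a2),
    pk_mul (C a.a3), pk_mul (C a.a4), pk_mul (C a.a5), pk_C, pk_C, pk_C, pk_C, pk_C, pk_C,
    ← pk_f0P, ← pk_f3P, ← pk_e1P, ← pkCX _ _ X2_eq, ← pkCX _ _ X4_eq, ← pkCX5]
  rfl

theorem hom_linC (a : V6) : (linC m D2 c a).IsHomogeneous 1 :=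
  (((((hom_f0P.C_mul _).add (hom_e1P.C_mul _)).add ((hom_CX _ _).C_mul _)).add
    (hom_f3P.C_mul _)).add ((hom_CX _ _).C_mul _)).add ((hom_CX _ _).C_mul _)

theorem bd_linC (a : V6) : Bd (linC m D2 c a) (sumAbs a * cornR D2 c) := by
  have hC : ∀ z : ℤ, Bd (C z) z.natAbs := fun z => Bd.C z (by simp)
  have h := ((((((hC a.a0).mul (bd_f0P (m := m) (c := c) (D2 := D2))).add
    ((hC a.a1).mul (bd_e1P' (c := c) (D2 := D2)))).add
    ((hC a.a2).mul (bd_e2P (c := c) (D2 := D2)))).add ((hC a.a3).mul (bd_f3P (c := c) (D2 := D2)))).add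
    ((hC a.a4).mul (bd_e4P (c := c) (D2 := D2)))).add ((hC a.a5).mul (bd_D2 (c := c) (D2 := D2)))
  refine h.mono (le_of_eq ?_)
  have e : sumAbs a = a.a0.natAbs + a.a1.natAbs + a.a2.natAbs + a.a3.natAbs + a.a4.natAbs +
    a.a5.natAbs := rfl
  rw [e]
  ring

/-- the normalised coordinate of a corner -/
noncomputable def tq (r : ℕ) (y : ℝ) : ℝ := if r = 0 then 0 else y / r

theorem tq_mul {r : ℕ} {y : ℝ} (h0 : 0 ≤ y) (h1 : y ≤ r) : (r : ℝ) * tq r y = y := by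
  unfold tq
  split_ifs with h
  · subst h
    have : y = 0 := le_antisymm (by simpa using h1) h0
    rw [this]; simp
  · have : (r : ℝ) ≠ 0 := by exact_mod_cast h
    field_simp

theorem tq_nonneg {r : ℕ} {y : ℝ} (h0 : 0 ≤ y) : 0 ≤ tq r y := by
  unfold tq
  split_ifs
  · exact le_refl _
  · positivity

theorem tq_le {r : ℕ} {y : ℝ} (h1 : y ≤ r) : tq r y ≤ 1 := by
  unfold tq
  split_ifs with h
  · norm_num
  · have : (0 : ℝ) < r := by
      have : 0 < r := Nat.pos_of_ne_zero h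
      exact_mod_cast this
    rw [div_le_one this]
    exact h1

/-- a corner leaf -/
theorem leafCorner_sound {cs : List V6} {P : DP} {p : MvPolynomial (Fin 6) ℤ}
    (hS : Sem D2 P p) {ord : List ℕ} {lam : List (Nat × Nat)} {b : Box} (hD : 0 < D2)
    (h : leafCorner D2 cs P m ord lam b = true) {v : Fin 6 → ℝ} (h5 : v 5 = 1)
    (hb : b.Mem D2 v) (hcs : ∀ c ∈ cs, 0 ≤ c.val v)
    (h35 : v 1 ≤ 3 / 5) (hx : v 0 ≤ v 1) (hd : v 1 + v 3 + v 4 ≤ 1) :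
    aeval v p ≤ 216 * P.mu.val v ∧ 1 ≤ D2 * P.mu.val v := by
  have hDR : (0 : ℝ) < D2 := by exact_mod_cast hD
  unfold leafCorner at h
  rw [Bool.and_eq_true, Bool.and_eq_true, Bool.and_eq_true, Bool.and_eq_true] at h
  obtain ⟨hmu, hc1, hord, hsize, hfin⟩ := h
  set a : V6 := comb cs (addMul zeroV (-216) P.mu) lam with ha
  set c : Cor := corOf m D2 b with hc
  refine ⟨?_, ?_⟩
  swap
  · have h1 := nonneg_spec hmu
    have h2 : (0 : ℤ) ≤ cval D2 P.mu b - ((rval P.mu b + 1 : ℕ) : ℤ) := h1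
    have h3 := val_ge D2 P.mu hb h5
    have h4 : (1 : ℝ) ≤ ((cval D2 P.mu b : ℤ) : ℝ) - (rval P.mu b : ℝ) := by
      have : (1 : ℤ) ≤ cval D2 P.mu b - (rval P.mu b : ℤ) := by push_cast at h2; omega
      exact_mod_cast this
    linarith
  -- the coordinates
  rw [Nat.beq_eq] at hc1
  have hc1' : 5 * c.c1 = 3 * D2 := hc1
  have hc1R : (5 : ℝ) * c.c1 = 3 * D2 := by exact_mod_cast hc1'
  have e1r : c.r1 = c.c1 - 2 * b.l1 := rfl
  have e2r : c.r2 = 2 * b.h2 := rfl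
  have e3r : c.r3 = D2 - (2 * b.l1 + 2 * b.l3 + 2 * b.l4) := rfl
  have e4r : c.r4 = 2 * b.h4 := rfl
  have hsub : ∀ x y : ℕ, (x : ℝ) - y ≤ ((x - y : ℕ) : ℝ) := by
    intro x y
    have : (x : ℤ) - y ≤ ((x - y : ℕ) : ℤ) := by omega
    exact_mod_cast this
  have y1a : 0 ≤ (c.c1 : ℝ) - D2 * v 1 := by nlinarith
  have y1b : (c.c1 : ℝ) - D2 * v 1 ≤ c.r1 := by
    rw [e1r]
    refine le_trans ?_ (hsub _ _)
    push_cast
    linarith [hb.l1]
  have y2a : 0 ≤ (D2 : ℝ) * v 2 := le_trans (by positivity) hb.l2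
  have y2b : (D2 : ℝ) * v 2 ≤ c.r2 := by
    rw [e2r]; push_cast; exact hb.h2
  have y4a : 0 ≤ (D2 : ℝ) * v 4 := le_trans (by positivity) hb.l4
  have y4b : (D2 : ℝ) * v 4 ≤ c.r4 := by
    rw [e4r]; push_cast; exact hb.h4
  have y3a : 0 ≤ (D2 : ℝ) - D2 * v 1 - D2 * v 3 - D2 * v 4 := by nlinarith
  have y3b : (D2 : ℝ) - D2 * v 1 - D2 * v 3 - D2 * v 4 ≤ c.r3 := by
    rw [e3r]
    refine le_trans ?_ (hsub _ _)
    push_cast
    linarith [hb.l1, hb.l3, hb.l4]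
  obtain ⟨y0, y0a, y0b, y0e⟩ : ∃ y0 : ℝ, 0 ≤ y0 ∧ y0 ≤ c.r0 ∧
      ∀ t : Fin 6 → ℝ, t 5 = 1 → (c.r0 : ℝ) * t 0 = y0 → (c.r1 : ℝ) * t 1 = (c.c1 : ℝ) - D2 * v 1 →
        aeval t (f0P m c) = D2 * v 0 := by
    cases m
    · refine ⟨D2 * v 0, le_trans (by positivity) hb.l0, ?_, ?_⟩
      · have : c.r0 = 2 * b.h0 := rfl
        rw [this]; push_cast; exact hb.h0
      · intro t _ h1 _
        unfold f0P
        simp
        exact h1
    · refine ⟨D2 * v 1 - D2 * v 0, by nlinarith, ?_, ?_⟩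
      · have : c.r0 = 2 * (b.h1 - b.l0) := rfl
        rw [this]
        have h3 := hsub b.h1 b.l0
        push_cast
        linarith [hb.h1, hb.l0]
      · intro t h5 h1 h2
        unfold f0P e1P
        simp [h5]
        linarith
  set t : Fin 6 → ℝ := ![tq c.r0 y0, tq c.r1 ((c.c1 : ℝ) - D2 * v 1), tq c.r2 (D2 * v 2),
    tq c.r3 ((D2 : ℝ) - D2 * v 1 - D2 * v 3 - D2 * v 4), tq c.r4 (D2 * v 4), 1] with ht
  have ht5 : t 5 = 1 := rfl
  have t0 : (c.r0 : ℝ) * t 0 = y0 := tq_mul y0a y0b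
  have t1 : (c.r1 : ℝ) * t 1 = (c.c1 : ℝ) - D2 * v 1 := tq_mul y1a y1b
  have t2 : (c.r2 : ℝ) * t 2 = D2 * v 2 := tq_mul y2a y2b
  have t3 : (c.r3 : ℝ) * t 3 = (D2 : ℝ) - D2 * v 1 - D2 * v 3 - D2 * v 4 := tq_mul y3a y3b
  have t4 : (c.r4 : ℝ) * t 4 = D2 * v 4 := tq_mul y4a y4b
  have ht0 : ∀ i, 0 ≤ t i := by
    intro i
    fin_cases i
    · exact tq_nonneg y0a
    · exact tq_nonneg y1a
    · exact tq_nonneg y2a
    · exact tq_nonneg y3a
    · exact tq_nonneg y4a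
    · rw [ht]; simp
  have ht1 : ∀ i, t i ≤ 1 := by
    intro i
    fin_cases i
    · exact tq_le y0b
    · exact tq_le y1b
    · exact tq_le y2b
    · exact tq_le y3b
    · exact tq_le y4b
    · rw [ht]; simp
  -- values of the linear forms
  have v0 : aeval t (f0P m c) = D2 * v 0 := y0e t ht5 t0 t1
  have v1 : aeval t (e1P c) = D2 * v 1 := by
    unfold e1P
    simp [ht5]
    linarith
  have v2 : aeval t (e2P c) = D2 * v 2 := by
    unfold e2P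
    simp
    exact t2
  have v4 : aeval t (e4P c) = D2 * v 4 := by
    unfold e4P
    simp
    exact t4
  have v3 : aeval t (f3P D2 c) = D2 * v 3 := by
    unfold f3P
    rw [map_sub, map_sub, v1]
    simp [ht5]
    linarith
  -- sizes
  unfold cornSize at hsize
  rw [Nat.ble_eq, aal] at hsize
  have hsize' : P.K * (cornR D2 c) ^ 5 + D2 ^ 4 * (sumAbs a * cornR D2 c) ≤ 2 ^ aa - 1 := hsize
  have hpow : 0 < 2 ^ aa := by positivity
  have hKL : P.K * (cornR D2 c) ^ 5 < 2 ^ aa := by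
    have := Nat.le_add_right (P.K * (cornR D2 c) ^ 5) (D2 ^ 4 * (sumAbs a * cornR D2 c))
    omega
  set T : MvPolynomial (Fin 6) ℤ := aeval (M5P m D2 c) p +
    C (((D2 ^ 4 : ℕ)) : ℤ) * (linC m D2 c a * X 5 ^ 4) with hT
  have hlx : (linC m D2 c a * X 5 ^ 4).IsHomogeneous 5 := by
    have := (hom_linC (m := m) (D2 := D2) (c := c) a).mul ((hX 5).pow 4)
    simpa using this
  have hThom : T.IsHomogeneous 5 := (hom_comp hS.hom hom_M5P).add (hlx.C_mul _)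
  have hTbd : Bd T (2 ^ aa - 1) := by
    refine ((bd_comp hS.hom hS.norm bd_M5P).add
      ((Bd.C (S := D2 ^ 4) (((D2 ^ 4 : ℕ)) : ℤ) (by simp)).mul
        ((bd_linC a).mul ((Bd.X 5).pow 4)))).mono ?_
    refine le_trans (le_of_eq ?_) hsize'
    rw [one_pow, mul_one]
  have hTc : ∀ m, |coeff m T| < 2 ^ aa := lt_aa hTbd (by omega)
  have hTs : ∑ m ∈ Ix, (coeff m T).natAbs < 2 ^ bb - 1 := by
    refine lt_of_le_of_lt (sum_natAbs_lt Ix (hTbd.sum_le Ix)) ?_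
    have h1 : (2 : ℕ) ^ bb = 2 * 2 ^ aa := by rw [bb_eq, pow_succ]; ring
    have h2 : 1 < 2 ^ aa := Nat.one_lt_two_pow (by decide)
    omega
  have hTpk : pk T = Int.add (cornN m D2 c P)
      (Int.mul (Int.ofNat (Nat.pow D2 4)) (cornL m D2 c a)) := by
    rw [hT, pk_add, pk_mul, pk_mul, pk_C, pk_pow, cornN_eq hS hKL, cornL_eq, ← XI_eq X5_eq]
    change _ = pk (aeval (M5P m D2 c) p) + ((D2 ^ 4 : ℕ) : ℤ) * pk (linC m D2 c a)
    push_cast
    ring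
  have hfin' : cornTest ord (pk T + (cOff : ℤ)).toNat = true := by
    rw [hTpk]
    exact hfin
  have hle := corn_test hThom hTc hTs hord hfin' ht0 ht1 ht5
  have hMv : (fun j => aeval t (M5P m D2 c j)) = fun k => (D2 : ℝ) * v k := by
    funext j
    fin_cases j
    · exact v0
    · exact v1
    · exact v2
    · exact v3
    · exact v4
    · change aeval t (C (D2 : ℤ) * X 5 : MvPolynomial (Fin 6) ℤ) = D2 * v 5
      simp [ht5, h5]
  have hlinv : aeval t (linC m D2 c a) = D2 * a.val v := by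
    have v5 : aeval t (C (D2 : ℤ) * X 5 : MvPolynomial (Fin 6) ℤ) = D2 * v 5 := by
      simp [ht5, h5]
    have hC : ∀ z : ℤ, aeval t (C z : MvPolynomial (Fin 6) ℤ) = (z : ℝ) := by
      intro z; rw [aeval_C, eq_intCast]
    unfold linC
    rw [map_add, map_add, map_add, map_add, map_add, map_mul, map_mul, map_mul, map_mul, map_mul,
      map_mul _ (C a.a5) _, v0, v1, v2, v3, v4, v5, hC, hC, hC, hC, hC, hC]
    unfold V6.val
    ring
  have hTv : aeval t T = (D2 : ℝ) ^ 5 * (aeval v p + a.val v) := by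
    rw [hT, map_add, MvPolynomial.comp_aeval_apply, hMv, aeval_smul hS.hom, map_mul, map_mul,
      map_pow, hlinv, aeval_X, ht5, aeval_C, eq_intCast]
    push_cast
    ring
  rw [hTv] at hle
  have h6 : aeval v p + a.val v ≤ 0 := by
    by_contra hcon
    push Not at hcon
    have := mul_pos (pow_pos hDR 5) hcon
    linarith
  have h7 := comb_val hcs lam (addMul zeroV (-216) P.mu)
  rw [addMul_val, zeroV_val, ← ha] at h7
  push_cast at h7
  linarith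

end Pool.Agent.Helper5.B54
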