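import Pool.Agent.Helper5.B54.Masks

/-!
# The certificate format and the (kernel evaluated) checker

Cells: `s0 = A∩Z, s1 = A∖Z, s2 = C∩Z, s3 = C∖Z, s4 = D∩Z, s5 = D∖Z`.
Parameters: `v0 = x, v1 = α, v2 = y, v3 = γ, v4 = u` (`z = (x, y, u)`), and `v5 = 1`.
-/

namespace Pool.Agent.Helper5.B54

/-- `wA x + wC y + wD u ≤ m0 + ma α + mg γ` -/
structure Facet where
  wA : Nat
  wC : Nat
  wD : Nat
  m0 : Int
  ma : Int
  mg : Int

/-- the cuts -/
inductive Cut
  /-- `|N| ≤ α` -/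
  | tot
  /-- `|N ∖ A| ≤ γ` -/
  | nc
  /-- `|N ∩ cell k| ≤ s_k` -/
  | box (k : Nat)
  /-- the facet `j` of the list of earlier facets -/
  | fac (j : Nat)
  /-- `w . N ≤ w . z` for the facet of this step -/
  | own

/-- six integers -/
structure V6 where
  a0 : Int
  a1 : Int
  a2 : Int
  a3 : Int
  a4 : Int
  a5 : Int

/-- six natural numbers -/
structure N6 where
  a0 : Nat
  a1 : Nat
  a2 : Nat
  a3 : Nat
  a4 : Nat
  a5 : Nat

/-- a dual vector: `mu` and for every used cut the quartic form `Y_c` (number of terms, code) -/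
structure Dual where
  mu : V6
  ys : List (Cut × Nat × Nat)

/-- kd-tree; lists `(constraint, multiplier)` -/
inductive Tree
  | split (v p : Nat) (l r : Tree)
  | empty (lam : List (Nat × Nat))
  | kill (d : Nat) (lam : List (Nat × Nat))
  | corner (m : Bool) (ord : List Nat) (d : Nat) (lam : List (Nat × Nat))

/-- box: lower and upper ends of `x, α, y, γ, u` in units `1 / D` -/
structure Box where
  l0 : Nat
  h0 : Nat
  l1 : Nat
  h1 : Nat
  l2 : Nat
  h2 : Nat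
  l3 : Nat
  h3 : Nat
  l4 : Nat
  h4 : Nat

/-! ### packed values of the variables -/

def X0 : Nat := Nat.shiftLeft 1 288
def X1 : Nat := Nat.shiftLeft 1 9072
def X2 : Nat := Nat.shiftLeft 1 24624
def X3 : Nat := Nat.shiftLeft 1 27360
def X4 : Nat := Nat.shiftLeft 1 28800

/-- sum of the six variables -/
def XS : Nat := Nat.add (Nat.add (Nat.add (Nat.add (Nat.add X0 X1) X2) X3) X4) 1

def packN (v : N6) : Nat :=
  Nat.add (Nat.add (Nat.add (Nat.add (Nat.add (Nat.mul v.a0 X0) (Nat.mul v.a1 X1))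
    (Nat.mul v.a2 X2)) (Nat.mul v.a3 X3)) (Nat.mul v.a4 X4)) v.a5

def packI (v : V6) : Int :=
  Int.add (Int.add (Int.add (Int.add (Int.add (Int.mul v.a0 (Int.ofNat X0))
    (Int.mul v.a1 (Int.ofNat X1))) (Int.mul v.a2 (Int.ofNat X2))) (Int.mul v.a3 (Int.ofNat X3)))
    (Int.mul v.a4 (Int.ofNat X4))) v.a5

/-! ### cuts -/

def zeroF : Facet := ⟨0, 0, 0, 0, 0, 0⟩

def Facet.W (F : Facet) : N6 := ⟨F.wA, F.wA, F.wC, F.wC, F.wD, F.wD⟩

def Facet.H (F : Facet) : V6 :=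
  ⟨Int.add F.m0 F.ma, Int.add F.m0 F.ma, Int.add F.m0 F.mg, Int.add F.m0 F.mg, F.m0, F.m0⟩

def Facet.HO (F : Facet) : V6 := ⟨Int.ofNat F.wA, 0, Int.ofNat F.wC, 0, Int.ofNat F.wD, 0⟩

def unitN (k : Nat) : N6 :=
  match k with
  | 0 => ⟨1, 0, 0, 0, 0, 0⟩
  | 1 => ⟨0, 1, 0, 0, 0, 0⟩
  | 2 => ⟨0, 0, 1, 0, 0, 0⟩
  | 3 => ⟨0, 0, 0, 1, 0, 0⟩
  | 4 => ⟨0, 0, 0, 0, 1, 0⟩
  | 5 => ⟨0, 0, 0, 0, 0, 1⟩
  | _ => ⟨0, 0, 0, 0, 0, 0⟩

def unitI (k : Nat) : V6 :=
  match k with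
  | 0 => ⟨1, 0, 0, 0, 0, 0⟩
  | 1 => ⟨0, 1, 0, 0, 0, 0⟩
  | 2 => ⟨0, 0, 1, 0, 0, 0⟩
  | 3 => ⟨0, 0, 0, 1, 0, 0⟩
  | 4 => ⟨0, 0, 0, 0, 1, 0⟩
  | 5 => ⟨0, 0, 0, 0, 0, 1⟩
  | _ => ⟨0, 0, 0, 0, 0, 0⟩

def cutW (prev : List Facet) (F : Facet) : Cut → N6
  | .tot => ⟨1, 1, 1, 1, 1, 1⟩
  | .nc => ⟨0, 0, 1, 1, 1, 1⟩
  | .box k => unitN k
  | .fac j => (prev.getD j zeroF).W
  | .own => F.W

def cutH (prev : List Facet) (F : Facet) : Cut → V6
  | .tot => ⟨1, 1, 0, 0, 0, 0⟩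
  | .nc => ⟨0, 0, 1, 1, 0, 0⟩
  | .box k => unitI k
  | .fac j => (prev.getD j zeroF).H
  | .own => F.HO

/-! ### dual vectors -/

/-- decoding of a quartic form: entries `gap + 1024 * value`, 40 bits each -/
def decY : Nat → Nat → Nat
  | 0, _ => 0
  | n + 1, x => Nat.shiftLeft (Nat.add (Nat.mod (Nat.shiftRight x 10) 1073741824)
      (decY n (Nat.shiftRight x 40))) (Nat.mul 144 (Nat.mod x 1024))

def sumW (prev : List Facet) (F : Facet) : List (Cut × Nat × Nat) → Nat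
  | [] => 0
  | (c, n, x) :: l => Nat.add (Nat.mul (decY n x) (packN (cutW prev F c))) (sumW prev F l)

def sumH (prev : List Facet) (F : Facet) : List (Cut × Nat × Nat) → Int
  | [] => 0
  | (c, n, x) :: l => Int.add (Int.mul (Int.ofNat (decY n x)) (packI (cutH prev F c)))
      (sumH prev F l)

/-- the codes are quartic forms -/
def okY : List (Cut × Nat × Nat) → Bool
  | [] => true
  | (_, n, x) :: l => and (Nat.beq (Nat.land (decY n x) cQuart) (decY n x)) (okY l)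

/-- all entries are at most `m` in absolute value -/
def smallV (m : Nat) (v : V6) : Bool :=
  and (Nat.ble v.a0.natAbs m) (and (Nat.ble v.a1.natAbs m) (and (Nat.ble v.a2.natAbs m)
    (and (Nat.ble v.a3.natAbs m) (and (Nat.ble v.a4.natAbs m) (Nat.ble v.a5.natAbs m)))))

def smallN (m : Nat) (v : N6) : Bool :=
  and (Nat.ble v.a0 m) (and (Nat.ble v.a1 m) (and (Nat.ble v.a2 m)
    (and (Nat.ble v.a3 m) (and (Nat.ble v.a4 m) (Nat.ble v.a5 m)))))

def okC (prev : List Facet) (F : Facet) : List (Cut × Nat × Nat) → Bool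
  | [] => true
  | (c, _, _) :: l => and (smallN 1048576 (cutW prev F c)) (and (smallV 1048576 (cutH prev F c))
      (okC prev F l))

/-- number of used cuts, sizes -/
def dualOk (prev : List Facet) (F : Facet) (d : Dual) : Bool :=
  and (Nat.ble d.ys.length 32) (and (smallV 1152921504606846976 d.mu)
    (and (okC prev F d.ys) (okY d.ys)))

/-- packed `L - sum Y W` after the offset -/
def dualV (prev : List Facet) (F : Facet) (d : Dual) : Nat :=
  Int.toNat (Int.add (Int.sub (Int.mul (Int.ofNat (Nat.pow XS 4)) (packI d.mu))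
    (Int.ofNat (sumW prev F d.ys))) (Int.ofNat cOff))

/-- packed `625 (sum Y H + U)` -/
def dualN (prev : List Facet) (F : Facet) (d : Dual) : Int :=
  Int.mul 625 (Int.add (sumH prev F d.ys)
    (Int.ofNat (Nat.land (posPart 143 cOff (dualV prev F d)) cAllowed)))

def Q1 : OffD := ⟨cO10, cO11, cO12, cO13, cO14, cO15⟩
def Q3 : OffD := ⟨cO30, cO31, cO32, cO33, cO34, cO35⟩
def Q5 : OffD := ⟨cO50, cO51, cO52, cO53, cO54, cO55⟩

/-- `w - s0 - s1 - s2 - s3 - s4` -/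
def l5 : Int := Int.sub (Int.ofNat 1) (Int.ofNat (Nat.add (Nat.add (Nat.add (Nat.add X0 X1) X2) X3) X4))
/-- `α - x` -/
def l1 : Int := Int.sub (Int.ofNat X1) (Int.ofNat X0)
/-- `γ - y` -/
def l3 : Int := Int.sub (Int.ofNat X3) (Int.ofNat X2)

/-- in terms of the parameters -/
def toPar (N : Int) : Int :=
  conv V3 Q3 cOff l3 (conv V1 Q1 cOff l1 (conv V5 Q5 cOff l5 N))

/-- sum of the absolute values of the coefficients -/
def normP (N : Int) : Nat :=
  Nat.add (Nat.mod (posPart 143 cOff (Int.toNat (Int.add N (Int.ofNat cOff))))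
      22300745198530623141535718272648361505980415)
    (Nat.mod (posPart 143 cOff (Nat.sub (Nat.mul 2 cOff) (Int.toNat (Int.add N (Int.ofNat cOff)))))
      22300745198530623141535718272648361505980415)

/-- prepared dual vector: packed biased form, bias, `mu` in the parameters -/
structure DP where
  X : Nat
  K : Nat
  mu : V6

def muPar (m : V6) : V6 :=
  ⟨Int.sub m.a0 m.a1, Int.sub m.a1 m.a5, Int.sub m.a2 m.a3, Int.sub m.a3 m.a5,
    Int.sub m.a4 m.a5, m.a5⟩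

def prepN (D2 : Nat) (N : Int) (mu : V6) : DP :=
  ⟨diag V5 D2 0 (Int.toNat (Int.add N (Int.ofNat (Nat.mul (normP N) (Nat.pow XS 5))))), normP N,
    muPar mu⟩

def prep (prev : List Facet) (F : Facet) (D2 : Nat) (d : Dual) : DP :=
  prepN D2 (toPar (dualN prev F d)) d.mu

/-! ### constraints -/

/-- `τ - w . z` -/
def Facet.con (F : Facet) : V6 :=
  ⟨Int.neg (Int.ofNat F.wA), F.ma, Int.neg (Int.ofNat F.wC), F.mg, Int.neg (Int.ofNat F.wD), F.m0⟩

/-- `w . z - τ` -/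
def Facet.ncon (F : Facet) : V6 :=
  ⟨Int.ofNat F.wA, Int.neg F.ma, Int.ofNat F.wC, Int.neg F.mg, Int.ofNat F.wD, Int.neg F.m0⟩

def baseCons : List V6 :=
  [⟨-1, 1, -1, 0, -1, 0⟩, ⟨0, 0, -1, 1, -1, 0⟩, ⟨0, -1, 0, -1, -1, 1⟩, ⟨0, 1, 0, -1, 0, 0⟩,
    ⟨0, -1, 0, -1, 0, 1⟩, ⟨0, -5, 0, 0, 0, 3⟩]

def cons (prev : List Facet) (F : Facet) : List V6 := F.ncon :: (baseCons ++ prev.map Facet.con)

def zeroV : V6 := ⟨0, 0, 0, 0, 0, 0⟩

def addMul (a : V6) (k : Int) (b : V6) : V6 :=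
  ⟨Int.add a.a0 (Int.mul k b.a0), Int.add a.a1 (Int.mul k b.a1), Int.add a.a2 (Int.mul k b.a2),
    Int.add a.a3 (Int.mul k b.a3), Int.add a.a4 (Int.mul k b.a4), Int.add a.a5 (Int.mul k b.a5)⟩

/-- `a + sum lam c` -/
def comb (cs : List V6) (a : V6) : List (Nat × Nat) → V6
  | [] => a
  | (i, k) :: l => comb cs (addMul a (Int.ofNat k) (cs.getD i zeroV)) l

/-! ### leaves -/

/-- `2 D` times the value at the centre -/
def cval (D2 : Nat) (a : V6) (b : Box) : Int :=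
  Int.add (Int.add (Int.add (Int.add (Int.add (Int.mul a.a0 (Int.ofNat (Nat.add b.l0 b.h0)))
    (Int.mul a.a1 (Int.ofNat (Nat.add b.l1 b.h1)))) (Int.mul a.a2 (Int.ofNat (Nat.add b.l2 b.h2))))
    (Int.mul a.a3 (Int.ofNat (Nat.add b.l3 b.h3)))) (Int.mul a.a4 (Int.ofNat (Nat.add b.l4 b.h4))))
    (Int.mul a.a5 (Int.ofNat D2))

/-- `2 D` times the largest deviation from the centre -/
def rval (a : V6) (b : Box) : Nat :=
  Nat.add (Nat.add (Nat.add (Nat.add (Nat.mul a.a0.natAbs (Nat.sub b.h0 b.l0))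
    (Nat.mul a.a1.natAbs (Nat.sub b.h1 b.l1))) (Nat.mul a.a2.natAbs (Nat.sub b.h2 b.l2)))
    (Nat.mul a.a3.natAbs (Nat.sub b.h3 b.l3))) (Nat.mul a.a4.natAbs (Nat.sub b.h4 b.l4))

/-- packed linear form on the box -/
def lval (D2 : Nat) (a : V6) (b : Box) : Int :=
  Int.add (Int.add (Int.add (Int.add (Int.add
    (Int.mul (Int.mul a.a0 (Int.ofNat (Nat.sub b.h0 b.l0))) (Int.ofNat X0))
    (Int.mul (Int.mul a.a1 (Int.ofNat (Nat.sub b.h1 b.l1))) (Int.ofNat X1)))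
    (Int.mul (Int.mul a.a2 (Int.ofNat (Nat.sub b.h2 b.l2))) (Int.ofNat X2)))
    (Int.mul (Int.mul a.a3 (Int.ofNat (Nat.sub b.h3 b.l3))) (Int.ofNat X3)))
    (Int.mul (Int.mul a.a4 (Int.ofNat (Nat.sub b.h4 b.l4))) (Int.ofNat X4)))
    (cval D2 a b)

/-- sum of the upper ends -/
def rho (D2 : Nat) (b : Box) : Nat :=
  Nat.add (Nat.add (Nat.add (Nat.add (Nat.add D2 (Nat.mul 2 b.h0)) (Nat.mul 2 b.h1))
    (Nat.mul 2 b.h2)) (Nat.mul 2 b.h3)) (Nat.add (Nat.mul 2 b.h4) 5)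

/-- packed `D2 + sum (c_i + r_i t_i)` -/
def lsum (D2 : Nat) (b : Box) : Nat :=
  Nat.add (Nat.add (Nat.add (Nat.add (Nat.add
    (Nat.mul (Nat.sub b.h0 b.l0) X0) (Nat.mul (Nat.sub b.h1 b.l1) X1))
    (Nat.mul (Nat.sub b.h2 b.l2) X2)) (Nat.mul (Nat.sub b.h3 b.l3) X3))
    (Nat.mul (Nat.sub b.h4 b.l4) X4))
    (Nat.add (Nat.add (Nat.add (Nat.add (Nat.add (Nat.add b.l0 b.h0) (Nat.add b.l1 b.h1))
      (Nat.add b.l2 b.h2)) (Nat.add b.l3 b.h3)) (Nat.add b.l4 b.h4)) D2)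

/-- the five substitutions -/
def diag5 (X : Nat) (b : Box) : Nat :=
  diag V4 (Nat.add b.l4 b.h4) (Nat.sub b.h4 b.l4)
  (diag V3 (Nat.add b.l3 b.h3) (Nat.sub b.h3 b.l3)
  (diag V2 (Nat.add b.l2 b.h2) (Nat.sub b.h2 b.l2)
  (diag V1 (Nat.add b.l1 b.h1) (Nat.sub b.h1 b.l1)
  (diag V0 (Nat.add b.l0 b.h0) (Nat.sub b.h0 b.l0) X))))

/-- the final test on the packed Taylor coefficients with offset -/
def finalTest (Z : Nat) : Bool :=
  Nat.ble (Nat.add
    (Nat.mod (posPart 143 cOff Z) 22300745198530623141535718272648361505980415)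
    (Nat.mod (Nat.land (posPart 143 cOff (Nat.sub (Nat.mul 2 cOff) Z)) cOdd)
      22300745198530623141535718272648361505980415))
    (Nat.mod (posPart 143 cOff (Nat.sub (Nat.mul 2 cOff) Z))
      22300745198530623141535718272648361505980416)

/-- size condition -/
def sizeOk (D2 K : Nat) (a : V6) (b : Box) : Bool :=
  Nat.ble (Nat.add (Nat.mul (Nat.mul 3 K) (Nat.pow (rho D2 b) 5))
    (Nat.mul (Nat.pow D2 4) (Nat.add (cval D2 a b).natAbs (rval a b))))
    11150372599265311570767859136324180752990207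

def nonneg : Int → Bool
  | .ofNat _ => true
  | .negSucc _ => false

def leafKill (D2 : Nat) (cs : List V6) (P : DP) (lam : List (Nat × Nat)) (b : Box) : Bool :=
  and (nonneg (Int.sub (cval D2 P.mu b) (Int.ofNat (Nat.succ (rval P.mu b)))))
  (and (sizeOk D2 P.K (comb cs (addMul zeroV (-216) P.mu) lam) b)
    (finalTest (Int.toNat (Int.add (Int.add
      (Int.sub (Int.ofNat (diag5 P.X b)) (Int.ofNat (Nat.mul P.K (Nat.pow (lsum D2 b) 5))))
      (Int.mul (Int.ofNat (Nat.pow D2 4)) (lval D2 (comb cs (addMul zeroV (-216) P.mu) lam) b)))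
      (Int.ofNat cOff)))))

/-! ### corner leaves at the vertex `α = x = 3/5, γ = 2/5, y = u = 0` -/

/-- the offsets of a variable -/
def offOf (V : VarD) : OffD :=
  ⟨Nat.land cOff V.M0, Nat.shiftRight (Nat.land cOff V.M1) V.S,
    Nat.shiftRight (Nat.land cOff V.M2) (Nat.mul 2 V.S),
    Nat.shiftRight (Nat.land cOff V.M3) (Nat.mul 3 V.S),
    Nat.shiftRight (Nat.land cOff V.M4) (Nat.mul 4 V.S),
    Nat.shiftRight (Nat.land cOff V.M5) (Nat.mul 5 V.S)⟩

/-- scaled vertex and bounds for the five coordinates -/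
structure Cor where
  c1 : Nat
  r0 : Nat
  r1 : Nat
  r2 : Nat
  r3 : Nat
  r4 : Nat

/-- coordinates `α - x` (or `x`), `3/5 - α`, `y`, `1 - α - γ - u`, `u` -/
def corOf (m : Bool) (D2 : Nat) (b : Box) : Cor :=
  ⟨Nat.div (Nat.mul 3 D2) 5,
    (match m with
      | true => Nat.mul 2 (Nat.sub b.h1 b.l0)
      | false => Nat.mul 2 b.h0),
    Nat.sub (Nat.div (Nat.mul 3 D2) 5) (Nat.mul 2 b.l1), Nat.mul 2 b.h2,
    Nat.sub D2 (Nat.add (Nat.add (Nat.mul 2 b.l1) (Nat.mul 2 b.l3)) (Nat.mul 2 b.l4)),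
    Nat.mul 2 b.h4⟩

/-- the first substitution -/
def cE0 (m : Bool) (c : Cor) : Int :=
  match m with
  | true => Int.sub (Int.ofNat X1) (Int.ofNat (Nat.mul c.r0 X0))
  | false => Int.ofNat (Nat.mul c.r0 X0)

def cE3 (D2 : Nat) (c : Cor) : Int :=
  Int.sub (Int.ofNat D2) (Int.ofNat (Nat.add (Nat.add X1 X4) (Nat.mul c.r3 X3)))

def cE1 (c : Cor) : Int := Int.sub (Int.ofNat c.c1) (Int.ofNat (Nat.mul c.r1 X1))

/-- the packed form in the coordinates of the corner -/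
def cornN (m : Bool) (D2 : Nat) (c : Cor) (P : DP) : Int :=
  conv V4 (offOf V4) cOff (Int.ofNat (Nat.mul c.r4 X4))
  (conv V2 (offOf V2) cOff (Int.ofNat (Nat.mul c.r2 X2))
  (conv V1 Q1 cOff (cE1 c)
  (conv V3 Q3 cOff (cE3 D2 c)
  (conv V0 (offOf V0) cOff (cE0 m c)
    (Int.sub (Int.ofNat P.X) (Int.ofNat (Nat.mul P.K
      (Nat.pow (Nat.add (Nat.add (Nat.add (Nat.add (Nat.add X0 X1) X2) X3) X4) D2) 5))))))))

/-- the values of the parameters in the coordinates of the corner -/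
def cF0 (m : Bool) (c : Cor) : Int :=
  match m with
  | true => Int.sub (cE1 c) (Int.ofNat (Nat.mul c.r0 X0))
  | false => Int.ofNat (Nat.mul c.r0 X0)

def cF3 (D2 : Nat) (c : Cor) : Int :=
  Int.sub (Int.sub (Int.ofNat D2) (cE1 c)) (Int.ofNat (Nat.add (Nat.mul c.r4 X4) (Nat.mul c.r3 X3)))

/-- a packed linear form in the coordinates of the corner -/
def cornL (m : Bool) (D2 : Nat) (c : Cor) (a : V6) : Int :=
  Int.add (Int.add (Int.add (Int.add (Int.add (Int.mul a.a0 (cF0 m c)) (Int.mul a.a1 (cE1 c)))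
    (Int.mul a.a2 (Int.ofNat (Nat.mul c.r2 X2)))) (Int.mul a.a3 (cF3 D2 c)))
    (Int.mul a.a4 (Int.ofNat (Nat.mul c.r4 X4)))) (Int.mul a.a5 (Int.ofNat D2))

/-- bound for the coefficients of all linear forms -/
def cornR (D2 : Nat) (c : Cor) : Nat :=
  Nat.add (Nat.add (Nat.add (Nat.add (Nat.add (Nat.add c.r0 c.r1) c.r2) c.r3) c.r4) c.c1)
    (Nat.add D2 3)

def varD (i : Nat) : VarD :=
  match i with
  | 0 => V0
  | 1 => V1
  | 2 => V2
  | 3 => V3
  | _ => V4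

/-- absorption of the positive coefficients by the linear ones; `W` the negative parts -/
def absorb (W : Nat) : List Nat → Nat → Bool
  | [], P => Nat.beq P 0
  | i :: l, P => and (Nat.ble (Nat.mod (Nat.sub P (Nat.land P (varD i).M0))
        22300745198530623141535718272648361505980415)
      (Nat.mod (Nat.shiftRight W (varD i).S) 22300745198530623141535718272648361505980416))
      (absorb W l (Nat.land P (varD i).M0))

def memN (i : Nat) : List Nat → Bool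
  | [] => false
  | j :: l => or (Nat.beq i j) (memN i l)

def ordOk : List Nat → Bool
  | [] => true
  | i :: l => and (Nat.ble i 4) (and (not (memN i l)) (ordOk l))

def cornTest (ord : List Nat) (Z : Nat) : Bool :=
  absorb (posPart 143 cOff (Nat.sub (Nat.mul 2 cOff) Z)) ord (posPart 143 cOff Z)

def sumAbs (a : V6) : Nat :=
  Nat.add (Nat.add (Nat.add (Nat.add (Nat.add a.a0.natAbs a.a1.natAbs) a.a2.natAbs) a.a3.natAbs)
    a.a4.natAbs) a.a5.natAbs

def cornSize (D2 K : Nat) (c : Cor) (a : V6) : Bool :=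
  Nat.ble (Nat.add (Nat.mul K (Nat.pow (cornR D2 c) 5))
    (Nat.mul (Nat.pow D2 4) (Nat.mul (sumAbs a) (cornR D2 c))))
    11150372599265311570767859136324180752990207

def leafCorner (D2 : Nat) (cs : List V6) (P : DP) (m : Bool) (ord : List Nat)
    (lam : List (Nat × Nat)) (b : Box) : Bool :=
  and (nonneg (Int.sub (cval D2 P.mu b) (Int.ofNat (Nat.succ (rval P.mu b)))))
  (and (Nat.beq (Nat.mul 5 (corOf m D2 b).c1) (Nat.mul 3 D2))
  (and (ordOk ord)
  (and (cornSize D2 P.K (corOf m D2 b) (comb cs (addMul zeroV (-216) P.mu) lam))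
    (cornTest ord (Int.toNat (Int.add (Int.add (cornN m D2 (corOf m D2 b) P)
      (Int.mul (Int.ofNat (Nat.pow D2 4))
        (cornL m D2 (corOf m D2 b) (comb cs (addMul zeroV (-216) P.mu) lam))))
      (Int.ofNat cOff)))))))

def ownPos : List (Nat × Nat) → Bool
  | [] => false
  | (i, k) :: l => or (and (Nat.beq i 0) (Nat.ble 1 k)) (ownPos l)

/-- the region does not meet the box -/
def leafEmpty (strict : Bool) (D2 : Nat) (cs : List V6) (lam : List (Nat × Nat)) (b : Box) : Bool :=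
  or (nonneg (Int.sub (Int.negSucc 0)
      (Int.add (cval D2 (comb cs zeroV lam) b) (Int.ofNat (rval (comb cs zeroV lam) b)))))
    (and strict (and (ownPos lam) (nonneg (Int.neg
      (Int.add (cval D2 (comb cs zeroV lam) b) (Int.ofNat (rval (comb cs zeroV lam) b)))))))

def Box.setHi (b : Box) (v p : Nat) : Box :=
  match v with
  | 0 => ⟨b.l0, p, b.l1, b.h1, b.l2, b.h2, b.l3, b.h3, b.l4, b.h4⟩
  | 1 => ⟨b.l0, b.h0, b.l1, p, b.l2, b.h2, b.l3, b.h3, b.l4, b.h4⟩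
  | 2 => ⟨b.l0, b.h0, b.l1, b.h1, b.l2, p, b.l3, b.h3, b.l4, b.h4⟩
  | 3 => ⟨b.l0, b.h0, b.l1, b.h1, b.l2, b.h2, b.l3, p, b.l4, b.h4⟩
  | 4 => ⟨b.l0, b.h0, b.l1, b.h1, b.l2, b.h2, b.l3, b.h3, b.l4, p⟩
  | _ => b

def Box.setLo (b : Box) (v p : Nat) : Box :=
  match v with
  | 0 => ⟨p, b.h0, b.l1, b.h1, b.l2, b.h2, b.l3, b.h3, b.l4, b.h4⟩
  | 1 => ⟨b.l0, b.h0, p, b.h1, b.l2, b.h2, b.l3, b.h3, b.l4, b.h4⟩
  | 2 => ⟨b.l0, b.h0, b.l1, b.h1, p, b.h2, b.l3, b.h3, b.l4, b.h4⟩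
  | 3 => ⟨b.l0, b.h0, b.l1, b.h1, b.l2, b.h2, p, b.h3, b.l4, b.h4⟩
  | 4 => ⟨b.l0, b.h0, b.l1, b.h1, b.l2, b.h2, b.l3, b.h3, p, b.h4⟩
  | _ => b

def getDP : List DP → Nat → Option DP
  | [], _ => none
  | P :: _, 0 => some P
  | _ :: l, n + 1 => getDP l n

def leafKillO (D2 : Nat) (cs : List V6) (lam : List (Nat × Nat)) (b : Box) : Option DP → Bool
  | none => false
  | some P => leafKill D2 cs P lam b

def leafCornerO (D2 : Nat) (cs : List V6) (m : Bool) (ord : List Nat) (lam : List (Nat × Nat))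
    (b : Box) : Option DP → Bool
  | none => false
  | some P => leafCorner D2 cs P m ord lam b

def chk (strict : Bool) (D2 : Nat) (cs : List V6) (ps : List DP) : Tree → Box → Bool
  | .split v p l r, b => and (chk strict D2 cs ps l (b.setHi v p)) (chk strict D2 cs ps r (b.setLo v p))
  | .empty lam, b => leafEmpty strict D2 cs lam b
  | .kill d lam, b => leafKillO D2 cs lam b (getDP ps d)
  | .corner m ord d lam, b => leafCornerO D2 cs m ord lam b (getDP ps d)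

def dualsOk (prev : List Facet) (F : Facet) : List Dual → Bool
  | [] => true
  | d :: l => and (dualOk prev F d) (dualsOk prev F l)

/-- a step of the chain: all `z` in the region with `w . z > τ` are killed -/
def stepChk (D a0 a1 g0 g1 : Nat) (prev : List Facet) (F : Facet) (ds : List Dual) (t : Tree) :
    Bool :=
  and (and (Nat.ble 1 D) (Nat.ble D 65536)) (and (dualsOk prev F ds)
    (chk true (Nat.mul 2 D) (cons prev F) (ds.map (prep prev F (Nat.mul 2 D))) t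
      ⟨0, a1, a0, a1, 0, g1, g0, g1, 0, Nat.sub D (Nat.add a0 g0)⟩))

/-- the end of the chain -/
def finChk (D a0 a1 g0 g1 : Nat) (prev : List Facet) (ds : List Dual) (t : Tree) : Bool :=
  and (and (Nat.ble 1 D) (Nat.ble D 65536)) (and (dualsOk prev zeroF ds)
    (chk false (Nat.mul 2 D) (cons [] zeroF) (ds.map (prep prev zeroF (Nat.mul 2 D))) t
      ⟨0, 0, a0, a1, 0, 0, g0, g1, 0, 0⟩))

end Pool.Agent.Helper5.B54
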