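/-!
# Basic kernel operations on packed numbers
-/

namespace Pool.Agent.Helper5.B54

/-- masks of one variable and its shift -/
structure VarD where
  S : Nat
  M0 : Nat
  M1 : Nat
  M2 : Nat
  M3 : Nat
  M4 : Nat
  M5 : Nat

/-- one Horner step -/
def hor (S c r N A : Nat) : Nat :=
  Nat.add (Nat.add N (Nat.mul c A)) (Nat.shiftLeft (Nat.mul r A) S)

/-- in-place substitution `v = c w + r v` -/
def diag (V : VarD) (c r X : Nat) : Nat :=
  hor V.S c r (Nat.land X V.M0)
  (hor V.S c r (Nat.shiftRight (Nat.land X V.M1) V.S)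
  (hor V.S c r (Nat.shiftRight (Nat.land X V.M2) (Nat.mul 2 V.S))
  (hor V.S c r (Nat.shiftRight (Nat.land X V.M3) (Nat.mul 3 V.S))
  (hor V.S c r (Nat.shiftRight (Nat.land X V.M4) (Nat.mul 4 V.S))
    (Nat.shiftRight (Nat.land X V.M5) (Nat.mul 5 V.S))))))

/-- packed positive part: the digits of `Z` are `2 ^ a + t`, those of the result are `max t 0` -/
def posPart (a TOP Z : Nat) : Nat :=
  Nat.land Z (Nat.sub (Nat.land Z TOP) (Nat.shiftRight (Nat.land Z TOP) a))

/-- parts of the offset for one variable -/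
structure OffD where
  O0 : Nat
  O1 : Nat
  O2 : Nat
  O3 : Nat
  O4 : Nat
  O5 : Nat

/-- one signed Horner step -/
def horI (l : Int) (P O : Nat) (A : Int) : Int :=
  Int.add (Int.sub (Int.ofNat P) (Int.ofNat O)) (Int.mul l A)

/-- in-place substitution of a signed linear form with packed value `l`, after the offset -/
def convZ (V : VarD) (Q : OffD) (l : Int) (Z : Nat) : Int :=
  horI l (Nat.land Z V.M0) Q.O0
  (horI l (Nat.shiftRight (Nat.land Z V.M1) V.S) Q.O1
  (horI l (Nat.shiftRight (Nat.land Z V.M2) (Nat.mul 2 V.S)) Q.O2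
  (horI l (Nat.shiftRight (Nat.land Z V.M3) (Nat.mul 3 V.S)) Q.O3
  (horI l (Nat.shiftRight (Nat.land Z V.M4) (Nat.mul 4 V.S)) Q.O4
    (Int.sub (Int.ofNat (Nat.shiftRight (Nat.land Z V.M5) (Nat.mul 5 V.S))) (Int.ofNat Q.O5))))))

/-- in-place substitution of a signed linear form with packed value `l` -/
def conv (V : VarD) (Q : OffD) (O : Nat) (l N : Int) : Int :=
  convZ V Q l (Int.toNat (Int.add N (Int.ofNat O)))

end Pool.Agent.Helper5.B54
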