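import Mathlib
import Pool.Agent.Helper5.B54.MasksBasic

/-!
# Packed numbers: digits, masks, positive parts
-/

namespace Pool.Agent.Helper5.B54

open Finset

/-- the number with digit `D q` (base `2 ^ b`) at the position `q ∈ Q` -/
def num (b : ℕ) (Q : Finset ℕ) (D : ℕ → ℕ) : ℕ := ∑ q ∈ Q, D q * 2 ^ (b * q)

theorem num_insert {b q : ℕ} {Q : Finset ℕ} (hq : q ∉ Q) (D : ℕ → ℕ) :
    num b (insert q Q) D = D q * 2 ^ (b * q) + num b Q D := by
  unfold num
  rw [sum_insert hq]

theorem num_lt {b : ℕ} {Q : Finset ℕ} {D : ℕ → ℕ} (hD : ∀ q ∈ Q, D q < 2 ^ b) :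
    ∀ n, (∀ q ∈ Q, q < n) → num b Q D < 2 ^ (b * n) := by
  induction Q using Finset.induction_on_max with
  | empty => intro n _; simp [num]
  | insert q Q hq ih =>
    intro n hn
    have hnq : q ∉ Q := fun h => lt_irrefl _ (hq q h)
    rw [num_insert hnq]
    have h1 := ih (fun x hx => hD x (mem_insert_of_mem hx)) q hq
    have h2 : D q + 1 ≤ 2 ^ b := hD q (mem_insert_self _ _)
    have h3 : q + 1 ≤ n := hn q (mem_insert_self _ _)
    calc D q * 2 ^ (b * q) + num b Q D < D q * 2 ^ (b * q) + 2 ^ (b * q) := by omega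
      _ = (D q + 1) * 2 ^ (b * q) := by ring
      _ ≤ 2 ^ b * 2 ^ (b * q) := Nat.mul_le_mul_right _ h2
      _ = 2 ^ (b * (q + 1)) := by rw [← pow_add]; congr 1; ring
      _ ≤ 2 ^ (b * n) := Nat.pow_le_pow_right (by norm_num) (Nat.mul_le_mul_left _ h3)

theorem testBit_num {b : ℕ} (hb : 0 < b) {Q : Finset ℕ} {D : ℕ → ℕ} (hD : ∀ q ∈ Q, D q < 2 ^ b)
    (i : ℕ) : (num b Q D).testBit i = (decide (i / b ∈ Q) && (D (i / b)).testBit (i % b)) := by
  induction Q using Finset.induction_on_max with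
  | empty => simp [num]
  | insert q Q hq ih =>
    have hnq : q ∉ Q := fun h => lt_irrefl _ (hq q h)
    have hD' : ∀ x ∈ Q, D x < 2 ^ b := fun x hx => hD x (mem_insert_of_mem hx)
    have ih := ih hD'
    rw [num_insert hnq, mul_comm, Nat.testBit_two_pow_mul_add _ (num_lt hD' q hq)]
    by_cases h : i < b * q
    · rw [if_pos h, ih]
      have h1 : i / b < q := by
        rw [Nat.div_lt_iff_lt_mul hb]; rwa [mul_comm]
      have h2 : (i / b ∈ insert q Q) ↔ i / b ∈ Q := by
        rw [mem_insert]; constructor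
        · rintro (h | h)
          · omega
          · exact h
        · exact Or.inr
      simp [h2]
    · rw [if_neg h]
      push Not at h
      have h1 : q ≤ i / b := by rw [Nat.le_div_iff_mul_le hb]; rwa [mul_comm]
      rcases h1.eq_or_lt with h2 | h2
      · have h3 : i % b = i - b * q := by
          have := Nat.div_add_mod i b
          rw [← h2] at this
          omega
        rw [h3, ← h2]
        simp
      · have h3 : i / b ∉ insert q Q := by
          rw [mem_insert]
          rintro (h | h)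
          · omega
          · exact absurd (hq _ h) (by omega)
        have h4 : b ≤ i - b * q := by
          have h5 : (q + 1) * b ≤ i := (Nat.le_div_iff_mul_le hb).mp h2
          have h6 : (q + 1) * b = b * q + b := by ring
          omega
        have h5 : D q < 2 ^ (i - b * q) :=
          lt_of_lt_of_le (hD q (mem_insert_self _ _)) (Nat.pow_le_pow_right (by norm_num) h4)
        rw [Nat.testBit_lt_two_pow h5]
        simp [h3]

theorem and_num {b : ℕ} (hb : 0 < b) {Q Q' : Finset ℕ} {D D' : ℕ → ℕ} (hD : ∀ q ∈ Q, D q < 2 ^ b)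
    (hD' : ∀ q ∈ Q', D' q < 2 ^ b) :
    num b Q D &&& num b Q' D' = num b (Q ∩ Q') (fun q => D q &&& D' q) := by
  apply Nat.eq_of_testBit_eq
  intro i
  rw [Nat.testBit_and, testBit_num hb hD, testBit_num hb hD', testBit_num hb]
  · rw [Nat.testBit_and]
    simp only [mem_inter, Bool.decide_and]
    cases decide (i / b ∈ Q) <;> cases decide (i / b ∈ Q') <;>
      cases (D (i / b)).testBit (i % b) <;> cases (D' (i / b)).testBit (i % b) <;> rfl
  · intro q hq
    exact lt_of_le_of_lt Nat.and_le_left (hD q (mem_inter.mp hq).1)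

theorem num_congr {b : ℕ} {Q : Finset ℕ} {D D' : ℕ → ℕ} (h : ∀ q ∈ Q, D q = D' q) :
    num b Q D = num b Q D' := sum_congr rfl fun q hq => by rw [h q hq]

theorem num_sub {b : ℕ} {Q : Finset ℕ} {D D' : ℕ → ℕ} (h : ∀ q ∈ Q, D' q ≤ D q) :
    num b Q D - num b Q D' = num b Q (fun q => D q - D' q) := by
  have h1 : num b Q D = num b Q (fun q => D q - D' q) + num b Q D' := by
    unfold num
    rw [← sum_add_distrib]
    refine sum_congr rfl fun q hq => ?_
    rw [← add_mul, Nat.sub_add_cancel (h q hq)]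
  omega

theorem num_mod {b : ℕ} (Q : Finset ℕ) (D : ℕ → ℕ) (h : ∑ q ∈ Q, D q < 2 ^ b - 1) :
    num b Q D % (2 ^ b - 1) = ∑ q ∈ Q, D q := by
  have h1 : num b Q D ≡ ∑ q ∈ Q, D q [MOD (2 ^ b - 1)] := by
    unfold num
    have h0 : ∀ q, D q * 2 ^ (b * q) ≡ D q [MOD (2 ^ b - 1)] := by
      intro q
      have h2 : 2 ^ b ≡ 1 [MOD (2 ^ b - 1)] := by
        have h3 : 1 ≤ 2 ^ b := Nat.one_le_two_pow
        exact (Nat.modEq_iff_dvd' h3).mpr (dvd_refl _) |>.symm
      have h3 : 2 ^ (b * q) ≡ 1 [MOD (2 ^ b - 1)] := by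
        rw [pow_mul]
        simpa using h2.pow q
      simpa using h3.mul_left (D q)
    exact Nat.ModEq.sum fun q _ => h0 q
  rw [h1, Nat.mod_eq_of_lt h]

theorem and_two_pow_eq {a z : ℕ} (h : z < 2 ^ (a + 1)) :
    z &&& 2 ^ a = if 2 ^ a ≤ z then 2 ^ a else 0 := by
  rw [Nat.and_two_pow]
  by_cases h1 : 2 ^ a ≤ z
  · have : z.testBit a = true := by
      rw [Nat.testBit_eq_decide_div_mod_eq]
      have h2 : z / 2 ^ a = 1 := by
        apply Nat.div_eq_of_lt_le
        · simpa using h1
        · rw [pow_succ] at h; omega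
      simp [h2]
    simp [this, h1]
  · have : z.testBit a = false := Nat.testBit_lt_two_pow (by omega)
    simp [this, h1]

theorem posPart_num {a : ℕ} {Q : Finset ℕ} {z : ℕ → ℕ} (hz : ∀ q ∈ Q, z q < 2 ^ (a + 1)) :
    posPart a (num (a + 1) Q (fun _ => 2 ^ a)) (num (a + 1) Q z) =
      num (a + 1) Q (fun q => z q - 2 ^ a) := by
  have hb : 0 < a + 1 := by omega
  have ha : (2 : ℕ) ^ a < 2 ^ (a + 1) := by rw [pow_succ]; have := Nat.one_le_two_pow (n := a); omega
  have e1 : Nat.land (num (a + 1) Q z) (num (a + 1) Q (fun _ => 2 ^ a)) =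
      num (a + 1) Q (fun q => if 2 ^ a ≤ z q then 2 ^ a else 0) := by
    change (num (a + 1) Q z) &&& (num (a + 1) Q (fun _ => 2 ^ a)) = _
    rw [and_num hb hz (fun _ _ => ha), inter_self]
    exact num_congr fun q hq => and_two_pow_eq (hz q hq)
  have e2 : Nat.shiftRight (num (a + 1) Q (fun q => if 2 ^ a ≤ z q then 2 ^ a else 0)) a =
      num (a + 1) Q (fun q => if 2 ^ a ≤ z q then 1 else 0) := by
    change (num (a + 1) Q (fun q => if 2 ^ a ≤ z q then 2 ^ a else 0)) >>> a = _
    rw [Nat.shiftRight_eq_div_pow]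
    apply Nat.div_eq_of_eq_mul_left (by positivity)
    unfold num
    rw [sum_mul]
    refine sum_congr rfl fun q _ => ?_
    beta_reduce
    split_ifs <;> ring
  unfold posPart
  rw [e1, e2]
  have e3 : Nat.sub (num (a + 1) Q (fun q => if 2 ^ a ≤ z q then 2 ^ a else 0))
      (num (a + 1) Q (fun q => if 2 ^ a ≤ z q then 1 else 0)) =
      num (a + 1) Q (fun q => if 2 ^ a ≤ z q then 2 ^ a - 1 else 0) := by
    change (num (a + 1) Q (fun q => if 2 ^ a ≤ z q then 2 ^ a else 0)) -
      (num (a + 1) Q (fun q => if 2 ^ a ≤ z q then 1 else 0)) = _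
    rw [num_sub]
    · exact num_congr fun q _ => by split_ifs <;> simp
    · intro q _
      split_ifs
      · exact Nat.one_le_two_pow
      · exact le_refl _
  rw [e3]
  change (num (a + 1) Q z) &&& (num (a + 1) Q (fun q => if 2 ^ a ≤ z q then 2 ^ a - 1 else 0)) = _
  rw [and_num hb hz, inter_self]
  · refine num_congr fun q hq => ?_
    have h1 := hz q hq
    split_ifs with h
    · rw [Nat.and_two_pow_sub_one_eq_mod]
      have h2 : z q = (z q - 2 ^ a) + 2 ^ a := by omega
      rw [h2, Nat.add_mod_right, Nat.mod_eq_of_lt]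
      · omega
      · rw [pow_succ] at h1; omega
    · rw [Nat.and_zero]
      omega
  · intro q _
    split_ifs
    · omega
    · positivity

end Pool.Agent.Helper5.B54
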