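import Pool.Agent.Helper65.B54.Main

/-!
# `Kill` from forms
-/

namespace Pool.Agent.Helper5.B54

open Finset MvPolynomial Pool.Agent.Helper65.B54

section
variable {K : Type} [Fintype K] [DecidableEq K]

/-- the type of a tuple -/
noncomputable def ty {n : ℕ} (κ : Fin n → K) : K →₀ ℕ := ∑ i, Finsupp.single (κ i) 1

/-- number of tuples of a type -/
noncomputable def cnt (n : ℕ) (m : K →₀ ℕ) : ℕ :=
  (univ.filter (fun κ : Fin n → K => ty κ = m)).card

theorem ty_apply {n : ℕ} (κ : Fin n → K) (k : K) :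
    ty κ k = (univ.filter (fun i => κ i = k)).card := by
  unfold ty
  rw [Finsupp.finsetSum_apply, card_filter]
  refine sum_congr rfl fun i _ => ?_
  rw [Finsupp.single_apply]

theorem ty_insertNth {n : ℕ} (i : Fin (n + 1)) (a : K) (κ : Fin n → K) :
    ty (i.insertNth a κ : Fin (n + 1) → K) = ty κ + Finsupp.single a 1 := by
  unfold ty
  rw [Fin.sum_univ_succAbove _ i]
  simp [add_comm]

theorem ty_removeNth {n : ℕ} (i : Fin (n + 1)) (κ : Fin (n + 1) → K) :
    ty κ = ty (i.removeNth κ) + Finsupp.single (κ i) 1 := by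
  rw [← ty_insertNth i, Fin.insertNth_self_removeNth]

theorem sum_ty {n : ℕ} (κ : Fin n → K) : ∑ k, ty κ k = n := by
  simp only [ty_apply]
  rw [← card_eq_sum_card_fiberwise (f := κ) (s := univ) (t := univ) (fun _ _ => mem_coe.mpr (mem_univ _))]
  simp

theorem prod_ty {n : ℕ} {A : Type} [CommSemiring A] (s : K → A) (κ : Fin n → K) :
    ∏ i, s (κ i) = ∏ k, s k ^ ty κ k := by
  rw [← prod_fiberwise_of_maps_to (s := univ) (t := univ) (g := κ) (fun _ _ => mem_univ _)]
  refine prod_congr rfl fun k _ => ?_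
  rw [ty_apply]
  rw [prod_congr rfl (g := fun _ => s k) fun i hi => by rw [(mem_filter.mp hi).2]]
  rw [prod_const]

theorem exists_ty : ∀ (n : ℕ) (m : K →₀ ℕ), ∑ k, m k = n → ∃ κ : Fin n → K, ty κ = m
  | 0, m, h => by
    refine ⟨Fin.elim0, ?_⟩
    ext k
    have h1 : m k = 0 := by
      have := Finset.sum_eq_zero_iff.mp h k (mem_univ k)
      exact this
    rw [h1, ty_apply]
    simp
  | n + 1, m, h => by
    have h1 : ∃ k, m k ≠ 0 := by
      by_contra hcon
      push Not at hcon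
      simp [hcon] at h
    obtain ⟨k, hk⟩ := h1
    have h2 : m = (m - Finsupp.single k 1) + Finsupp.single k 1 := by
      rw [tsub_add_cancel_of_le]
      rw [Finsupp.single_le_iff]
      omega
    have h3 : ∑ j, (m - Finsupp.single k 1 : K →₀ ℕ) j = n := by
      have h4 : ∑ j, m j = ∑ j, ((m - Finsupp.single k 1 : K →₀ ℕ) j + (Finsupp.single k 1 : K →₀ ℕ) j) := by
        refine sum_congr rfl fun j _ => ?_
        conv_lhs => rw [h2]
        rfl
      rw [sum_add_distrib] at h4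
      have h5 : ∑ j, (Finsupp.single k 1 : K →₀ ℕ) j = 1 := by
        rw [sum_eq_single k]
        · simp
        · intro j _ hj
          simp [hj.symm]
        · simp
      omega
    obtain ⟨κ, hκ⟩ := exists_ty n _ h3
    refine ⟨(0 : Fin (n + 1)).insertNth k κ, ?_⟩
    rw [ty_insertNth, hκ, ← h2]

theorem cnt_pos {n : ℕ} {m : K →₀ ℕ} (h : ∑ k, m k = n) : 0 < cnt n m := by
  obtain ⟨κ, hκ⟩ := exists_ty n m h
  exact card_pos.mpr ⟨κ, by simp [hκ]⟩

/-- double counting -/
theorem cnt_mul {n : ℕ} (m : K →₀ ℕ) (k : K) :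
    cnt (n + 1) (m + Finsupp.single k 1) * (m k + 1) = (n + 1) * cnt n m := by
  have h1 : cnt (n + 1) (m + Finsupp.single k 1) * (m k + 1) =
      ∑ κ ∈ univ.filter (fun κ : Fin (n + 1) → K => ty κ = m + Finsupp.single k 1),
        ∑ i, if κ i = k then 1 else 0 := by
    unfold cnt
    rw [card_eq_sum_ones, sum_mul]
    refine sum_congr rfl fun κ hκ => ?_
    rw [one_mul, ← card_filter, ← ty_apply, (mem_filter.mp hκ).2]
    simp
  rw [h1, sum_comm]
  have h2 : ∀ i : Fin (n + 1), ∑ κ ∈ univ.filter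
      (fun κ : Fin (n + 1) → K => ty κ = m + Finsupp.single k 1), (if κ i = k then 1 else 0) =
      cnt n m := by
    intro i
    rw [sum_filter, ← (Fin.insertNthEquiv (fun _ => K) i).sum_comp, Fintype.sum_prod_type]
    have h3 : ∀ a : K, ∀ κ : Fin n → K,
        (if ty ((Fin.insertNthEquiv (fun _ => K) i) (a, κ)) = m + Finsupp.single k 1 then
          (if ((Fin.insertNthEquiv (fun _ => K) i) (a, κ)) i = k then 1 else 0) else 0) =
        if a = k then (if ty κ = m then 1 else 0) else 0 := by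
      intro a κ
      have e1 : (Fin.insertNthEquiv (fun _ => K) i) (a, κ) = (i.insertNth a κ : Fin (n + 1) → K) := rfl
      rw [e1, ty_insertNth, Fin.insertNth_apply_same]
      by_cases ha : a = k
      · subst ha
        simp
      · simp [ha]
    simp only [h3]
    rw [sum_eq_single k]
    · simp only [if_true]
      unfold cnt
      rw [card_filter]
    · intro a _ ha
      simp [ha]
    · simp
  simp only [h2]
  simp

theorem sum_pow_X (R : Type) [CommSemiring R] (n : ℕ) :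
    (∑ k : K, (X k : MvPolynomial K R)) ^ n = ∑ κ : Fin n → K, monomial (ty κ) 1 := by
  have h1 : (∑ k : K, (X k : MvPolynomial K R)) ^ n = ∏ _i : Fin n, ∑ k : K, (X k : MvPolynomial K R) := by
    simp
  rw [h1, Finset.prod_univ_sum]
  simp only [Fintype.piFinset_univ]
  refine sum_congr rfl fun κ _ => ?_
  unfold ty
  rw [monomial_sum_one]
  rfl

theorem coeff_sum_pow (R : Type) [CommSemiring R] (n : ℕ) (m : K →₀ ℕ) :
    coeff m ((∑ k : K, (X k : MvPolynomial K R)) ^ n) = cnt n m := by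
  rw [sum_pow_X, coeff_sum]
  simp only [coeff_monomial]
  rw [← sum_filter, cnt, card_eq_sum_ones]
  push_cast
  rfl

/-- sums over tuples with a function of the type -/
theorem sum_tuples_form {n : ℕ} (Y : MvPolynomial K ℕ) (hY : ∀ m, coeff m Y ≠ 0 → ∑ k, m k = n)
    (s : K → ℝ) :
    ∑ κ : Fin n → K, ((coeff (ty κ) Y : ℕ) : ℝ) / (cnt n (ty κ) : ℝ) * ∏ i, s (κ i) =
      aeval s Y := by
  rw [← sum_fiberwise_of_maps_to (s := univ) (t := univ.image (ty : (Fin n → K) → (K →₀ ℕ)))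
    (g := ty) (fun κ _ => mem_image_of_mem _ (mem_univ κ))]
  have h1 : ∀ m ∈ univ.image (ty : (Fin n → K) → (K →₀ ℕ)),
      ∑ κ ∈ univ.filter (fun κ : Fin n → K => ty κ = m),
        ((coeff (ty κ) Y : ℕ) : ℝ) / (cnt n (ty κ) : ℝ) * ∏ i, s (κ i) =
      ((coeff m Y : ℕ) : ℝ) * ∏ k, s k ^ m k := by
    intro m hm
    have hc : (cnt n m : ℝ) ≠ 0 := by
      rw [mem_image] at hm
      obtain ⟨κ, _, rfl⟩ := hm
      have := cnt_pos (sum_ty κ)
      positivity
    rw [sum_congr rfl (g := fun _ => ((coeff m Y : ℕ) : ℝ) / (cnt n m : ℝ) * ∏ k, s k ^ m k)]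
    · rw [sum_const, nsmul_eq_mul]
      change (cnt n m : ℝ) * _ = _
      field_simp
    · intro κ hκ
      have := (mem_filter.mp hκ).2
      rw [prod_ty, this]
  rw [sum_congr rfl h1]
  rw [aeval_def, eval₂_eq']
  symm
  apply sum_subset_zero_on_sdiff
  · intro m hm
    obtain ⟨κ, hκ⟩ := exists_ty n m (hY m (mem_support_iff.mp hm))
    exact mem_image.mpr ⟨κ, mem_univ _, hκ⟩
  · intro m hm
    have := notMem_support_iff.mp (mem_sdiff.mp hm).2
    rw [this]; simp
  · intro m _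
    rfl

theorem coeff_mul_lin {R : Type} [CommSemiring R] (p : MvPolynomial K R) (a : K → R) (m : K →₀ ℕ) :
    coeff m (p * ∑ k, C (a k) * X k) =
      ∑ k, a k * (if m k = 0 then 0 else coeff (m - Finsupp.single k 1) p) := by
  rw [mul_sum, coeff_sum]
  refine sum_congr rfl fun k _ => ?_
  rw [← mul_assoc, coeff_mul_X', mul_comm p, coeff_C_mul]
  simp only [Finsupp.mem_support_iff]
  by_cases h : m k = 0
  · simp [h]
  · simp [h]

/-- `Kill` from quartic forms `Y c` and a quintic form `U` -/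
theorem kill_of_forms (par : K → Fin 3) (bdd : List (K → Bool)) (s : K → ℝ)
    (R : Set (Fin 3 → ℝ)) (M : ℝ) {n : ℕ} (W : Fin n → K → ℕ) (H : Fin n → ℝ) (μ : K → ℤ)
    (Y : Fin n → MvPolynomial K ℕ) (U : MvPolynomial K ℕ)
    (hY : ∀ c m, coeff m (Y c) ≠ 0 → ∑ k, m k = 4) (hU : ∀ m, coeff m U ≠ 0 → ∑ k, m k = 5)
    (hcut : ∀ c (q : K → ℝ), (∀ k, 0 ≤ q k) → (∀ k, q k ≤ s k) → agg par q ∈ R →
      ∑ k, (W c k : ℝ) * q k ≤ H c)
    (hcoef : ∀ m : K →₀ ℕ, ∑ k, m k = 5 →
      (∀ S ∈ bdd, ∑ k ∈ univ.filter (fun k => S k = true), m k ≤ 3) →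
      coeff m ((∑ k : K, (X k : MvPolynomial K ℤ)) ^ 4 * ∑ k, C (μ k) * X k) ≤
        ∑ c, ((coeff m (Y c * ∑ k, C (W c k) * X k) : ℕ) : ℤ) + ((coeff m U : ℕ) : ℤ))
    (ν : ℝ) (hν : 0 < ν) (hμ : ν ≤ ∑ k, (μ k : ℝ) * s k) (hM : ∀ k, |(μ k : ℝ)| ≤ M * ν)
    (hval : 625 * (∑ c, aeval s (Y c) * H c + aeval s U) ≤ 216 * ∑ k, (μ k : ℝ) * s k) :
    Kill M par bdd s R := by
  set θ : ℝ := ∑ k, (μ k : ℝ) * s k with hθ
  have hθ0 : 0 < θ := lt_of_lt_of_le hν hμ
  refine ⟨n, fun c k => (W c k : ℝ), H, fun k => μ k / θ,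
    fun κ c => ((coeff (ty κ) (Y c) : ℕ) : ℝ) / (cnt 4 (ty κ) : ℝ) / θ,
    fun κ => 5 * (((coeff (ty κ) U : ℕ) : ℝ) / (cnt 5 (ty κ) : ℝ)) / θ,
    fun c k => Nat.cast_nonneg _, hcut, ?_, ?_, ?_, ?_, ?_, ?_⟩
  · intro k
    rw [abs_div, abs_of_pos hθ0, div_le_iff₀ hθ0]
    refine (hM k).trans ?_
    have hM0 : 0 ≤ M := by
      by_contra hcon
      push Not at hcon
      have := (abs_nonneg _).trans (hM k)
      nlinarith
    exact mul_le_mul_of_nonneg_left hμ hM0
  · intro κ c
    positivity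
  · intro κ
    positivity
  · intro κ hall
    have hsum : ∑ k, ty κ k = 5 := sum_ty κ
    have hS : ∀ S ∈ bdd, ∑ k ∈ univ.filter (fun k => S k = true), ty κ k ≤ 3 := by
      intro S hS
      refine le_trans (le_of_eq ?_) (hall S hS)
      rw [card_eq_sum_card_fiberwise (f := κ) (t := univ.filter (fun k => S k = true))]
      · refine sum_congr rfl fun k hk => ?_
        rw [ty_apply]
        congr 1
        ext i
        simp only [mem_filter, mem_univ, true_and] at hk ⊢
        constructor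
        · intro h; exact ⟨by rw [h]; exact hk, h⟩
        · intro h; exact h.2
      · intro i hi
        rw [mem_coe, mem_filter] at *
        exact ⟨mem_univ _, hi.2⟩
    have hco := hcoef (ty κ) hsum hS
    set m := ty κ with hm
    have hc5 : (0 : ℝ) < cnt 5 m := by exact_mod_cast cnt_pos hsum
    -- the relation between the counts
    have hrel : ∀ k, m k ≠ 0 → (cnt 5 m : ℝ) * m k = 5 * cnt 4 (m - Finsupp.single k 1) := by
      intro k hk
      have h2 : m = (m - Finsupp.single k 1) + Finsupp.single k 1 := by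
        rw [tsub_add_cancel_of_le]
        rw [Finsupp.single_le_iff]
        omega
      have h3 := cnt_mul (n := 4) (m - Finsupp.single k 1) k
      rw [← h2] at h3
      have h4 : (m - Finsupp.single k 1 : K →₀ ℕ) k + 1 = m k := by
        simp; omega
      rw [h4] at h3
      exact_mod_cast h3
    -- sums over the five positions as sums over the cells
    have hpos : ∀ (F : K → ℝ), ∑ i, F (κ i) = ∑ k, (m k : ℝ) * F k := by
      intro F
      rw [← sum_fiberwise_of_maps_to (s := univ) (t := univ) (g := κ) (fun _ _ => mem_univ _)]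
      refine sum_congr rfl fun k _ => ?_
      rw [hm, ty_apply]
      rw [sum_congr rfl (g := fun _ => F k) fun i hi => by rw [(mem_filter.mp hi).2]]
      rw [sum_const, nsmul_eq_mul]
    have hL : (5 / (cnt 5 m : ℝ)) *
        ((coeff m ((∑ k : K, (X k : MvPolynomial K ℤ)) ^ 4 * ∑ k, C (μ k) * X k) : ℤ) : ℝ) =
        ∑ i, (μ (κ i) : ℝ) := by
      rw [hpos (fun k => (μ k : ℝ)), coeff_mul_lin]
      push_cast
      rw [mul_sum]
      refine sum_congr rfl fun k _ => ?_
      by_cases hk : m k = 0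
      · simp [hk]
      · rw [if_neg hk, coeff_sum_pow]
        push_cast
        have := hrel k hk
        field_simp
        linear_combination (-(μ k : ℝ)) * this
    have hR : ∀ c, (5 / (cnt 5 m : ℝ)) *
        ((coeff m (Y c * ∑ k, C (W c k) * X k) : ℕ) : ℝ) =
        ∑ i : Fin 5, ((coeff (ty (i.removeNth κ)) (Y c) : ℕ) : ℝ) / (cnt 4 (ty (i.removeNth κ)) : ℝ) *
          (W c (κ i) : ℝ) := by
      intro c
      have h1 : ∀ i : Fin 5, ((coeff (ty (i.removeNth κ)) (Y c) : ℕ) : ℝ) /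
          (cnt 4 (ty (i.removeNth κ)) : ℝ) * (W c (κ i) : ℝ) =
          (fun k => ((coeff (m - Finsupp.single k 1) (Y c) : ℕ) : ℝ) /
            (cnt 4 (m - Finsupp.single k 1) : ℝ) * (W c k : ℝ)) (κ i) := by
        intro i
        have h2 : ty (i.removeNth κ) = m - Finsupp.single (κ i) 1 := by
          rw [hm, ty_removeNth i κ, add_tsub_cancel_right]
        rw [h2]
      rw [sum_congr rfl fun i _ => h1 i, hpos (fun k => ((coeff (m - Finsupp.single k 1) (Y c) : ℕ) : ℝ) /
            (cnt 4 (m - Finsupp.single k 1) : ℝ) * (W c k : ℝ)), coeff_mul_lin]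
      push_cast
      rw [mul_sum]
      refine sum_congr rfl fun k _ => ?_
      by_cases hk : m k = 0
      · simp [hk]
      · rw [if_neg hk]
        have h3 := hrel k hk
        have h4 : (cnt 4 (m - Finsupp.single k 1) : ℝ) ≠ 0 := by
          intro h0
          rw [h0, mul_zero] at h3
          have : (m k : ℝ) ≠ 0 := by exact_mod_cast hk
          rcases mul_eq_zero.mp h3 with h5 | h5
          · exact hc5.ne' h5
          · exact this h5
        have h5 : (m k : ℝ) = 5 * cnt 4 (m - Finsupp.single k 1) / cnt 5 m := by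
          field_simp; linarith
        rw [h5]
        field_simp
    have hco' : ((coeff m ((∑ k : K, (X k : MvPolynomial K ℤ)) ^ 4 * ∑ k, C (μ k) * X k) : ℤ) : ℝ) ≤
        ∑ c, ((coeff m (Y c * ∑ k, C (W c k) * X k) : ℕ) : ℝ) + ((coeff m U : ℕ) : ℝ) := by
      exact_mod_cast hco
    have hmul := mul_le_mul_of_nonneg_left hco' (show 0 ≤ (5 / (cnt 5 m : ℝ)) by positivity)
    rw [hL, mul_add, mul_sum, sum_congr rfl fun c _ => hR c] at hmul
    have e1 : ∑ i, (μ (κ i) : ℝ) / θ = (∑ i, (μ (κ i) : ℝ)) / θ := by rw [sum_div]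
    have e2 : ∑ i : Fin 5, ∑ c, ((coeff (ty (i.removeNth κ)) (Y c) : ℕ) : ℝ) /
        (cnt 4 (ty (i.removeNth κ)) : ℝ) / θ * (W c (κ i) : ℝ) =
        (∑ c, ∑ i : Fin 5, ((coeff (ty (i.removeNth κ)) (Y c) : ℕ) : ℝ) /
        (cnt 4 (ty (i.removeNth κ)) : ℝ) * (W c (κ i) : ℝ)) / θ := by
      rw [sum_comm, sum_div]
      refine sum_congr rfl fun c _ => ?_
      rw [sum_div]
      refine sum_congr rfl fun i _ => ?_
      ring
    rw [e1, e2, ← add_div]
    refine div_le_div_of_nonneg_right ?_ hθ0.le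
    refine hmul.trans (le_of_eq ?_)
    rw [← hm]
    ring
  · have : ∑ k, (μ k : ℝ) / θ * s k = 1 := by
      rw [sum_congr rfl (g := fun k => ((μ k : ℝ) * s k) / θ) fun k _ => by ring, ← sum_div, ← hθ]
      exact div_self hθ0.ne'
    rw [this]
  · have e0 : ∑ k, (μ k : ℝ) / θ * s k = 1 := by
      rw [sum_congr rfl (g := fun k => ((μ k : ℝ) * s k) / θ) fun k _ => by ring, ← sum_div, ← hθ]
      exact div_self hθ0.ne'
    have e1 : ∑ κ : Fin 4 → K, (∑ c, ((coeff (ty κ) (Y c) : ℕ) : ℝ) / (cnt 4 (ty κ) : ℝ) / θ * H c) *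
        ∏ i, s (κ i) = (∑ c, aeval s (Y c) * H c) / θ := by
      have h1 : ∀ c, aeval s (Y c) = ∑ κ : Fin 4 → K, ((coeff (ty κ) (Y c) : ℕ) : ℝ) /
          (cnt 4 (ty κ) : ℝ) * ∏ i, s (κ i) := fun c => (sum_tuples_form (Y c) (hY c) s).symm
      simp only [h1, sum_mul]
      rw [sum_comm, sum_div]
      refine sum_congr rfl fun c _ => ?_
      rw [sum_div]
      refine sum_congr rfl fun κ _ => ?_
      ring
    have e2 : ∑ κ : Fin 5 → K, 5 * (((coeff (ty κ) U : ℕ) : ℝ) / (cnt 5 (ty κ) : ℝ)) / θ *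
        ∏ i, s (κ i) = 5 * aeval s U / θ := by
      rw [← sum_tuples_form U hU s, mul_sum, sum_div]
      refine sum_congr rfl fun κ _ => ?_
      ring
    rw [e0, e1, e2]
    have h3 : 5 * ((∑ c, aeval s (Y c) * H c) / θ) + 5 * aeval s U / θ =
        5 * (∑ c, aeval s (Y c) * H c + aeval s U) / θ := by ring
    rw [h3, div_le_iff₀ hθ0]
    linarith

end

end Pool.Agent.Helper5.B54
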