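import Pool.Agent.Helper5.B54.Ops
import Pool.Agent.Helper5.B54.Data

/-!
# The literals are the masks
-/

namespace Pool.Agent.Helper5.B54

open Finset MvPolynomial

theorem isMask_of (i : Fin 6) (j M : ℕ)
    (h : maskL 5 (fun l => l.getD i 0 == j) (2 ^ bb - 1) = M) : IsMask i j M := by
  unfold IsMask Iv
  rw [← h, maskL_eq (Or.inr rfl)]
  congr 1
  apply filter_congr
  intro m _
  rw [beq_iff_eq]
  fin_cases i <;> simp [toL]

theorem isOffP_of (i : Fin 6) (j O : ℕ)
    (h : maskL 5 (fun l => l.getD i 0 == j) (2 ^ aa) = O * 2 ^ (bb * (fs i * j))) :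
    IsOffP i j O := by
  unfold IsOffP Iv
  rw [← h, maskL_eq (Or.inr rfl)]
  congr 1
  apply filter_congr
  intro m _
  rw [beq_iff_eq]
  fin_cases i <;> simp [toL]

theorem V0_ok : V0.Ok 0 where
  hS := by decide
  h0 := isMask_of _ _ _ (by decide +kernel)
  h1 := isMask_of _ _ _ (by decide +kernel)
  h2 := isMask_of _ _ _ (by decide +kernel)
  h3 := isMask_of _ _ _ (by decide +kernel)
  h4 := isMask_of _ _ _ (by decide +kernel)
  h5 := isMask_of _ _ _ (by decide +kernel)

theorem V1_ok : V1.Ok 1 where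
  hS := by decide
  h0 := isMask_of _ _ _ (by decide +kernel)
  h1 := isMask_of _ _ _ (by decide +kernel)
  h2 := isMask_of _ _ _ (by decide +kernel)
  h3 := isMask_of _ _ _ (by decide +kernel)
  h4 := isMask_of _ _ _ (by decide +kernel)
  h5 := isMask_of _ _ _ (by decide +kernel)

theorem V2_ok : V2.Ok 2 where
  hS := by decide
  h0 := isMask_of _ _ _ (by decide +kernel)
  h1 := isMask_of _ _ _ (by decide +kernel)
  h2 := isMask_of _ _ _ (by decide +kernel)
  h3 := isMask_of _ _ _ (by decide +kernel)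
  h4 := isMask_of _ _ _ (by decide +kernel)
  h5 := isMask_of _ _ _ (by decide +kernel)

theorem V3_ok : V3.Ok 3 where
  hS := by decide
  h0 := isMask_of _ _ _ (by decide +kernel)
  h1 := isMask_of _ _ _ (by decide +kernel)
  h2 := isMask_of _ _ _ (by decide +kernel)
  h3 := isMask_of _ _ _ (by decide +kernel)
  h4 := isMask_of _ _ _ (by decide +kernel)
  h5 := isMask_of _ _ _ (by decide +kernel)

theorem V4_ok : V4.Ok 4 where
  hS := by decide
  h0 := isMask_of _ _ _ (by decide +kernel)
  h1 := isMask_of _ _ _ (by decide +kernel)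
  h2 := isMask_of _ _ _ (by decide +kernel)
  h3 := isMask_of _ _ _ (by decide +kernel)
  h4 := isMask_of _ _ _ (by decide +kernel)
  h5 := isMask_of _ _ _ (by decide +kernel)

theorem V5_ok : V5.Ok 5 where
  hS := by decide
  h0 := isMask_of _ _ _ (by decide +kernel)
  h1 := isMask_of _ _ _ (by decide +kernel)
  h2 := isMask_of _ _ _ (by decide +kernel)
  h3 := isMask_of _ _ _ (by decide +kernel)
  h4 := isMask_of _ _ _ (by decide +kernel)
  h5 := isMask_of _ _ _ (by decide +kernel)

theorem Q1_ok : Q1.Ok 1 where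
  h0 := isOffP_of _ _ _ (by decide +kernel)
  h1 := isOffP_of _ _ _ (by decide +kernel)
  h2 := isOffP_of _ _ _ (by decide +kernel)
  h3 := isOffP_of _ _ _ (by decide +kernel)
  h4 := isOffP_of _ _ _ (by decide +kernel)
  h5 := isOffP_of _ _ _ (by decide +kernel)

theorem Q3_ok : Q3.Ok 3 where
  h0 := isOffP_of _ _ _ (by decide +kernel)
  h1 := isOffP_of _ _ _ (by decide +kernel)
  h2 := isOffP_of _ _ _ (by decide +kernel)
  h3 := isOffP_of _ _ _ (by decide +kernel)
  h4 := isOffP_of _ _ _ (by decide +kernel)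
  h5 := isOffP_of _ _ _ (by decide +kernel)

theorem Q5_ok : Q5.Ok 5 where
  h0 := isOffP_of _ _ _ (by decide +kernel)
  h1 := isOffP_of _ _ _ (by decide +kernel)
  h2 := isOffP_of _ _ _ (by decide +kernel)
  h3 := isOffP_of _ _ _ (by decide +kernel)
  h4 := isOffP_of _ _ _ (by decide +kernel)
  h5 := isOffP_of _ _ _ (by decide +kernel)

theorem off_ok : IsOff cOff := by
  have h : maskL 5 (fun _ => true) (2 ^ aa) = cOff := by decide +kernel
  unfold IsOff
  rw [← h, maskL_eq (Or.inr rfl)]
  simp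

end Pool.Agent.Helper5.B54
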