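import Pool.Agent.Helper5.B54.Ops

/-!
# Bounds for coefficients and the final test
-/

namespace Pool.Agent.Helper5.B54

open Finset MvPolynomial

/-- coefficientwise bound by a nonnegative form with value at most `S` at one -/
def Bd (p : MvPolynomial (Fin 6) ℤ) (S : ℕ) : Prop :=
  ∃ g : MvPolynomial (Fin 6) ℕ, (∀ m, |coeff m p| ≤ ((coeff m g : ℕ) : ℤ)) ∧ eval (fun _ => 1) g ≤ S

theorem eval_one_eq (g : MvPolynomial (Fin 6) ℕ) :
    eval (fun _ => 1) g = ∑ m ∈ g.support, coeff m g := by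
  rw [eval_eq_sum g (subset_refl _)]
  exact sum_congr rfl fun m _ => by simp [mon]

theorem sum_coeff_le (g : MvPolynomial (Fin 6) ℕ) (J : Finset E) :
    ∑ m ∈ J, coeff m g ≤ eval (fun _ => 1) g := by
  rw [eval_one_eq]
  calc ∑ m ∈ J, coeff m g ≤ ∑ m ∈ J ∪ g.support, coeff m g :=
        sum_le_sum_of_subset subset_union_left
    _ = ∑ m ∈ g.support, coeff m g := by
      symm
      apply sum_subset subset_union_right
      intro m _ hm
      exact notMem_support_iff.mp hm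

variable {p q : MvPolynomial (Fin 6) ℤ} {S T : ℕ}

theorem Bd.sum_le (h : Bd p S) (J : Finset E) : ∑ m ∈ J, |coeff m p| ≤ S := by
  obtain ⟨g, hg, hS⟩ := h
  calc ∑ m ∈ J, |coeff m p| ≤ ∑ m ∈ J, ((coeff m g : ℕ) : ℤ) := sum_le_sum fun m _ => hg m
    _ = ((∑ m ∈ J, coeff m g : ℕ) : ℤ) := by push_cast; rfl
    _ ≤ S := by exact_mod_cast (sum_coeff_le g J).trans hS

theorem Bd.coeff_le (h : Bd p S) (m : E) : |coeff m p| ≤ S := by
  simpa using h.sum_le {m}

theorem Bd.mono (h : Bd p S) (hST : S ≤ T) : Bd p T := by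
  obtain ⟨g, hg, hS⟩ := h
  exact ⟨g, hg, hS.trans hST⟩

theorem Bd.add (hp : Bd p S) (hq : Bd q T) : Bd (p + q) (S + T) := by
  obtain ⟨g, hg, hS⟩ := hp
  obtain ⟨g', hg', hT⟩ := hq
  refine ⟨g + g', fun m => ?_, by rw [map_add]; omega⟩
  rw [coeff_add, coeff_add]
  push_cast
  exact (abs_add_le _ _).trans (add_le_add (hg m) (hg' m))

theorem Bd.neg (hp : Bd p S) : Bd (-p) S := by
  obtain ⟨g, hg, hS⟩ := hp
  exact ⟨g, fun m => by rw [coeff_neg, abs_neg]; exact hg m, hS⟩

theorem Bd.sub (hp : Bd p S) (hq : Bd q T) : Bd (p - q) (S + T) := by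
  rw [sub_eq_add_neg]; exact hp.add hq.neg

theorem Bd.mul (hp : Bd p S) (hq : Bd q T) : Bd (p * q) (S * T) := by
  obtain ⟨g, hg, hS⟩ := hp
  obtain ⟨g', hg', hT⟩ := hq
  refine ⟨g * g', fun m => ?_, by rw [map_mul]; exact Nat.mul_le_mul hS hT⟩
  rw [coeff_mul, coeff_mul]
  push_cast
  refine (abs_sum_le_sum_abs _ _).trans (sum_le_sum fun x _ => ?_)
  rw [abs_mul]
  exact mul_le_mul (hg _) (hg' _) (abs_nonneg _) ((abs_nonneg _).trans (hg _))

theorem Bd.C (c : ℤ) (h : |c| ≤ S) : Bd (C c) S := by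
  refine ⟨MvPolynomial.C c.natAbs, fun m => ?_, ?_⟩
  · classical
    rw [coeff_C, coeff_C]
    split_ifs <;> simp
  · rw [eval_C]
    zify
    exact h

theorem Bd.X (i : Fin 6) : Bd (X i) 1 := by
  refine ⟨MvPolynomial.X i, fun m => ?_, ?_⟩
  · classical
    rw [MvPolynomial.coeff_X, MvPolynomial.coeff_X]
    split_ifs <;> simp
  · rw [eval_X]

theorem Bd.one : Bd 1 1 := by
  have := Bd.C (S := 1) 1 (by norm_num)
  simpa using this

theorem Bd.pow (hp : Bd p S) (n : ℕ) : Bd (p ^ n) (S ^ n) := by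
  induction n with
  | zero => simpa using Bd.one
  | succ n ih => rw [pow_succ, pow_succ]; exact ih.mul hp

theorem Bd.zero : Bd 0 0 := by
  have := Bd.C (S := 0) 0 (by norm_num)
  simpa using this

theorem Bd.sum {ι : Type} (s : Finset ι) (f : ι → MvPolynomial (Fin 6) ℤ) (F : ι → ℕ)
    (h : ∀ i ∈ s, Bd (f i) (F i)) : Bd (∑ i ∈ s, f i) (∑ i ∈ s, F i) := by
  classical
  induction s using Finset.induction_on with
  | empty => simpa using Bd.zero
  | insert a s ha ih =>
    rw [sum_insert ha, sum_insert ha]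
    exact (h a (mem_insert_self _ _)).add (ih fun i hi => h i (mem_insert_of_mem hi))

theorem coeff_part {R : Type} [CommSemiring R] (n : ℕ) (i : Fin 6) (j : ℕ)
    (p : MvPolynomial (Fin 6) R) (m : E) : coeff m (part n i j p) =
    ∑ m' ∈ (IxN n).filter (fun m => m i = j), if m' - Finsupp.single i j = m then coeff m' p else 0 := by
  unfold part
  rw [coeff_sum]
  exact sum_congr rfl fun m' _ => by rw [coeff_monomial]

theorem Bd.part (hp : Bd p S) (n : ℕ) (i : Fin 6) (j : ℕ) : Bd (part n i j p) S := by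
  obtain ⟨g, hg, hS⟩ := hp
  refine ⟨B54.part n i j g, fun m => ?_, ?_⟩
  · rw [coeff_part, coeff_part]
    push_cast
    refine (abs_sum_le_sum_abs _ _).trans (sum_le_sum fun x _ => ?_)
    split_ifs
    · exact hg x
    · simp
  · refine le_trans ?_ hS
    unfold B54.part
    rw [map_sum]
    refine le_trans ?_ (sum_coeff_le g ((IxN n).filter (fun m => m i = j)))
    refine sum_le_sum fun m _ => ?_
    rw [eval_monomial']
    simp [mon]

theorem Bd.subst (hp : Bd p S) {l : MvPolynomial (Fin 6) ℤ} {L : ℕ} (hl : Bd l L) (i : Fin 6) :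
    Bd (subst i l p) (∑ j ∈ range 6, S * L ^ j) := by
  unfold B54.subst
  exact Bd.sum _ _ _ fun j _ => (hp.part 5 i j).mul (hl.pow j)

/-! ### absolute values of the coefficients -/

section test
variable {O : ℕ}

theorem Z_pos {p : MvPolynomial (Fin 6) ℤ} (hp : p.IsHomogeneous 5) (hO : IsOff O)
    (hc : ∀ m, |coeff m p| < 2 ^ aa) :
    posPart aa O (pk p + (O : ℤ)).toNat = numE Ix (fun m => (coeff m p).toNat) := by
  rw [toNat_off hp hO hc, hO, posPart_numE (subset_refl _) (fun m _ => digit_lt hc m)]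
  refine numE_congr fun m _ => ?_
  have h1 := abs_lt.mp (hc m)
  zify
  by_cases h : 0 ≤ coeff m p
  · rw [Int.toNat_of_nonneg h]
    have h2 : (2 : ℕ) ^ aa ≤ (coeff m p + 2 ^ aa).toNat := by
      zify
      rw [Int.toNat_of_nonneg (by linarith)]
      linarith
    rw [Nat.cast_sub h2, Int.toNat_of_nonneg (by linarith)]
    push_cast
    ring
  · push Not at h
    rw [Int.toNat_of_nonpos h.le]
    have h2 : (coeff m p + 2 ^ aa).toNat ≤ (2 : ℕ) ^ aa := by
      zify
      rw [Int.toNat_of_nonneg (by linarith)]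
      linarith
    rw [Nat.sub_eq_zero_of_le h2]

theorem Z_neg {p : MvPolynomial (Fin 6) ℤ} (hp : p.IsHomogeneous 5) (hO : IsOff O)
    (hc : ∀ m, |coeff m p| < 2 ^ aa) :
    posPart aa O (Nat.sub (Nat.mul 2 O) (pk p + (O : ℤ)).toNat) =
      numE Ix (fun m => (-coeff m p).toNat) := by
  have hn : (-p).IsHomogeneous 5 := hp.neg
  have hc' : ∀ m, |coeff m (-p)| < 2 ^ aa := fun m => by rw [coeff_neg, abs_neg]; exact hc m
  have h := Z_pos hn hO hc'
  have e : Nat.sub (Nat.mul 2 O) (pk p + (O : ℤ)).toNat = (pk (-p) + (O : ℤ)).toNat := by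
    change 2 * O - (pk p + (O : ℤ)).toNat = _
    have h1 : pk (-p) = - pk p := by unfold pk; exact map_neg _ _
    rw [h1]
    have h2 : 0 ≤ pk p + (O : ℤ) := by
      have := toNat_off hp hO hc
      rw [pk_int p hp, hO]
      unfold numE
      push_cast
      rw [← sum_add_distrib]
      refine sum_nonneg fun m _ => ?_
      have h1 := (abs_lt.mp (hc m)).1
      rw [← add_mul]
      exact mul_nonneg (by linarith) (by positivity)
    have h3 : 0 ≤ -pk p + (O : ℤ) := by
      rw [← h1, pk_int (-p) hn, hO]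
      unfold numE
      push_cast
      rw [← sum_add_distrib]
      refine sum_nonneg fun m _ => ?_
      have h1 := (abs_lt.mp (hc' m)).1
      rw [← add_mul]
      exact mul_nonneg (by linarith) (by positivity)
    omega
  rw [e, h]
  refine numE_congr fun m _ => ?_
  rw [coeff_neg]

theorem toNat_add_toNat_neg (x : ℤ) : x.toNat + (-x).toNat = x.natAbs := by omega

theorem sum_natAbs_lt {p : MvPolynomial (Fin 6) ℤ} (J : Finset E) {S : ℕ}
    (h : ∑ m ∈ J, |coeff m p| ≤ (S : ℤ)) : ∑ m ∈ J, (coeff m p).natAbs ≤ S := by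
  zify
  exact h

/-- the norm of a packed form -/
theorem norm_eq {p : MvPolynomial (Fin 6) ℤ} (hp : p.IsHomogeneous 5) (hO : IsOff O)
    (hc : ∀ m, |coeff m p| < 2 ^ aa) (hs : ∑ m ∈ Ix, (coeff m p).natAbs < 2 ^ bb - 1) :
    posPart aa O (pk p + (O : ℤ)).toNat % (2 ^ bb - 1) +
      posPart aa O (Nat.sub (Nat.mul 2 O) (pk p + (O : ℤ)).toNat) % (2 ^ bb - 1) =
      ∑ m ∈ Ix, (coeff m p).natAbs := by
  rw [Z_pos hp hO hc, Z_neg hp hO hc, numE_mod (subset_refl _), numE_mod (subset_refl _),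
    ← sum_add_distrib]
  · exact sum_congr rfl fun m _ => toNat_add_toNat_neg _
  · refine lt_of_le_of_lt (sum_le_sum fun m _ => ?_) hs
    omega
  · refine lt_of_le_of_lt (sum_le_sum fun m _ => ?_) hs
    omega

/-- exponents with an odd entry among the first five -/
def OddE (m : E) : Prop := m 0 % 2 = 1 ∨ m 1 % 2 = 1 ∨ m 2 % 2 = 1 ∨ m 3 % 2 = 1 ∨ m 4 % 2 = 1

instance : DecidablePred OddE := fun m => by unfold OddE; infer_instance

def IsOdd (M : ℕ) : Prop := M = numE (Ix.filter OddE) (fun _ => 2 ^ bb - 1)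

/-- the exponent `w ^ 5` -/
noncomputable def m0 : E := Finsupp.single 5 5

theorem m0_mem : m0 ∈ Ix := by
  rw [mem_IxN, Fin.sum_univ_six]
  simp [m0]

theorem pos_m0 : pos m0 = 0 := by
  unfold pos
  rw [Fin.sum_univ_six]
  simp [m0, fs]

theorem numE_mod_two_pow {c : E → ℕ} (hc : c m0 < 2 ^ bb) : numE Ix c % 2 ^ bb = c m0 := by
  unfold numE
  rw [← add_sum_erase _ _ m0_mem, pos_m0, mul_zero, pow_zero, mul_one]
  have h : 2 ^ bb ∣ ∑ m ∈ Ix.erase m0, c m * 2 ^ (bb * pos m) := by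
    apply dvd_sum
    intro m hm
    rw [mem_erase] at hm
    apply Dvd.dvd.mul_left
    apply pow_dvd_pow
    have h1 : pos m ≠ 0 := by
      intro h
      apply hm.1
      apply pos_inj (by exact_mod_cast hm.2) (by exact_mod_cast m0_mem)
      rw [h, pos_m0]
    exact Nat.le_mul_of_pos_right _ (Nat.pos_of_ne_zero h1)
  obtain ⟨k, hk⟩ := h
  rw [hk, Nat.add_mul_mod_self_left, Nat.mod_eq_of_lt hc]

theorem mon_abs_le {t : Fin 6 → ℝ} (ht : ∀ i, |t i| ≤ 1) (m : E) : |mon t m| ≤ 1 := by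
  unfold mon
  rw [abs_prod]
  refine prod_le_one (fun i _ => abs_nonneg _) fun i _ => ?_
  rw [abs_pow]
  exact pow_le_one₀ (abs_nonneg _) (ht i)

theorem mon_even_nonneg {t : Fin 6 → ℝ} (h5 : t 5 = 1) {m : E} (hm : ¬ OddE m) :
    0 ≤ mon t m := by
  unfold OddE at hm
  push Not at hm
  unfold mon
  rw [Fin.prod_univ_six, h5, one_pow, mul_one]
  have he : ∀ i : Fin 6, m i % 2 ≠ 1 → 0 ≤ t i ^ m i := by
    intro i hi
    have : Even (m i) := by rw [Nat.even_iff]; omega
    exact this.pow_nonneg _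
  have := he 0 hm.1
  have := he 1 hm.2.1
  have := he 2 hm.2.2.1
  have := he 3 hm.2.2.2.1
  have := he 4 hm.2.2.2.2
  positivity

theorem aux1 {P N x : ℝ} (hP : 0 ≤ P) (hN : 0 ≤ N) (h1 : -1 ≤ x) (h2 : x ≤ 1) :
    (P - N) * x ≤ P + N - 0 := by nlinarith

theorem aux2 {P N x : ℝ} (hP : 0 ≤ P) (hN : 0 ≤ N) (h1 : 0 ≤ x) (h2 : x ≤ 1) :
    (P - N) * x ≤ P + 0 - 0 := by nlinarith

theorem final_test {T : MvPolynomial (Fin 6) ℤ} (hT : T.IsHomogeneous 5) (hO : IsOff O)
    (hc : ∀ m, |coeff m T| < 2 ^ aa) (hs : ∑ m ∈ Ix, (coeff m T).natAbs < 2 ^ bb - 1)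
    {M : ℕ} (hM : IsOdd M)
    (h : posPart aa O (pk T + (O : ℤ)).toNat % (2 ^ bb - 1) +
      Nat.land (posPart aa O (Nat.sub (Nat.mul 2 O) (pk T + (O : ℤ)).toNat)) M % (2 ^ bb - 1) ≤
      posPart aa O (Nat.sub (Nat.mul 2 O) (pk T + (O : ℤ)).toNat) % 2 ^ bb)
    {t : Fin 6 → ℝ} (ht : ∀ i, |t i| ≤ 1) (h5 : t 5 = 1) : aeval t T ≤ 0 := by
  have hneg : ∀ m, (-coeff m T).toNat < 2 ^ bb := by
    intro m
    have := abs_lt.mp (hc m)
    have h2 : (2 : ℤ) ^ bb = 2 * 2 ^ aa := by rw [bb_eq, pow_succ]; ring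
    zify
    by_cases h0 : 0 ≤ -coeff m T
    · rw [Int.toNat_of_nonneg h0]; linarith
    · rw [Int.toNat_of_nonpos (by linarith)]; positivity
  rw [Z_pos hT hO hc, Z_neg hT hO hc, hM] at h
  change _ + (numE Ix (fun m => (-coeff m T).toNat) &&& _) % (2 ^ bb - 1) ≤ _ at h
  rw [numE_and (subset_refl _) (filter_subset _ _) (fun m _ => hneg m),
    inter_eq_right.mpr (filter_subset _ _), numE_mod (subset_refl _), numE_mod (filter_subset _ _),
    numE_mod_two_pow (hneg _)] at h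
  · rw [aeval_eq_sum T (support_of_hom hT)]
    have h' : (∑ m ∈ Ix, ((coeff m T).toNat : ℝ)) + ∑ m ∈ Ix.filter OddE, ((-coeff m T).toNat : ℝ) ≤
        ((-coeff m0 T).toNat : ℝ) := by exact_mod_cast h
    have key : ∀ m ∈ Ix, (algebraMap ℤ ℝ (coeff m T)) * mon t m ≤
        ((coeff m T).toNat : ℝ) + (if OddE m then ((-coeff m T).toNat : ℝ) else 0) -
          (if m = m0 then ((-coeff m0 T).toNat : ℝ) else 0) := by
      intro m _
      have hx : (algebraMap ℤ ℝ (coeff m T)) = ((coeff m T).toNat : ℝ) - ((-coeff m T).toNat : ℝ) := by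
        have : coeff m T = ((coeff m T).toNat : ℤ) - ((-coeff m T).toNat : ℤ) := by omega
        rw [eq_intCast]
        exact_mod_cast this
      have hP : (0 : ℝ) ≤ ((coeff m T).toNat : ℝ) := Nat.cast_nonneg _
      have hN : (0 : ℝ) ≤ ((-coeff m T).toNat : ℝ) := Nat.cast_nonneg _
      rw [hx]
      set P : ℝ := ((coeff m T).toNat : ℝ)
      have h1 := abs_le.mp (mon_abs_le ht m)
      by_cases hm0 : m = m0
      · have hodd : ¬ OddE m := by
          rw [hm0]; unfold OddE m0; simp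
        have hmon : mon t m = 1 := by
          rw [hm0]; unfold mon m0
          rw [Fin.prod_univ_six]; simp [h5]
        rw [hmon, if_neg hodd, if_pos hm0, ← hm0]
        linarith
      · rw [if_neg hm0]
        by_cases hodd : OddE m
        · rw [if_pos hodd]
          exact aux1 hP hN h1.1 h1.2
        · rw [if_neg hodd]
          exact aux2 hP hN (mon_even_nonneg h5 hodd) h1.2
    refine (sum_le_sum key).trans ?_
    rw [sum_sub_distrib, sum_add_distrib, ← sum_filter, sum_ite_eq', if_pos m0_mem]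
    linarith
  · refine lt_of_le_of_lt (sum_le_sum_of_subset (filter_subset _ _)) ?_
    refine lt_of_le_of_lt (sum_le_sum fun m _ => ?_) hs
    omega
  · refine lt_of_le_of_lt (sum_le_sum fun m _ => ?_) hs
    omega

end test

end Pool.Agent.Helper5.B54
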