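import Pool.Agent.Helper5.B54.Poly

/-!
# The kernel operations on packed forms and their meaning
-/

namespace Pool.Agent.Helper5.B54

open Finset MvPolynomial

/-- the exponents with `m i = j` -/
def Iv (i : Fin 6) (j : ℕ) : Finset E := Ix.filter (fun m => m i = j)

theorem Iv_sub (i : Fin 6) (j : ℕ) : Iv i j ⊆ Ix := filter_subset _ _

/-- `M` is the mask of the exponents with `m i = j` -/
def IsMask (i : Fin 6) (j M : ℕ) : Prop := M = numE (Iv i j) (fun _ => 2 ^ bb - 1)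

/-- value of a nonnegative form on a packed point -/
theorem pk_nat (g : MvPolynomial (Fin 6) ℕ) (hg : g.IsHomogeneous 5) :
    pk g = numE Ix (fun m => coeff m g) := by
  rw [pk_eq_sum g (support_of_hom hg)]
  rfl

theorem split_nat {g : MvPolynomial (Fin 6) ℕ} (hg : g.IsHomogeneous 5)
    (hc : ∀ m, coeff m g < 2 ^ bb) {i : Fin 6} {j M : ℕ} (hM : IsMask i j M) :
    Nat.shiftRight (Nat.land (pk g) M) (bb * (fs i * j)) = pk (part 5 i j g) := by
  change ((pk g) &&& M) >>> _ = _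
  rw [hM, pk_nat g hg, numE_and (subset_refl _) (Iv_sub i j) (fun m _ => hc m),
    inter_eq_right.mpr (Iv_sub i j), Nat.shiftRight_eq_div_pow]
  apply Nat.div_eq_of_eq_mul_left (by positivity)
  exact (pk_part 5 i j g).symm

structure VarD.Ok (V : VarD) (i : Fin 6) : Prop where
  hS : V.S = bb * fs i
  h0 : IsMask i 0 V.M0
  h1 : IsMask i 1 V.M1
  h2 : IsMask i 2 V.M2
  h3 : IsMask i 3 V.M3
  h4 : IsMask i 4 V.M4
  h5 : IsMask i 5 V.M5

theorem hor_eq (S c r N A : Nat) : hor S c r N A = N + (c + r * 2 ^ S) * A := by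
  unfold hor
  change N + c * A + (r * A) <<< S = _
  rw [Nat.shiftLeft_eq]
  ring

/-- the linear form `c w + r v` -/
noncomputable def lin (i : Fin 6) (c r : ℕ) : MvPolynomial (Fin 6) ℕ := C c * X 5 + C r * X i

theorem lin_hom (i : Fin 6) (c r : ℕ) : (lin i c r).IsHomogeneous 1 :=
  (isHomogeneous_C_mul_X _ _).add (isHomogeneous_C_mul_X _ _)

theorem pk_lin (i : Fin 6) (c r : ℕ) : pk (lin i c r) = c + r * 2 ^ (bb * fs i) := by
  unfold lin
  rw [pk_add, pk_mul, pk_mul, pk_C, pk_C, pk_X, pk_X]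
  simp [fs]

theorem diag_eq {V : VarD} {i : Fin 6} (hV : V.Ok i) {g : MvPolynomial (Fin 6) ℕ}
    (hg : g.IsHomogeneous 5) (hc : ∀ m, coeff m g < 2 ^ bb) (c r : ℕ) :
    diag V c r (pk g) = pk (subst i (lin i c r) g) := by
  obtain ⟨hS, h0, h1, h2, h3, h4, h5⟩ := hV
  have e0 := split_nat hg hc h0
  have e1 := split_nat hg hc h1
  have e2 := split_nat hg hc h2
  have e3 := split_nat hg hc h3
  have e4 := split_nat hg hc h4
  have e5 := split_nat hg hc h5
  have t0 : bb * (fs i * 0) = 0 := by ring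
  have t1 : bb * (fs i * 1) = V.S := by rw [hS]; ring
  have t2 : bb * (fs i * 2) = Nat.mul 2 V.S := by rw [hS]; change _ = 2 * (bb * fs i); ring
  have t3 : bb * (fs i * 3) = Nat.mul 3 V.S := by rw [hS]; change _ = 3 * (bb * fs i); ring
  have t4 : bb * (fs i * 4) = Nat.mul 4 V.S := by rw [hS]; change _ = 4 * (bb * fs i); ring
  have t5 : bb * (fs i * 5) = Nat.mul 5 V.S := by rw [hS]; change _ = 5 * (bb * fs i); ring
  rw [t0] at e0
  rw [t1] at e1
  rw [t2] at e2
  rw [t3] at e3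
  rw [t4] at e4
  rw [t5] at e5
  have e0' : Nat.land (pk g) V.M0 = pk (part 5 i 0 g) := e0
  unfold diag
  rw [e0', e1, e2, e3, e4, e5]
  simp only [hor_eq]
  rw [pk_subst, pk_lin, hS]
  simp only [sum_range_succ, sum_range_zero]
  ring

/-! ### evaluation bounds for nonnegative forms -/

theorem eval_mono (g : MvPolynomial (Fin 6) ℕ) {v w : Fin 6 → ℕ} (h : ∀ i, v i ≤ w i) :
    eval v g ≤ eval w g := by
  rw [eval_eq_sum g (subset_refl _), eval_eq_sum g (subset_refl _)]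
  refine sum_le_sum fun m _ => Nat.mul_le_mul_left _ ?_
  unfold mon
  exact prod_le_prod' fun i _ => Nat.pow_le_pow_left (h i) _

theorem coeff_le_eval (g : MvPolynomial (Fin 6) ℕ) {v : Fin 6 → ℕ} (h : ∀ i, 1 ≤ v i) (m : E) :
    coeff m g ≤ eval v g := by
  by_cases hm : m ∈ g.support
  · rw [eval_eq_sum g (subset_refl _)]
    calc coeff m g = coeff m g * 1 := (mul_one _).symm
      _ ≤ coeff m g * mon v m := by
        apply Nat.mul_le_mul_left
        unfold mon
        exact one_le_prod' fun i _ => Nat.one_le_pow _ _ (h i)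
      _ ≤ _ := single_le_sum (f := fun m => coeff m g * mon v m) (fun _ _ => Nat.zero_le _) hm
  · rw [notMem_support_iff] at hm
    rw [hm]; exact Nat.zero_le _

theorem eval_nat_eq_aeval (g : MvPolynomial (Fin 6) ℕ) (v : Fin 6 → ℕ) : eval v g = aeval v g :=
  (DFunLike.congr_fun (coe_aeval_eq_eval v) g).symm

theorem eval_subst_nat (i : Fin 6) (l g : MvPolynomial (Fin 6) ℕ) (hg : g.IsHomogeneous 5)
    (v : Fin 6 → ℕ) : eval v (subst i l g) = eval (Function.update v i (eval v l)) g := by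
  rw [eval_nat_eq_aeval, eval_nat_eq_aeval, aeval_subst i l g hg, eval_nat_eq_aeval]

/-! ### signed forms -/

/-- the offset `2 ^ aa` at all positions -/
def IsOff (O : ℕ) : Prop := O = numE Ix (fun _ => 2 ^ aa)

theorem pk_int (p : MvPolynomial (Fin 6) ℤ) (hp : p.IsHomogeneous 5) :
    pk p = ∑ m ∈ Ix, coeff m p * 2 ^ (bb * pos m) := pk_eq_sum p (support_of_hom hp)

theorem toNat_off {p : MvPolynomial (Fin 6) ℤ} (hp : p.IsHomogeneous 5) {O : ℕ} (hO : IsOff O)
    (hc : ∀ m, |coeff m p| < 2 ^ aa) :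
    (pk p + (O : ℤ)).toNat = numE Ix (fun m => (coeff m p + 2 ^ aa).toNat) := by
  have h : pk p + (O : ℤ) = ((numE Ix (fun m => (coeff m p + 2 ^ aa).toNat) : ℕ) : ℤ) := by
    rw [pk_int p hp, hO]
    unfold numE
    push_cast
    rw [← sum_add_distrib]
    refine sum_congr rfl fun m _ => ?_
    have h1 := (abs_lt.mp (hc m)).1
    rw [Int.toNat_of_nonneg (by linarith)]
    ring
  rw [h, Int.toNat_natCast]

theorem digit_lt {p : MvPolynomial (Fin 6) ℤ} (hc : ∀ m, |coeff m p| < 2 ^ aa) (m : E) :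
    (coeff m p + 2 ^ aa).toNat < 2 ^ bb := by
  have h1 := abs_lt.mp (hc m)
  have h2 : (coeff m p + 2 ^ aa : ℤ) < 2 ^ bb := by
    rw [bb_eq, pow_succ]; linarith
  zify
  rw [Int.toNat_of_nonneg (by linarith)]
  exact h2

/-- `O'` is the offset of the part `m i = j` after division -/
def IsOffP (i : Fin 6) (j O' : ℕ) : Prop :=
  O' * 2 ^ (bb * (fs i * j)) = numE (Iv i j) (fun _ => 2 ^ aa)

theorem split_int {p : MvPolynomial (Fin 6) ℤ} (hp : p.IsHomogeneous 5)
    (hc : ∀ m, |coeff m p| < 2 ^ aa) {O : ℕ} (hO : IsOff O)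
    {i : Fin 6} {j M O' : ℕ} (hM : IsMask i j M) (hO' : IsOffP i j O') :
    Int.sub (Int.ofNat (Nat.shiftRight (Nat.land (Int.toNat (Int.add (pk p) (Int.ofNat O))) M)
      (bb * (fs i * j)))) (Int.ofNat O') = pk (part 5 i j p) := by
  change ((((pk p + (O : ℤ)).toNat &&& M) >>> (bb * (fs i * j)) : ℕ) : ℤ) - (O' : ℤ) = _
  rw [toNat_off hp hO hc, hM, numE_and (subset_refl _) (Iv_sub i j) (fun m _ => digit_lt hc m),
    inter_eq_right.mpr (Iv_sub i j), Nat.shiftRight_eq_div_pow]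
  -- the division is exact
  have hpart := pk_part 5 i j p
  have hfil : (IxN 5).filter (fun m => m i = j) = Iv i j := rfl
  rw [hfil] at hpart
  set T : ℤ := 2 ^ (bb * (fs i * j)) with hT
  have hTpos : 0 < T := by positivity
  have h1 : ((numE (Iv i j) (fun m => (coeff m p + 2 ^ aa).toNat) : ℕ) : ℤ) =
      (pk (part 5 i j p) + O') * T := by
    have h2 : ((O' * 2 ^ (bb * (fs i * j)) : ℕ) : ℤ) = ((numE (Iv i j) (fun _ => 2 ^ aa) : ℕ) : ℤ) := by
      rw [hO']
    push_cast at h2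
    rw [add_mul, h2, hpart]
    unfold numE
    push_cast
    rw [← sum_add_distrib]
    refine sum_congr rfl fun m _ => ?_
    have h1 := (abs_lt.mp (hc m)).1
    rw [Int.toNat_of_nonneg (by linarith)]
    ring
  push_cast
  rw [h1, Int.mul_ediv_cancel _ hTpos.ne']
  ring

structure OffD.Ok (Q : OffD) (i : Fin 6) : Prop where
  h0 : IsOffP i 0 Q.O0
  h1 : IsOffP i 1 Q.O1
  h2 : IsOffP i 2 Q.O2
  h3 : IsOffP i 3 Q.O3
  h4 : IsOffP i 4 Q.O4
  h5 : IsOffP i 5 Q.O5

theorem horI_eq (l : Int) (P O : Nat) (A : Int) :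
    horI l P O A = Int.sub (Int.ofNat P) (Int.ofNat O) + l * A := rfl

theorem conv_eq {V : VarD} {Q : OffD} {i : Fin 6} (hV : V.Ok i) (hQ : Q.Ok i)
    {p : MvPolynomial (Fin 6) ℤ} (hp : p.IsHomogeneous 5) (hc : ∀ m, |coeff m p| < 2 ^ aa)
    {O : ℕ} (hO : IsOff O) (l : MvPolynomial (Fin 6) ℤ) :
    conv V Q O (pk l) (pk p) = pk (subst i l p) := by
  obtain ⟨hS, h0, h1, h2, h3, h4, h5⟩ := hV
  have e0 := split_int hp hc hO h0 hQ.h0
  have e1 := split_int hp hc hO h1 hQ.h1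
  have e2 := split_int hp hc hO h2 hQ.h2
  have e3 := split_int hp hc hO h3 hQ.h3
  have e4 := split_int hp hc hO h4 hQ.h4
  have e5 := split_int hp hc hO h5 hQ.h5
  have t0 : bb * (fs i * 0) = 0 := by ring
  have t1 : bb * (fs i * 1) = V.S := by rw [hS]; ring
  have t2 : bb * (fs i * 2) = Nat.mul 2 V.S := by rw [hS]; change _ = 2 * (bb * fs i); ring
  have t3 : bb * (fs i * 3) = Nat.mul 3 V.S := by rw [hS]; change _ = 3 * (bb * fs i); ring
  have t4 : bb * (fs i * 4) = Nat.mul 4 V.S := by rw [hS]; change _ = 4 * (bb * fs i); ring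
  have t5 : bb * (fs i * 5) = Nat.mul 5 V.S := by rw [hS]; change _ = 5 * (bb * fs i); ring
  rw [t0] at e0
  rw [t1] at e1
  rw [t2] at e2
  rw [t3] at e3
  rw [t4] at e4
  rw [t5] at e5
  unfold conv convZ
  set Z : ℕ := Int.toNat (Int.add (pk p) (Int.ofNat O)) with hZ
  have e0' : Int.sub (Int.ofNat (Nat.land Z V.M0)) (Int.ofNat Q.O0) = pk (part 5 i 0 p) := e0
  simp only [horI_eq]
  rw [e0', e1, e2, e3, e4, e5]
  rw [pk_subst]
  simp only [sum_range_succ, sum_range_zero]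
  ring

end Pool.Agent.Helper5.B54
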