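import Pool.Agent.Helper5.B54.Digits

/-!
# Quintic forms in six variables as packed numbers
-/

namespace Pool.Agent.Helper5.B54

open Finset MvPolynomial

abbrev E := Fin 6 →₀ ℕ

/-- bits of a digit, minus one -/
def aa : ℕ := 143

/-- bits of a digit -/
def bb : ℕ := 144

theorem bb_eq : bb = aa + 1 := rfl
theorem bb_pos : 0 < bb := by decide

/-- positions of the six variables: all sums of five of them are different -/
def fs : Fin 6 → ℕ := ![2, 63, 171, 190, 200, 0]

def pos (m : E) : ℕ := ∑ i, fs i * m i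

/-- exponents of degree `n` -/
def IxN (n : ℕ) : Finset E := (univ : Finset (Fin 6)).finsuppAntidiag n

abbrev Ix : Finset E := IxN 5

theorem mem_IxN {n : ℕ} {m : E} : m ∈ IxN n ↔ ∑ i, m i = n := by
  unfold IxN
  rw [mem_finsuppAntidiag]
  simp

/-- lists of length `k` with sum `n` -/
def comps : ℕ → ℕ → List (List ℕ)
  | n, 0 => if n = 0 then [[]] else []
  | n, k + 1 => (List.range (n + 1)).flatMap (fun i => (comps (n - i) k).map (i :: ·))

theorem mem_comps : ∀ (k n : ℕ) (l : List ℕ), l ∈ comps n k ↔ l.length = k ∧ l.sum = n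
  | 0, n, l => by
    unfold comps
    split_ifs with h
    · subst h
      simp only [List.mem_singleton, List.length_eq_zero_iff]
      constructor
      · rintro rfl; simp
      · rintro ⟨rfl, _⟩; rfl
    · simp only [List.not_mem_nil, List.length_eq_zero_iff, false_iff, not_and]
      rintro rfl
      simpa using Ne.symm h
  | k + 1, n, l => by
    unfold comps
    simp only [List.mem_flatMap, List.mem_range, List.mem_map]
    constructor
    · rintro ⟨i, hi, t, ht, rfl⟩
      rw [mem_comps k] at ht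
      simp only [List.length_cons, List.sum_cons]
      omega
    · rintro ⟨h1, h2⟩
      match l with
      | [] => simp at h1
      | i :: t =>
        simp only [List.length_cons, List.sum_cons] at h1 h2
        exact ⟨i, by omega, t, (mem_comps k _ _).mpr ⟨by omega, by omega⟩, rfl⟩

def posL (l : List ℕ) : ℕ := (List.zipWith (· * ·) [2, 63, 171, 190, 200, 0] l).sum

def toL (m : E) : List ℕ := [m 0, m 1, m 2, m 3, m 4, m 5]

theorem posL_toL (m : E) : posL (toL m) = pos m := by
  unfold posL toL pos fs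
  rw [Fin.sum_univ_six]
  simp [List.zipWith]
  ring

theorem toL_inj : Function.Injective toL := by
  intro m m' h
  unfold toL at h
  simp only [List.cons.injEq, and_true] at h
  obtain ⟨h0, h1, h2, h3, h4, h5⟩ := h
  ext i
  fin_cases i
  exacts [h0, h1, h2, h3, h4, h5]

theorem toL_mem {n : ℕ} {m : E} (h : m ∈ IxN n) : toL m ∈ comps n 6 := by
  rw [mem_comps]
  rw [mem_IxN, Fin.sum_univ_six] at h
  unfold toL
  simp
  omega

theorem exists_toL {n : ℕ} {l : List ℕ} (h : l ∈ comps n 6) : ∃ m ∈ IxN n, toL m = l := by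
  rw [mem_comps] at h
  obtain ⟨h1, h2⟩ := h
  match l with
  | [a, b, c, d, e, f] =>
    refine ⟨Finsupp.equivFunOnFinite.symm ![a, b, c, d, e, f], ?_, ?_⟩
    · rw [mem_IxN, Fin.sum_univ_six]
      simp at h2
      simp
      omega
    · unfold toL
      simp

theorem posL_nodup : ((comps 5 6).map posL).Nodup := by decide +kernel

theorem comps_nodup : (comps 5 6).Nodup := posL_nodup.of_map _

theorem pos_inj : Set.InjOn pos (Ix : Set E) := by
  intro m hm m' hm' h
  rw [← posL_toL, ← posL_toL] at h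
  exact toL_inj (List.inj_on_of_nodup_map posL_nodup (toL_mem hm) (toL_mem hm') h)

theorem comps_nodup' (n : ℕ) (hn : n = 4 ∨ n = 5) : (comps n 6).Nodup := by
  rcases hn with rfl | rfl
  · decide +kernel
  · decide +kernel

/-- sums over exponents as sums over lists -/
theorem sum_Ix {n : ℕ} (hn : n = 4 ∨ n = 5) (P : List ℕ → Bool) (F : List ℕ → ℕ) :
    ∑ m ∈ (IxN n).filter (fun m => P (toL m) = true), F (toL m) =
      (((comps n 6).filter P).map F).sum := by
  rw [← List.sum_toFinset _ ((comps_nodup' n hn).filter _)]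
  refine sum_bij (fun m _ => toL m) ?_ ?_ ?_ ?_
  · intro m hm
    rw [mem_filter] at hm
    simp only [List.mem_toFinset, List.mem_filter]
    exact ⟨toL_mem hm.1, hm.2⟩
  · intro a _ b _ h
    exact toL_inj h
  · intro l hl
    simp only [List.mem_toFinset, List.mem_filter] at hl
    obtain ⟨m, hm, rfl⟩ := exists_toL hl.1
    exact ⟨m, mem_filter.mpr ⟨hm, hl.2⟩, rfl⟩
  · intro a _
    rfl

/-- packed number of a function on exponents -/
def numE (J : Finset E) (c : E → ℕ) : ℕ := ∑ m ∈ J, c m * 2 ^ (bb * pos m)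

/-- the computable mask: digit `dig` at the positions of the lists satisfying `P` -/
def maskL (n : ℕ) (P : List ℕ → Bool) (dig : ℕ) : ℕ :=
  (((comps n 6).filter P).map (fun l => dig * 2 ^ (bb * posL l))).sum

theorem maskL_eq {n : ℕ} (hn : n = 4 ∨ n = 5) (P : List ℕ → Bool) (dig : ℕ) :
    maskL n P dig = numE ((IxN n).filter (fun m => P (toL m) = true)) (fun _ => dig) := by
  unfold maskL numE
  rw [← sum_Ix hn P (fun l => dig * 2 ^ (bb * posL l))]
  refine sum_congr rfl fun m _ => ?_
  rw [posL_toL]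

noncomputable def inv (q : ℕ) : E := Function.invFunOn pos (Ix : Set E) q

theorem inv_pos {m : E} (hm : m ∈ Ix) : inv (pos m) = m :=
  pos_inj.leftInvOn_invFunOn (by exact_mod_cast hm)

theorem numE_eq_num {J : Finset E} (hJ : J ⊆ Ix) (c : E → ℕ) :
    numE J c = num bb (J.image pos) (fun q => c (inv q)) := by
  unfold numE num
  rw [sum_image]
  · refine sum_congr rfl fun m hm => ?_
    beta_reduce
    rw [inv_pos (hJ hm)]
  · intro a ha b hb h
    exact pos_inj (by exact_mod_cast hJ ha) (by exact_mod_cast hJ hb) h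

theorem image_forall {J : Finset E} (hJ : J ⊆ Ix) {p : E → Prop} (h : ∀ m ∈ J, p m) :
    ∀ q ∈ J.image pos, p (inv q) := by
  intro q hq
  rw [mem_image] at hq
  obtain ⟨m, hm, rfl⟩ := hq
  rw [inv_pos (hJ hm)]
  exact h m hm

theorem image_inter' {J J' : Finset E} (hJ : J ⊆ Ix) (hJ' : J' ⊆ Ix) :
    J.image pos ∩ J'.image pos = (J ∩ J').image pos := by
  ext q
  simp only [mem_inter, mem_image]
  constructor
  · rintro ⟨⟨m, hm, rfl⟩, ⟨m', hm', h⟩⟩
    have : m' = m := pos_inj (by exact_mod_cast hJ' hm') (by exact_mod_cast hJ hm) h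
    subst this
    exact ⟨m', ⟨hm, hm'⟩, rfl⟩
  · rintro ⟨m, ⟨hm, hm'⟩, rfl⟩
    exact ⟨⟨m, hm, rfl⟩, ⟨m, hm', rfl⟩⟩

theorem numE_and {J J' : Finset E} (hJ : J ⊆ Ix) (hJ' : J' ⊆ Ix) {c : E → ℕ}
    (hc : ∀ m ∈ J, c m < 2 ^ bb) :
    numE J c &&& numE J' (fun _ => 2 ^ bb - 1) = numE (J ∩ J') c := by
  rw [numE_eq_num hJ, numE_eq_num hJ', numE_eq_num (inter_subset_left.trans hJ),
    and_num bb_pos (image_forall hJ hc), image_inter' hJ hJ']
  · refine num_congr fun q hq => ?_
    have := image_forall (inter_subset_left.trans hJ)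
      (fun m (hm : m ∈ J ∩ J') => hc m (mem_inter.mp hm).1) q hq
    exact Nat.and_two_pow_sub_one_of_lt_two_pow this
  · intro q _
    have : 0 < 2 ^ bb := by positivity
    omega

theorem posPart_numE {J : Finset E} (hJ : J ⊆ Ix) {z : E → ℕ} (hz : ∀ m ∈ J, z m < 2 ^ bb) :
    posPart aa (numE J (fun _ => 2 ^ aa)) (numE J z) = numE J (fun m => z m - 2 ^ aa) := by
  rw [numE_eq_num hJ, numE_eq_num hJ, numE_eq_num hJ, bb_eq]
  exact posPart_num (image_forall hJ hz)

theorem numE_mod {J : Finset E} (hJ : J ⊆ Ix) {c : E → ℕ} (h : ∑ m ∈ J, c m < 2 ^ bb - 1) :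
    numE J c % (2 ^ bb - 1) = ∑ m ∈ J, c m := by
  have h1 : ∑ q ∈ J.image pos, c (inv q) = ∑ m ∈ J, c m := by
    rw [sum_image]
    · exact sum_congr rfl fun m hm => by rw [inv_pos (hJ hm)]
    · intro a ha b hb h
      exact pos_inj (by exact_mod_cast hJ ha) (by exact_mod_cast hJ hb) h
  rw [numE_eq_num hJ, num_mod _ _ (by rwa [h1]), h1]

theorem numE_add (J : Finset E) (c d : E → ℕ) : numE J c + numE J d = numE J (fun m => c m + d m) := by
  unfold numE
  rw [← sum_add_distrib]
  exact sum_congr rfl fun m _ => by ring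

theorem numE_congr {J : Finset E} {c d : E → ℕ} (h : ∀ m ∈ J, c m = d m) : numE J c = numE J d :=
  sum_congr rfl fun m hm => by rw [h m hm]

end Pool.Agent.Helper5.B54
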