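import Pool.Agent.Helper5.B54.Pack

/-!
# Polynomials and their packed values
-/

namespace Pool.Agent.Helper5.B54

open Finset MvPolynomial

section generic
variable {R : Type} [CommSemiring R]

/-- the packed value of a form -/
noncomputable def pk (p : MvPolynomial (Fin 6) R) : R :=
  eval (fun k => (2 : R) ^ (bb * fs k)) p

theorem pk_add (p q : MvPolynomial (Fin 6) R) : pk (p + q) = pk p + pk q := by
  unfold pk; exact map_add _ _ _

theorem pk_mul (p q : MvPolynomial (Fin 6) R) : pk (p * q) = pk p * pk q := by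
  unfold pk; exact map_mul _ _ _

theorem pk_pow (p : MvPolynomial (Fin 6) R) (n : ℕ) : pk (p ^ n) = pk p ^ n := by
  unfold pk; exact map_pow _ _ _

theorem pk_sum {ι : Type} (s : Finset ι) (f : ι → MvPolynomial (Fin 6) R) :
    pk (∑ i ∈ s, f i) = ∑ i ∈ s, pk (f i) := by
  unfold pk; exact map_sum _ _ _

theorem pk_C (c : R) : pk (C c) = c := by
  unfold pk; exact eval_C _

theorem pk_X (i : Fin 6) : pk (X i : MvPolynomial (Fin 6) R) = 2 ^ (bb * fs i) := by
  unfold pk; exact eval_X _

/-- value of a monomial -/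
def mon {A : Type} [CommSemiring A] (v : Fin 6 → A) (m : E) : A := ∏ i, v i ^ m i

theorem pow_pos_eq (m : E) : mon (fun k => (2 : R) ^ (bb * fs k)) m = 2 ^ (bb * pos m) := by
  unfold mon pos
  simp only [← pow_mul]
  rw [prod_pow_eq_pow_sum]
  congr 1
  rw [mul_sum]
  exact sum_congr rfl fun i _ => by ring

theorem eval_monomial' (v : Fin 6 → R) (m : E) (c : R) : eval v (monomial m c) = c * mon v m := by
  rw [eval_monomial, Finsupp.prod_fintype]
  · rfl
  · intro i; simp

theorem pk_monomial (m : E) (c : R) : pk (monomial m c) = c * 2 ^ (bb * pos m) := by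
  unfold pk
  rw [eval_monomial', pow_pos_eq]

theorem eval_eq_sum {J : Finset E} (p : MvPolynomial (Fin 6) R) (hp : p.support ⊆ J)
    (v : Fin 6 → R) : eval v p = ∑ m ∈ J, coeff m p * mon v m := by
  rw [eval_eq']
  rw [sum_subset hp]
  · rfl
  · intro m _ hm
    rw [notMem_support_iff] at hm
    simp [hm]

theorem pk_eq_sum {J : Finset E} (p : MvPolynomial (Fin 6) R) (hp : p.support ⊆ J) :
    pk p = ∑ m ∈ J, coeff m p * 2 ^ (bb * pos m) := by
  unfold pk
  rw [eval_eq_sum p hp]
  exact sum_congr rfl fun m _ => by rw [pow_pos_eq]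

theorem aeval_eq_sum {A : Type} [CommSemiring A] [Algebra R A] {J : Finset E}
    (p : MvPolynomial (Fin 6) R) (hp : p.support ⊆ J)
    (v : Fin 6 → A) : aeval v p = ∑ m ∈ J, algebraMap R A (coeff m p) * mon v m := by
  rw [aeval_def, eval₂_eq']
  rw [sum_subset hp]
  · rfl
  · intro m _ hm
    rw [notMem_support_iff] at hm
    simp [hm]

theorem support_of_hom {n : ℕ} {p : MvPolynomial (Fin 6) R} (hp : p.IsHomogeneous n) :
    p.support ⊆ IxN n := by
  intro m hm
  rw [mem_support_iff] at hm
  have h := hp hm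
  rw [mem_IxN]
  rw [← h]
  simp [Finsupp.weight_apply, Finsupp.sum_fintype]

theorem hom_of_support {n : ℕ} {p : MvPolynomial (Fin 6) R} (hp : p.support ⊆ IxN n) :
    p.IsHomogeneous n := by
  intro m hm
  have h := hp (mem_support_iff.mpr hm)
  rw [mem_IxN] at h
  rw [← h]
  simp [Finsupp.weight_apply, Finsupp.sum_fintype]

/-- the part of a form with exponent `j` in the variable `i`, divided by `X i ^ j` -/
noncomputable def part (n : ℕ) (i : Fin 6) (j : ℕ) (p : MvPolynomial (Fin 6) R) :
    MvPolynomial (Fin 6) R :=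
  ∑ m ∈ (IxN n).filter (fun m => m i = j), monomial (m - Finsupp.single i j) (coeff m p)

theorem pos_sub {i : Fin 6} {j : ℕ} {m : E} (h : m i = j) :
    pos (m - Finsupp.single i j) + fs i * j = pos m := by
  have h1 : m = (m - Finsupp.single i j) + Finsupp.single i j := by
    rw [tsub_add_cancel_of_le]
    rw [Finsupp.single_le_iff]
    exact h.ge
  have h2 : ∀ a b : E, pos (a + b) = pos a + pos b := by
    intro a b
    unfold pos
    rw [← sum_add_distrib]
    exact sum_congr rfl fun k _ => by simp [mul_add]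
  have h3 : pos (Finsupp.single i j) = fs i * j := by
    unfold pos
    rw [sum_eq_single i]
    · simp
    · intro k _ hk
      simp [Finsupp.single_apply, hk.symm]
    · simp
  conv_rhs => rw [h1]
  rw [h2, h3]

theorem pk_part (n : ℕ) (i : Fin 6) (j : ℕ) (p : MvPolynomial (Fin 6) R) :
    pk (part n i j p) * 2 ^ (bb * (fs i * j)) =
      ∑ m ∈ (IxN n).filter (fun m => m i = j), coeff m p * 2 ^ (bb * pos m) := by
  unfold part
  rw [pk_sum, sum_mul]
  refine sum_congr rfl fun m hm => ?_
  rw [mem_filter] at hm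
  rw [pk_monomial, mul_assoc, ← pow_add, ← mul_add, pos_sub hm.2]

theorem hom_part {n j : ℕ} (hj : j ≤ n) (i : Fin 6) (p : MvPolynomial (Fin 6) R) :
    (part n i j p).IsHomogeneous (n - j) := by
  unfold part
  apply IsHomogeneous.sum
  intro m hm
  rw [mem_filter, mem_IxN] at hm
  apply isHomogeneous_monomial
  rw [Finsupp.degree_eq_sum]
  have h1 : ∑ k, m k = ∑ k, ((m - Finsupp.single i j : E) k + (Finsupp.single i j : E) k) := by
    refine sum_congr rfl fun k _ => ?_
    by_cases hk : k = i
    · subst hk; simp [hm.2]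
    · simp [Finsupp.single_apply, Ne.symm hk]
  rw [sum_add_distrib] at h1
  have h2 : ∑ k, (Finsupp.single i j : E) k = j := by
    rw [sum_eq_single i]
    · simp
    · intro k _ hk
      simp [Finsupp.single_apply, hk.symm]
    · simp
  omega

/-- substitution of a linear form for one variable -/
noncomputable def subst (i : Fin 6) (l : MvPolynomial (Fin 6) R) (p : MvPolynomial (Fin 6) R) :
    MvPolynomial (Fin 6) R := ∑ j ∈ range 6, part 5 i j p * l ^ j

theorem hom_subst (i : Fin 6) {l : MvPolynomial (Fin 6) R} (hl : l.IsHomogeneous 1)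
    (p : MvPolynomial (Fin 6) R) : (subst i l p).IsHomogeneous 5 := by
  unfold subst
  apply IsHomogeneous.sum
  intro j hj
  have hj : j ≤ 5 := by
    rw [mem_range] at hj; omega
  have h := (hom_part hj i p).mul (hl.pow j)
  have e : 5 - j + 1 * j = 5 := by omega
  rwa [e] at h

theorem aeval_subst {A : Type} [CommSemiring A] [Algebra R A] (i : Fin 6)
    (l p : MvPolynomial (Fin 6) R) (hp : p.IsHomogeneous 5) (v : Fin 6 → A) :
    aeval v (subst i l p) = aeval (Function.update v i (aeval v l)) p := by
  rw [aeval_eq_sum p (support_of_hom hp)]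
  unfold subst part
  simp only [map_sum, map_mul, map_pow, sum_mul]
  have h1 : ∀ m ∈ IxN 5, m i ∈ range 6 := by
    intro m hm
    rw [mem_IxN] at hm
    rw [mem_range]
    have := single_le_sum (f := fun k => m k) (fun _ _ => Nat.zero_le _) (mem_univ i)
    have h5 : m i ≤ ∑ k, m k := this
    omega
  rw [← sum_fiberwise_of_maps_to (s := IxN 5) (t := range 6) (g := fun m => m i) h1]
  refine sum_congr rfl fun j _ => sum_congr rfl fun m hm => ?_
  rw [mem_filter] at hm
  rw [aeval_monomial, mul_assoc]
  congr 1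
  rw [Finsupp.prod_fintype _ _ (by intro k; simp)]
  unfold mon
  rw [Fintype.prod_eq_mul_prod_compl i, Fintype.prod_eq_mul_prod_compl (f := fun k =>
    Function.update v i (aeval v l) k ^ m k) i]
  have h2 : (m - Finsupp.single i j : E) i = 0 := by simp [hm.2]
  rw [h2, pow_zero, one_mul, Function.update_self, hm.2, mul_comm]
  congr 1
  refine prod_congr rfl fun k hk => ?_
  have hk : k ≠ i := by simpa using hk
  rw [Function.update_of_ne hk]
  simp [Finsupp.single_apply, Ne.symm hk]

theorem pk_subst (i : Fin 6) (l p : MvPolynomial (Fin 6) R) :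
    pk (subst i l p) = ∑ j ∈ range 6, pk (part 5 i j p) * pk l ^ j := by
  unfold subst
  rw [pk_sum]
  exact sum_congr rfl fun j _ => by rw [pk_mul, pk_pow]

end generic

end Pool.Agent.Helper5.B54
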