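import Pool.Agent.Helper5.B54.Data
import Pool.Agent.Helper5.B54.MasksOk
import Pool.Agent.Helper5.B54.Norm
import Pool.Agent.Helper5.B54.KillPoly

/-!
# Meaning of the small pieces
-/

namespace Pool.Agent.Helper5.B54

open Finset MvPolynomial Pool.Agent.Helper65.B54

def V6.fn (v : V6) : Fin 6 → ℤ := ![v.a0, v.a1, v.a2, v.a3, v.a4, v.a5]
def N6.fn (v : N6) : Fin 6 → ℕ := ![v.a0, v.a1, v.a2, v.a3, v.a4, v.a5]

noncomputable def V6.poly (v : V6) : MvPolynomial (Fin 6) ℤ := ∑ k, C (v.fn k) * X k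
noncomputable def N6.poly (v : N6) : MvPolynomial (Fin 6) ℕ := ∑ k, C (v.fn k) * X k

theorem hom_lin {R : Type} [CommSemiring R] (a : Fin 6 → R) :
    (∑ k, C (a k) * X k : MvPolynomial (Fin 6) R).IsHomogeneous 1 :=
  IsHomogeneous.sum _ _ _ fun _ _ => isHomogeneous_C_mul_X _ _

theorem X0_eq : X0 = 2 ^ (bb * fs 0) := by
  have h : bb * fs 0 = 288 := by decide
  change 1 <<< 288 = _
  rw [Nat.shiftLeft_eq, one_mul, h]

theorem X1_eq : X1 = 2 ^ (bb * fs 1) := by
  have h : bb * fs 1 = 9072 := by decide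
  change 1 <<< 9072 = _
  rw [Nat.shiftLeft_eq, one_mul, h]

theorem X2_eq : X2 = 2 ^ (bb * fs 2) := by
  have h : bb * fs 2 = 24624 := by decide
  change 1 <<< 24624 = _
  rw [Nat.shiftLeft_eq, one_mul, h]

theorem X3_eq : X3 = 2 ^ (bb * fs 3) := by
  have h : bb * fs 3 = 27360 := by decide
  change 1 <<< 27360 = _
  rw [Nat.shiftLeft_eq, one_mul, h]

theorem X4_eq : X4 = 2 ^ (bb * fs 4) := by
  have h : bb * fs 4 = 28800 := by decide
  change 1 <<< 28800 = _
  rw [Nat.shiftLeft_eq, one_mul, h]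

theorem X5_eq : (1 : ℕ) = 2 ^ (bb * fs 5) := by
  have : bb * fs 5 = 0 := by decide
  rw [this, pow_zero]

theorem XI_eq {n : ℕ} {i : Fin 6} (h : n = 2 ^ (bb * fs i)) :
    (n : ℤ) = pk (X i : MvPolynomial (Fin 6) ℤ) := by
  rw [pk_X, h]; push_cast; rfl

theorem packI_eq (v : V6) : packI v = pk v.poly := by
  unfold V6.poly
  rw [pk_sum, Fin.sum_univ_six]
  simp only [pk_mul, pk_C]
  rw [← XI_eq X0_eq, ← XI_eq X1_eq, ← XI_eq X2_eq, ← XI_eq X3_eq, ← XI_eq X4_eq, ← XI_eq X5_eq]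
  unfold packI V6.fn
  change v.a0 * (X0 : ℤ) + v.a1 * (X1 : ℤ) + v.a2 * (X2 : ℤ) + v.a3 * (X3 : ℤ) + v.a4 * (X4 : ℤ) + v.a5
    = _
  simp

theorem packN_eq (v : N6) : packN v = pk v.poly := by
  unfold N6.poly
  rw [pk_sum, Fin.sum_univ_six]
  simp only [pk_mul, pk_C, pk_X]
  rw [← X0_eq, ← X1_eq, ← X2_eq, ← X3_eq, ← X4_eq, ← X5_eq]
  unfold packN N6.fn
  change v.a0 * X0 + v.a1 * X1 + v.a2 * X2 + v.a3 * X3 + v.a4 * X4 + v.a5 = _
  simp

theorem XS_eq : XS = pk (∑ k, X k : MvPolynomial (Fin 6) ℕ) := by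
  rw [pk_sum, Fin.sum_univ_six]
  simp only [pk_X]
  rw [← X0_eq, ← X1_eq, ← X2_eq, ← X3_eq, ← X4_eq, ← X5_eq]
  rfl

/-! ### casts -/

noncomputable def cst (p : MvPolynomial (Fin 6) ℕ) : MvPolynomial (Fin 6) ℤ :=
  map (Nat.castRingHom ℤ) p

theorem coeff_cst (p : MvPolynomial (Fin 6) ℕ) (m : E) : coeff m (cst p) = ((coeff m p : ℕ) : ℤ) := by
  unfold cst
  rw [coeff_map]
  simp

theorem pk_cst (p : MvPolynomial (Fin 6) ℕ) : pk (cst p) = ((pk p : ℕ) : ℤ) := by
  unfold pk cst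
  rw [eval_map]
  have := MvPolynomial.eval₂_comp_left (Nat.castRingHom ℤ) (RingHom.id ℕ)
    (fun k => 2 ^ (bb * fs k)) p
  rw [MvPolynomial.eval, coe_eval₂Hom]
  simp only [eq_natCast] at this
  rw [this]
  congr 1

theorem aeval_cst (p : MvPolynomial (Fin 6) ℕ) (v : Fin 6 → ℝ) : aeval v (cst p) = aeval v p := by
  rw [aeval_eq_sum (cst p) (J := (cst p).support ∪ p.support) subset_union_left,
    aeval_eq_sum p (J := (cst p).support ∪ p.support) subset_union_right]
  refine sum_congr rfl fun m _ => ?_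
  rw [coeff_cst]
  simp

theorem hom_cst {p : MvPolynomial (Fin 6) ℕ} {n : ℕ} (hp : p.IsHomogeneous n) :
    (cst p).IsHomogeneous n := hp.map _

theorem bd_cst (p : MvPolynomial (Fin 6) ℕ) {S : ℕ} (h : eval (fun _ => 1) p ≤ S) : Bd (cst p) S :=
  ⟨p, fun m => by rw [coeff_cst]; simp, h⟩

theorem cst_mul (p q : MvPolynomial (Fin 6) ℕ) : cst (p * q) = cst p * cst q := map_mul _ _ _
theorem cst_add (p q : MvPolynomial (Fin 6) ℕ) : cst (p + q) = cst p + cst q := map_add _ _ _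

/-! ### quartic forms from their packed values -/

theorem pos_add (a b : E) : pos (a + b) = pos a + pos b := by
  unfold pos
  rw [← sum_add_distrib]
  exact sum_congr rfl fun k _ => by simp [mul_add]

theorem pos_inj4 : Set.InjOn pos (IxN 4 : Set E) := by
  intro m hm m' hm' h
  have e5 : pos (Finsupp.single 5 1) = 0 := by
    unfold pos; rw [Fin.sum_univ_six]; simp [fs]
  have hh : ∀ m : E, m ∈ (IxN 4 : Set E) → m + Finsupp.single 5 1 ∈ (Ix : Set E) := by
    intro m hm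
    have hm : m ∈ IxN 4 := by exact_mod_cast hm
    have : m + Finsupp.single 5 1 ∈ Ix := by
      rw [mem_IxN] at hm ⊢
      rw [Fin.sum_univ_six] at hm ⊢
      simp
      omega
    exact_mod_cast this
  have h1 := pos_inj (hh m hm) (hh m' hm') (by rw [pos_add, pos_add, e5, h])
  exact add_right_cancel h1

theorem exists_num {b k N : ℕ} (hb : 0 < b) (hk : k ≤ b) {Q : Finset ℕ}
    (h : N &&& num b Q (fun _ => 2 ^ k - 1) = N) :
    N = num b Q (fun q => N / 2 ^ (b * q) % 2 ^ k) := by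
  have hle : (2 : ℕ) ^ k ≤ 2 ^ b := Nat.pow_le_pow_right (by norm_num) hk
  have h2k : 0 < 2 ^ k := by positivity
  apply Nat.eq_of_testBit_eq
  intro i
  rw [testBit_num hb (fun q _ => lt_of_lt_of_le (Nat.mod_lt _ h2k) hle)]
  have h1 := congrArg (fun x => Nat.testBit x i) h
  simp only [Nat.testBit_and] at h1
  rw [testBit_num hb (fun q _ => by omega)] at h1
  rw [Nat.testBit_mod_two_pow, Nat.testBit_div_two_pow]
  rw [Nat.testBit_two_pow_sub_one] at h1
  have h3 : i % b + b * (i / b) = i := Nat.mod_add_div i b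
  rw [h3]
  cases h4 : N.testBit i <;> rw [h4] at h1 <;> simp at h1 ⊢
  exact h1

/-- the quartic form coded by `N` -/
noncomputable def quart (N : ℕ) : MvPolynomial (Fin 6) ℕ :=
  ∑ m ∈ IxN 4, monomial m (N / 2 ^ (bb * pos m) % 2 ^ 40)

theorem coeff_quart (N : ℕ) (m : E) :
    coeff m (quart N) = if m ∈ IxN 4 then N / 2 ^ (bb * pos m) % 2 ^ 40 else 0 := by
  unfold quart
  rw [coeff_sum]
  simp only [coeff_monomial]
  rw [sum_ite_eq']

theorem quart_deg (N : ℕ) (m : E) (h : coeff m (quart N) ≠ 0) : ∑ k, m k = 4 := by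
  rw [coeff_quart] at h
  split_ifs at h with h1
  · exact mem_IxN.mp h1
  · exact absurd rfl h

theorem quart_hom (N : ℕ) : (quart N).IsHomogeneous 4 := by
  apply hom_of_support
  intro m hm
  rw [mem_support_iff] at hm
  exact mem_IxN.mpr (quart_deg N m hm)

theorem cQuart_eq : cQuart = numE (IxN 4) (fun _ => 2 ^ 40 - 1) := by
  have h : maskL 4 (fun _ => true) (2 ^ 40 - 1) = cQuart := by decide +kernel
  rw [← h, maskL_eq (Or.inl rfl)]
  simp

theorem numE4_eq_num (c : E → ℕ) : numE (IxN 4) c =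
    num bb ((IxN 4).image pos) (fun q => c (Function.invFunOn pos (IxN 4 : Set E) q)) := by
  unfold numE num
  rw [sum_image]
  · refine sum_congr rfl fun m hm => ?_
    beta_reduce
    rw [pos_inj4.leftInvOn_invFunOn (by exact_mod_cast hm)]
  · intro a ha b hb h
    exact pos_inj4 (by exact_mod_cast ha) (by exact_mod_cast hb) h

theorem pk_quart {N : ℕ} (h : Nat.land N cQuart = N) : pk (quart N) = N := by
  change N &&& cQuart = N at h
  rw [cQuart_eq, numE4_eq_num] at h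
  have h1 := exists_num bb_pos (by decide) h
  unfold quart
  rw [pk_sum]
  conv_rhs => rw [h1]
  unfold num
  rw [sum_image]
  · refine sum_congr rfl fun m _ => ?_
    rw [pk_monomial]
  · intro a ha b hb h
    exact pos_inj4 (by exact_mod_cast ha) (by exact_mod_cast hb) h

theorem card_IxN4 : (IxN 4).card = 126 := by
  have h := sum_Ix (n := 4) (Or.inl rfl) (fun _ => true) (fun _ => 1)
  have h2 : (((comps 4 6).filter (fun _ => true)).map (fun _ => 1)).sum = 126 := by decide +kernel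
  rw [h2] at h
  simpa using h

theorem quart_bd (N : ℕ) : Bd (cst (quart N)) (126 * 2 ^ 40) := by
  apply bd_cst
  rw [eval_eq_sum (quart N) (support_of_hom (quart_hom N))]
  calc ∑ m ∈ IxN 4, coeff m (quart N) * mon (fun _ => 1) m ≤ ∑ m ∈ IxN 4, 2 ^ 40 := by
        refine sum_le_sum fun m _ => ?_
        rw [coeff_quart]
        have : mon (fun _ : Fin 6 => (1 : ℕ)) m = 1 := by simp [mon]
        rw [this, mul_one]
        have h2 : N / 2 ^ (bb * pos m) % 2 ^ 40 ≤ 2 ^ 40 := (Nat.mod_lt _ (by positivity)).le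
        split_ifs <;> omega
    _ = 126 * 2 ^ 40 := by rw [sum_const, card_IxN4, smul_eq_mul]

end Pool.Agent.Helper5.B54
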