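import Pool.Agent.Helper5.B54.Sound1

/-!
# Meaning of a prepared dual vector
-/

namespace Pool.Agent.Helper5.B54

open Finset MvPolynomial Pool.Agent.Helper65.B54

theorem smallV_spec {m : ℕ} {v : V6} (h : smallV m v = true) (k : Fin 6) : (v.fn k).natAbs ≤ m := by
  unfold smallV at h
  simp only [Bool.and_eq_true, Nat.ble_eq] at h
  obtain ⟨h0, h1, h2, h3, h4, h5⟩ := h
  fin_cases k
  exacts [h0, h1, h2, h3, h4, h5]

theorem smallN_spec {m : ℕ} {v : N6} (h : smallN m v = true) (k : Fin 6) : v.fn k ≤ m := by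
  unfold smallN at h
  simp only [Bool.and_eq_true, Nat.ble_eq] at h
  obtain ⟨h0, h1, h2, h3, h4, h5⟩ := h
  fin_cases k
  exacts [h0, h1, h2, h3, h4, h5]

theorem bd_V6 {m : ℕ} {v : V6} (h : smallV m v = true) : Bd v.poly (6 * m) := by
  have : Bd v.poly (∑ _k : Fin 6, m * 1) := by
    unfold V6.poly
    refine Bd.sum _ _ _ fun k _ => (Bd.C _ ?_).mul (Bd.X k)
    have := smallV_spec h k
    zify at this
    exact this
  simpa using this

theorem cst_C (c : ℕ) : cst (C c) = C (c : ℤ) := by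
  unfold cst; simp

theorem cst_X (k : Fin 6) : cst (X k) = X k := by
  unfold cst; simp

theorem cst_sum {ι : Type} (s : Finset ι) (f : ι → MvPolynomial (Fin 6) ℕ) :
    cst (∑ i ∈ s, f i) = ∑ i ∈ s, cst (f i) := by
  unfold cst; exact map_sum _ _ _

theorem cst_pow (p : MvPolynomial (Fin 6) ℕ) (n : ℕ) : cst (p ^ n) = cst p ^ n := by
  unfold cst; exact map_pow _ _ _

theorem cst_N6 (v : N6) : cst v.poly = ∑ k, C (v.fn k : ℤ) * X k := by
  unfold N6.poly
  rw [cst_sum]
  exact sum_congr rfl fun k _ => by rw [cst_mul, cst_C, cst_X]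

theorem bd_N6 {m : ℕ} {v : N6} (h : smallN m v = true) : Bd (cst v.poly) (6 * m) := by
  have : Bd (cst v.poly) (∑ _k : Fin 6, m * 1) := by
    rw [cst_N6]
    refine Bd.sum _ _ _ fun k _ => (Bd.C _ ?_).mul (Bd.X k)
    have := smallN_spec h k
    rw [abs_of_nonneg (by positivity)]
    exact_mod_cast this
  simpa using this

/-- `sum Y W` -/
noncomputable def polyW (prev : List Facet) (F : Facet) : List (Cut × Nat × Nat) →
    MvPolynomial (Fin 6) ℕ
  | [] => 0
  | (c, n, x) :: l => quart (decY n x) * (cutW prev F c).poly + polyW prev F l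

/-- `sum Y H` -/
noncomputable def polyH (prev : List Facet) (F : Facet) : List (Cut × Nat × Nat) →
    MvPolynomial (Fin 6) ℤ
  | [] => 0
  | (c, n, x) :: l => cst (quart (decY n x)) * (cutH prev F c).poly + polyH prev F l

variable {prev : List Facet} {F : Facet}

theorem sumW_eq : ∀ {ys : List (Cut × Nat × Nat)}, okY ys = true →
    sumW prev F ys = pk (polyW prev F ys)
  | [], _ => by simp [sumW, polyW, pk]
  | (c, n, x) :: l, h => by
    unfold okY at h
    rw [Bool.and_eq_true, Nat.beq_eq] at h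
    unfold sumW polyW
    rw [pk_add, pk_mul, ← packN_eq, pk_quart h.1, ← sumW_eq h.2]
    rfl

theorem sumH_eq : ∀ {ys : List (Cut × Nat × Nat)}, okY ys = true →
    sumH prev F ys = pk (polyH prev F ys)
  | [], _ => by simp [sumH, polyH, pk]
  | (c, n, x) :: l, h => by
    unfold okY at h
    rw [Bool.and_eq_true, Nat.beq_eq] at h
    unfold sumH polyH
    rw [pk_add, pk_mul, ← packI_eq, pk_cst, pk_quart h.1, ← sumH_eq h.2]
    rfl

theorem hom_polyW : ∀ ys : List (Cut × Nat × Nat), (polyW prev F ys).IsHomogeneous 5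
  | [] => isHomogeneous_zero _ _ _
  | (_, _, _) :: l => ((quart_hom _).mul (hom_lin _)).add (hom_polyW l)

theorem hom_polyH : ∀ ys : List (Cut × Nat × Nat), (polyH prev F ys).IsHomogeneous 5
  | [] => isHomogeneous_zero _ _ _
  | (_, _, _) :: l => ((hom_cst (quart_hom _)).mul (hom_lin _)).add (hom_polyH l)

theorem bd_polyW : ∀ {ys : List (Cut × Nat × Nat)}, okC prev F ys = true →
    Bd (cst (polyW prev F ys)) (ys.length * (126 * 2 ^ 40 * (6 * 1048576)))
  | [], _ => by
    have : cst (polyW prev F []) = 0 := by unfold polyW cst; simp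
    rw [this]
    exact Bd.zero.mono (Nat.zero_le _)
  | (c, n, x) :: l, h => by
    unfold okC at h
    simp only [Bool.and_eq_true] at h
    unfold polyW
    rw [cst_add, cst_mul]
    refine (((quart_bd _).mul (bd_N6 h.1)).add (bd_polyW h.2.2)).mono (le_of_eq ?_)
    rw [List.length_cons]
    ring

theorem bd_polyH : ∀ {ys : List (Cut × Nat × Nat)}, okC prev F ys = true →
    Bd (polyH prev F ys) (ys.length * (126 * 2 ^ 40 * (6 * 1048576)))
  | [], _ => by
    have : polyH prev F [] = 0 := by unfold polyH; simp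
    rw [this]
    exact Bd.zero.mono (Nat.zero_le _)
  | (c, n, x) :: l, h => by
    unfold okC at h
    simp only [Bool.and_eq_true] at h
    unfold polyH
    refine (((quart_bd _).mul (bd_V6 h.2.1)).add (bd_polyH h.2.2)).mono (le_of_eq ?_)
    rw [List.length_cons]
    ring

/-- allowed exponents -/
def Allowed (m : E) : Prop := m 0 + m 1 ≤ 3 ∧ m 2 + m 3 ≤ 3 ∧ m 0 + m 2 + m 4 ≤ 3

instance : DecidablePred Allowed := fun m => by unfold Allowed; infer_instance

theorem cAllowed_eq : cAllowed = numE (Ix.filter Allowed) (fun _ => 2 ^ bb - 1) := by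
  have h : maskL 5 (fun l => decide (l.getD 0 0 + l.getD 1 0 ≤ 3 ∧ l.getD 2 0 + l.getD 3 0 ≤ 3 ∧
      l.getD 0 0 + l.getD 2 0 + l.getD 4 0 ≤ 3)) (2 ^ bb - 1) = cAllowed := by decide +kernel
  rw [← h, maskL_eq (Or.inr rfl)]
  refine congrArg (fun J => numE J (fun _ => 2 ^ bb - 1)) ?_
  apply filter_congr
  intro m _
  rw [decide_eq_true_iff]
  simp [toL, Allowed]

theorem cOdd_eq : IsOdd cOdd := by
  have h : maskL 5 (fun l => decide (l.getD 0 0 % 2 = 1 ∨ l.getD 1 0 % 2 = 1 ∨ l.getD 2 0 % 2 = 1 ∨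
      l.getD 3 0 % 2 = 1 ∨ l.getD 4 0 % 2 = 1)) (2 ^ bb - 1) = cOdd := by decide +kernel
  unfold IsOdd
  rw [← h, maskL_eq (Or.inr rfl)]
  refine congrArg (fun J => numE J (fun _ => 2 ^ bb - 1)) ?_
  apply filter_congr
  intro m _
  rw [decide_eq_true_iff]
  simp [toL, OddE]

/-- `(sum X)^4 (mu . X) - sum Y W` -/
noncomputable def polyD (prev : List Facet) (F : Facet) (d : Dual) : MvPolynomial (Fin 6) ℤ :=
  (∑ k, X k) ^ 4 * d.mu.poly - cst (polyW prev F d.ys)

/-- the positive part on allowed exponents -/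
noncomputable def polyU (prev : List Facet) (F : Facet) (d : Dual) : MvPolynomial (Fin 6) ℕ :=
  ∑ m ∈ Ix.filter Allowed, monomial m (coeff m (polyD prev F d)).toNat

/-- `625 (sum Y H + U)` -/
noncomputable def polyP (prev : List Facet) (F : Facet) (d : Dual) : MvPolynomial (Fin 6) ℤ :=
  C 625 * (polyH prev F d.ys + cst (polyU prev F d))

theorem hom_polyD (d : Dual) : (polyD prev F d).IsHomogeneous 5 := by
  have h1 : ((∑ k, X k : MvPolynomial (Fin 6) ℤ) ^ 4).IsHomogeneous 4 := by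
    have := (IsHomogeneous.sum univ (fun k : Fin 6 => (X k : MvPolynomial (Fin 6) ℤ)) 1
      fun k _ => isHomogeneous_X _ _).pow 4
    simpa using this
  exact (h1.mul (hom_lin _)).sub (hom_cst (hom_polyW _))

theorem coeff_polyU (d : Dual) (m : E) : coeff m (polyU prev F d) =
    if m ∈ Ix.filter Allowed then (coeff m (polyD prev F d)).toNat else 0 := by
  unfold polyU
  rw [coeff_sum]
  simp only [coeff_monomial]
  rw [sum_ite_eq']

theorem hom_polyU (d : Dual) : (polyU prev F d).IsHomogeneous 5 := by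
  apply hom_of_support
  intro m hm
  rw [mem_support_iff, coeff_polyU] at hm
  split_ifs at hm with h
  · exact (mem_filter.mp h).1
  · exact absurd rfl hm

theorem hom_polyP (d : Dual) : (polyP prev F d).IsHomogeneous 5 :=
  ((hom_polyH _).add (hom_cst (hom_polyU d))).C_mul _

theorem dualOk_spec {d : Dual} (h : dualOk prev F d = true) :
    d.ys.length ≤ 32 ∧ smallV 1152921504606846976 d.mu = true ∧ okC prev F d.ys = true ∧
      okY d.ys = true := by
  unfold dualOk at h
  simp only [Bool.and_eq_true, Nat.ble_eq] at h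
  exact h

theorem bd_sumX : Bd (∑ k, X k : MvPolynomial (Fin 6) ℤ) 6 := by
  have := Bd.sum univ (fun k : Fin 6 => (X k : MvPolynomial (Fin 6) ℤ)) (fun _ => 1)
    fun k _ => Bd.X k
  simpa using this

theorem bd_polyD {d : Dual} (h : dualOk prev F d = true) : Bd (polyD prev F d) (2 ^ 76) := by
  obtain ⟨h1, h2, h3, _⟩ := dualOk_spec h
  refine (((bd_sumX.pow 4).mul (bd_V6 h2)).sub (bd_polyW h3)).mono ?_
  calc 6 ^ 4 * (6 * 1152921504606846976) + d.ys.length * (126 * 2 ^ 40 * (6 * 1048576)) ≤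
      6 ^ 4 * (6 * 1152921504606846976) + 32 * (126 * 2 ^ 40 * (6 * 1048576)) := by gcongr
    _ ≤ 2 ^ 76 := by norm_num

theorem bd_polyU {d : Dual} (h : dualOk prev F d = true) : Bd (cst (polyU prev F d)) (2 ^ 76) := by
  apply bd_cst
  have h1 := (bd_polyD h).sum_le Ix
  rw [eval_eq_sum (polyU prev F d) (support_of_hom (hom_polyU d))]
  zify
  refine le_trans (sum_le_sum fun m _ => ?_) (by exact_mod_cast h1)
  have : mon (fun _ : Fin 6 => (1 : ℕ)) m = 1 := by simp [mon]
  rw [this]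
  rw [coeff_polyU]
  have h3 := le_abs_self (coeff m (polyD prev F d))
  have h4 := abs_nonneg (coeff m (polyD prev F d))
  split_ifs
  · push_cast
    rw [mul_one]
    omega
  · simpa using h4

theorem bd_polyP {d : Dual} (h : dualOk prev F d = true) : Bd (polyP prev F d) (2 ^ 87) := by
  obtain ⟨h1, h2, h3, _⟩ := dualOk_spec h
  refine ((Bd.C (S := 625) 625 (by norm_num)).mul ((bd_polyH h3).add (bd_polyU h))).mono ?_
  calc 625 * (d.ys.length * (126 * 2 ^ 40 * (6 * 1048576)) + 2 ^ 76) ≤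
      625 * (32 * (126 * 2 ^ 40 * (6 * 1048576)) + 2 ^ 76) := by gcongr
    _ ≤ 2 ^ 87 := by norm_num

theorem lt_aa {p : MvPolynomial (Fin 6) ℤ} {S : ℕ} (h : Bd p S) (hS : S < 2 ^ aa) (m : E) :
    |coeff m p| < 2 ^ aa :=
  lt_of_le_of_lt (h.coeff_le m) (by exact_mod_cast hS)

theorem pk_sub' (p q : MvPolynomial (Fin 6) ℤ) : pk (p - q) = pk p - pk q := by
  unfold pk; exact map_sub _ _ _

theorem XS_int : ((Nat.pow XS 4 : ℕ) : ℤ) = pk ((∑ k, X k : MvPolynomial (Fin 6) ℤ) ^ 4) := by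
  have : (∑ k, X k : MvPolynomial (Fin 6) ℤ) = cst (∑ k, X k) := by
    rw [cst_sum]; exact sum_congr rfl fun k _ => (cst_X k).symm
  rw [pk_pow, this, pk_cst, ← XS_eq]
  push_cast
  rfl

theorem XS_int1 : ((XS : ℕ) : ℤ) = pk ((∑ k, X k : MvPolynomial (Fin 6) ℤ)) := by
  have : (∑ k, X k : MvPolynomial (Fin 6) ℤ) = cst (∑ k, X k) := by
    rw [cst_sum]; exact sum_congr rfl fun k _ => (cst_X k).symm
  rw [this, pk_cst, ← XS_eq]

theorem dualN_eq {d : Dual} (h : dualOk prev F d = true) :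
    dualN prev F d = pk (polyP prev F d) := by
  obtain ⟨h1, h2, h3, h4⟩ := dualOk_spec h
  have hV : dualV prev F d = (pk (polyD prev F d) + ((cOff : ℕ) : ℤ)).toNat := by
    unfold dualV polyD
    rw [pk_sub', pk_mul, ← XS_int, pk_cst, ← packI_eq, ← sumW_eq h4]
    rfl
  have hU : Nat.land (posPart 143 cOff (dualV prev F d)) cAllowed = pk (polyU prev F d) := by
    have e : posPart 143 cOff (dualV prev F d) =
        numE Ix (fun m => (coeff m (polyD prev F d)).toNat) := by
      rw [hV]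
      exact Z_pos (hom_polyD d) off_ok (lt_aa (bd_polyD h) (by norm_num [aa]))
    rw [e]
    change (numE Ix (fun m => (coeff m (polyD prev F d)).toNat)) &&& cAllowed = _
    rw [cAllowed_eq, numE_and (subset_refl _) (filter_subset _ _),
      inter_eq_right.mpr (filter_subset _ _)]
    · unfold polyU
      rw [pk_sum]
      unfold numE
      exact sum_congr rfl fun m _ => by rw [pk_monomial]
    · intro m _
      have := abs_lt.mp (lt_aa (bd_polyD h) (by norm_num [aa]) m)
      have h5 : (2 : ℤ) ^ bb = 2 * 2 ^ aa := by rw [bb_eq, pow_succ]; ring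
      have h6 : (0 : ℤ) < 2 ^ aa := by positivity
      zify
      omega
  unfold dualN polyP
  rw [hU, sumH_eq h4, pk_mul, pk_add, pk_cst, pk_C]
  rfl

/-! ### change to the parameters -/

noncomputable def L5 : MvPolynomial (Fin 6) ℤ := X 5 - (X 0 + X 1 + X 2 + X 3 + X 4)
noncomputable def L1 : MvPolynomial (Fin 6) ℤ := X 1 - X 0
noncomputable def L3 : MvPolynomial (Fin 6) ℤ := X 3 - X 2

theorem l5_eq : l5 = pk L5 := by
  unfold L5 l5
  rw [pk_sub']
  simp only [pk_add]
  rw [← XI_eq X0_eq, ← XI_eq X1_eq, ← XI_eq X2_eq, ← XI_eq X3_eq, ← XI_eq X4_eq, ← XI_eq X5_eq]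
  rfl

theorem l1_eq : l1 = pk L1 := by
  unfold L1 l1
  rw [pk_sub', ← XI_eq X0_eq, ← XI_eq X1_eq]
  rfl

theorem l3_eq : l3 = pk L3 := by
  unfold L3 l3
  rw [pk_sub', ← XI_eq X2_eq, ← XI_eq X3_eq]
  rfl

theorem hom_X (i : Fin 6) : (X i : MvPolynomial (Fin 6) ℤ).IsHomogeneous 1 := isHomogeneous_X _ _

theorem hom_L5 : L5.IsHomogeneous 1 :=
  (hom_X 5).sub (((((hom_X 0).add (hom_X 1)).add (hom_X 2)).add (hom_X 3)).add (hom_X 4))
theorem hom_L1 : L1.IsHomogeneous 1 := (hom_X 1).sub (hom_X 0)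
theorem hom_L3 : L3.IsHomogeneous 1 := (hom_X 3).sub (hom_X 2)

theorem bd_L5 : Bd L5 6 :=
  (Bd.X 5).sub (((((Bd.X 0).add (Bd.X 1)).add (Bd.X 2)).add (Bd.X 3)).add (Bd.X 4))
theorem bd_L1 : Bd L1 2 := (Bd.X 1).sub (Bd.X 0)
theorem bd_L3 : Bd L3 2 := (Bd.X 3).sub (Bd.X 2)

/-- the form in the parameters -/
noncomputable def par (p : MvPolynomial (Fin 6) ℤ) : MvPolynomial (Fin 6) ℤ :=
  subst 3 L3 (subst 1 L1 (subst 5 L5 p))

theorem hom_par (p : MvPolynomial (Fin 6) ℤ) : (par p).IsHomogeneous 5 := hom_subst _ hom_L3 _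

theorem bd_par {p : MvPolynomial (Fin 6) ℤ} (h : Bd p (2 ^ 87)) : Bd (par p) (2 ^ 113) := by
  have h1 : Bd (subst 5 L5 p) (2 ^ 101) := by
    refine (h.subst bd_L5 5).mono ?_
    simp only [sum_range_succ, sum_range_zero]
    norm_num
  have h2 : Bd (subst 1 L1 (subst 5 L5 p)) (2 ^ 107) := by
    refine (h1.subst bd_L1 1).mono ?_
    simp only [sum_range_succ, sum_range_zero]
    norm_num
  refine (h2.subst bd_L3 3).mono ?_
  simp only [sum_range_succ, sum_range_zero]
  norm_num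

theorem toPar_eq {p : MvPolynomial (Fin 6) ℤ} (hp : p.IsHomogeneous 5) (h : Bd p (2 ^ 87)) :
    toPar (pk p) = pk (par p) := by
  have h1 : Bd (subst 5 L5 p) (2 ^ 101) := by
    refine (h.subst bd_L5 5).mono ?_
    simp only [sum_range_succ, sum_range_zero]
    norm_num
  have h2 : Bd (subst 1 L1 (subst 5 L5 p)) (2 ^ 107) := by
    refine (h1.subst bd_L1 1).mono ?_
    simp only [sum_range_succ, sum_range_zero]
    norm_num
  unfold toPar par
  rw [l5_eq, l1_eq, l3_eq,
    conv_eq V5_ok Q5_ok hp (lt_aa h (by norm_num [aa])) off_ok L5,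
    conv_eq V1_ok Q1_ok (hom_subst 5 hom_L5 p) (lt_aa h1 (by norm_num [aa])) off_ok L1,
    conv_eq V3_ok Q3_ok (hom_subst 1 hom_L1 _) (lt_aa h2 (by norm_num [aa])) off_ok L3]

/-- the cell sizes at a parameter vector -/
noncomputable def cells (v : Fin 6 → ℝ) : Fin 6 → ℝ :=
  ![v 0, v 1 - v 0, v 2, v 3 - v 2, v 4, v 5 - v 1 - v 3 - v 4]

theorem aeval_par {p : MvPolynomial (Fin 6) ℤ} (hp : p.IsHomogeneous 5) (v : Fin 6 → ℝ) :
    aeval v (par p) = aeval (cells v) p := by
  unfold par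
  rw [aeval_subst 3 _ _ (hom_subst 1 hom_L1 _), aeval_subst 1 _ _ (hom_subst 5 hom_L5 _),
    aeval_subst 5 _ _ hp]
  congr 2
  unfold L5 L1 L3 cells
  simp only [map_sub, map_add, aeval_X]
  funext k
  fin_cases k
  all_goals simp [Function.update]
  ring

end Pool.Agent.Helper5.B54
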