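import Pool.Agent.Helper5.B54.Sound2

/-!
# Meaning of a leaf
-/

namespace Pool.Agent.Helper5.B54

open Finset MvPolynomial Pool.Agent.Helper65.B54

/-- meaning of a prepared dual vector -/
structure Sem (D2 : ℕ) (P : DP) (p : MvPolynomial (Fin 6) ℤ) : Prop where
  hom : p.IsHomogeneous 5
  norm : ∑ m ∈ Ix, (coeff m p).natAbs ≤ P.K
  g : ∃ g : MvPolynomial (Fin 6) ℕ, g.IsHomogeneous 5 ∧ pk g = P.X ∧
    ∀ v : Fin 6 → ℝ, aeval v g = aeval (Function.update v 5 (D2 * v 5)) p +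
      P.K * (∑ k, Function.update v 5 (D2 * v 5) k) ^ 5

theorem bbm : (22300745198530623141535718272648361505980415 : ℕ) = 2 ^ bb - 1 := by
  norm_num [bb]

theorem bbl : (22300745198530623141535718272648361505980416 : ℕ) = 2 ^ bb := by
  norm_num [bb]

theorem aal : (11150372599265311570767859136324180752990207 : ℕ) = 2 ^ aa - 1 := by
  norm_num [aa]

theorem hom_sumX5 : ((∑ k, X k : MvPolynomial (Fin 6) ℤ) ^ 5).IsHomogeneous 5 := by
  have := (IsHomogeneous.sum univ (fun k : Fin 6 => (X k : MvPolynomial (Fin 6) ℤ)) 1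
    fun k _ => isHomogeneous_X _ _).pow 5
  simpa using this

theorem coeff_zero_of_hom {p : MvPolynomial (Fin 6) ℤ} (hp : p.IsHomogeneous 5) {m : E}
    (hm : m ∉ Ix) : coeff m p = 0 := by
  by_contra h
  exact hm (support_of_hom hp (mem_support_iff.mpr h))

theorem normP_eq {p : MvPolynomial (Fin 6) ℤ} (hp : p.IsHomogeneous 5) (hb : Bd p (2 ^ 113)) :
    normP (pk p) = ∑ m ∈ Ix, (coeff m p).natAbs := by
  have h1 := sum_natAbs_lt Ix (hb.sum_le Ix)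
  have h2 := norm_eq hp off_ok (lt_aa hb (by norm_num [aa]))
    (lt_of_le_of_lt h1 (by norm_num [bb]))
  rw [← h2, ← bbm]
  rfl

theorem prepN_sem (D2 : ℕ) {p : MvPolynomial (Fin 6) ℤ} (hp : p.IsHomogeneous 5)
    (hb : Bd p (2 ^ 113)) (mu : V6) : Sem D2 (prepN D2 (pk p) mu) p := by
  have hK := normP_eq hp hb
  have h1 := sum_natAbs_lt Ix (hb.sum_le Ix)
  set K : ℕ := normP (pk p) with hKdef
  have hK2 : K ≤ 2 ^ 113 := by rw [hK]; exact h1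
  set q : MvPolynomial (Fin 6) ℤ := p + C (K : ℤ) * (∑ k, X k) ^ 5 with hq
  have hqhom : q.IsHomogeneous 5 := hp.add (hom_sumX5.C_mul _)
  have hqbd : Bd q (2 ^ 113 + 2 ^ 113 * 6 ^ 5) := by
    refine (hb.add ((Bd.C (S := K) K (by simp)).mul (bd_sumX.pow 5))).mono ?_
    exact Nat.add_le_add_left (Nat.mul_le_mul_right _ hK2) _
  have hqpos : ∀ m, 0 ≤ coeff m q := by
    intro m
    by_cases hm : m ∈ Ix
    · rw [hq, coeff_add, coeff_C_mul, coeff_sum_pow]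
      have h2 : (coeff m p).natAbs ≤ K := by
        rw [hK]
        exact single_le_sum (f := fun m => (coeff m p).natAbs) (fun _ _ => Nat.zero_le _) hm
      have h3 : 1 ≤ cnt 5 m := cnt_pos (mem_IxN.mp hm)
      have h4 : (K : ℤ) * 1 ≤ (K : ℤ) * (cnt 5 m : ℤ) := by
        apply mul_le_mul_of_nonneg_left _ (Int.natCast_nonneg _)
        exact_mod_cast h3
      omega
    · rw [coeff_zero_of_hom hqhom hm]
  set g : MvPolynomial (Fin 6) ℕ := ∑ m ∈ Ix, monomial m (coeff m q).toNat with hg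
  have hgc : ∀ m, coeff m g = (coeff m q).toNat := by
    intro m
    rw [hg, coeff_sum]
    simp only [coeff_monomial]
    rw [sum_ite_eq']
    split_ifs with hm
    · rfl
    · rw [coeff_zero_of_hom hqhom hm]; rfl
  have hgq : cst g = q := by
    ext m
    rw [coeff_cst, hgc]
    exact Int.toNat_of_nonneg (hqpos m)
  have hghom : g.IsHomogeneous 5 := by
    apply hom_of_support
    intro m hm
    by_contra hcon
    rw [mem_support_iff, hgc, coeff_zero_of_hom hqhom hcon] at hm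
    exact hm rfl
  have hgbd : ∀ m, coeff m g < 2 ^ bb := by
    intro m
    have h2 := hqbd.coeff_le m
    rw [hgc]
    have h3 : (coeff m q).toNat ≤ (coeff m q).natAbs := by omega
    have h4 : ((coeff m q).natAbs : ℤ) ≤ (2 ^ 113 + 2 ^ 113 * 6 ^ 5 : ℕ) := by
      rw [Int.natCast_natAbs]; exact h2
    have h5 : (coeff m q).natAbs ≤ 2 ^ 113 + 2 ^ 113 * 6 ^ 5 := by exact_mod_cast h4
    exact lt_of_le_of_lt (h3.trans h5) (by norm_num [bb])
  have hgpk : Int.toNat (Int.add (pk p) (Int.ofNat (Nat.mul K (Nat.pow XS 5)))) = pk g := by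
    have h2 : (pk p + ((K * XS ^ 5 : ℕ) : ℤ)) = ((pk g : ℕ) : ℤ) := by
      rw [← pk_cst, hgq, hq, pk_add, pk_mul, pk_C, pk_pow, ← XS_int1]
      push_cast
      rfl
    change (pk p + ((K * XS ^ 5 : ℕ) : ℤ)).toNat = _
    rw [h2, Int.toNat_natCast]
  have hval : ∀ v : Fin 6 → ℝ, aeval v (subst 5 (lin 5 D2 0) g) =
      aeval (Function.update v 5 (D2 * v 5)) p +
      K * (∑ k, Function.update v 5 (D2 * v 5) k) ^ 5 := by
    intro v
    rw [aeval_subst 5 _ _ hghom]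
    have e1 : aeval v (lin 5 D2 0) = D2 * v 5 := by
      unfold lin
      simp
    rw [e1, ← aeval_cst, hgq, hq]
    simp
  have hK3 : (prepN D2 (pk p) mu).K = K := rfl
  refine ⟨hp, by rw [hK3, hK], subst 5 (lin 5 D2 0) g, hom_subst 5 (lin_hom 5 D2 0) g, ?_, ?_⟩
  · unfold prepN
    rw [← diag_eq V5_ok hghom hgbd]
    rw [← hKdef, hgpk]
  · intro v
    rw [hval]
    rfl

/-- bound for the value of a form -/
theorem aeval_le {p : MvPolynomial (Fin 6) ℤ} (hp : p.IsHomogeneous 5) {K : ℕ}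
    (hK : ∑ m ∈ Ix, (coeff m p).natAbs ≤ K) {w : Fin 6 → ℝ} (hw : ∀ k, 0 ≤ w k) :
    aeval w p ≤ K * (∑ k, w k) ^ 5 := by
  rw [aeval_eq_sum p (support_of_hom hp)]
  have hS : 0 ≤ ∑ k, w k := sum_nonneg fun k _ => hw k
  calc ∑ m ∈ IxN 5, (algebraMap ℤ ℝ) (coeff m p) * mon w m
      ≤ ∑ m ∈ IxN 5, (((coeff m p).natAbs : ℕ) : ℝ) * (∑ k, w k) ^ 5 := by
        refine sum_le_sum fun m hm => ?_
        have h5 : 0 ≤ mon w m := by
          unfold mon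
          exact prod_nonneg fun k _ => pow_nonneg (hw k) _
        have h6 : mon w m ≤ (∑ k, w k) ^ 5 := by
          rw [mem_IxN] at hm
          have e : (∑ k, w k) ^ 5 = (∑ k, w k) ^ (∑ i, m i) := by rw [hm]
          rw [e, ← prod_pow_eq_pow_sum]
          unfold mon
          refine prod_le_prod (fun k _ => pow_nonneg (hw k) _) fun k _ => ?_
          apply pow_le_pow_left₀ (hw k)
          exact single_le_sum (f := w) (fun i _ => hw i) (mem_univ k)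
        have h7 : (algebraMap ℤ ℝ) (coeff m p) ≤ (((coeff m p).natAbs : ℕ) : ℝ) := by
          rw [eq_intCast, Nat.cast_natAbs]
          exact_mod_cast le_abs_self _
        calc _ ≤ (((coeff m p).natAbs : ℕ) : ℝ) * mon w m := mul_le_mul_of_nonneg_right h7 h5
          _ ≤ _ := mul_le_mul_of_nonneg_left h6 (Nat.cast_nonneg _)
    _ = ((∑ m ∈ IxN 5, (coeff m p).natAbs : ℕ) : ℝ) * (∑ k, w k) ^ 5 := by
        rw [← sum_mul]
        push_cast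
        rfl
    _ ≤ K * (∑ k, w k) ^ 5 := by
        refine mul_le_mul_of_nonneg_right ?_ (pow_nonneg hS _)
        exact_mod_cast hK

/-! ### boxes and linear forms -/

/-- `2 D` times the parameters lie in the box -/
structure Box.Mem (D2 : ℕ) (b : Box) (v : Fin 6 → ℝ) : Prop where
  l0 : 2 * (b.l0 : ℝ) ≤ D2 * v 0
  h0 : D2 * v 0 ≤ 2 * (b.h0 : ℝ)
  l1 : 2 * (b.l1 : ℝ) ≤ D2 * v 1
  h1 : D2 * v 1 ≤ 2 * (b.h1 : ℝ)
  l2 : 2 * (b.l2 : ℝ) ≤ D2 * v 2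
  h2 : D2 * v 2 ≤ 2 * (b.h2 : ℝ)
  l3 : 2 * (b.l3 : ℝ) ≤ D2 * v 3
  h3 : D2 * v 3 ≤ 2 * (b.h3 : ℝ)
  l4 : 2 * (b.l4 : ℝ) ≤ D2 * v 4
  h4 : D2 * v 4 ≤ 2 * (b.h4 : ℝ)

/-- value of a linear form -/
noncomputable def V6.val (a : V6) (v : Fin 6 → ℝ) : ℝ :=
  a.a0 * v 0 + a.a1 * v 1 + a.a2 * v 2 + a.a3 * v 3 + a.a4 * v 4 + a.a5 * v 5

/-- normalised coordinate -/
noncomputable def tc (l h : ℕ) (x : ℝ) : ℝ :=
  if h ≤ l then 0 else (x - (l + h)) / (h - l)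

theorem tc_abs {l h : ℕ} {x : ℝ} (h1 : 2 * (l : ℝ) ≤ x) (h2 : x ≤ 2 * (h : ℝ)) :
    |tc l h x| ≤ 1 := by
  unfold tc
  split_ifs with hc
  · simp
  · push Not at hc
    have h3 : (0 : ℝ) < h - l := by
      have : (l : ℝ) < h := by exact_mod_cast hc
      linarith
    rw [abs_div, abs_of_pos h3, div_le_one h3, abs_le]
    constructor <;> linarith

theorem tc_eq {l h : ℕ} {x : ℝ} (h1 : 2 * (l : ℝ) ≤ x) (h2 : x ≤ 2 * (h : ℝ)) :
    ((Nat.add l h : ℕ) : ℝ) + ((Nat.sub h l : ℕ) : ℝ) * tc l h x = x := by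
  change ((l + h : ℕ) : ℝ) + ((h - l : ℕ) : ℝ) * tc l h x = x
  have hlh : l ≤ h := by
    have : (2 : ℝ) * l ≤ 2 * h := h1.trans h2
    have : (l : ℝ) ≤ h := by linarith
    exact_mod_cast this
  unfold tc
  split_ifs with hc
  · have : l = h := le_antisymm hlh hc
    subst this
    push_cast
    simp
    linarith
  · push Not at hc
    have h3 : (0 : ℝ) < h - l := by
      have : (l : ℝ) < h := by exact_mod_cast hc
      linarith
    rw [Nat.cast_sub hlh]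
    push_cast
    field_simp
    ring

theorem mul_tc_le {a : ℤ} {l h : ℕ} {x : ℝ} (h1 : 2 * (l : ℝ) ≤ x) (h2 : x ≤ 2 * (h : ℝ)) :
    (a : ℝ) * (((Nat.sub h l : ℕ) : ℝ) * tc l h x) ≤ ((Nat.mul a.natAbs (Nat.sub h l) : ℕ) : ℝ) := by
  change _ ≤ ((a.natAbs * Nat.sub h l : ℕ) : ℝ)
  rw [Nat.cast_mul, Nat.cast_natAbs]
  have h3 := abs_le.mp (tc_abs h1 h2)
  have h4 : (0 : ℝ) ≤ ((Nat.sub h l : ℕ) : ℝ) := Nat.cast_nonneg _
  calc (a : ℝ) * (((Nat.sub h l : ℕ) : ℝ) * tc l h x) ≤ |(a : ℝ) * (((Nat.sub h l : ℕ) : ℝ) * tc l h x)| :=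
        le_abs_self _
    _ = |(a : ℝ)| * (((Nat.sub h l : ℕ) : ℝ) * |tc l h x|) := by
        rw [abs_mul, abs_mul, abs_of_nonneg h4]
    _ ≤ |(a : ℝ)| * (((Nat.sub h l : ℕ) : ℝ) * 1) := by
        apply mul_le_mul_of_nonneg_left _ (abs_nonneg _)
        exact mul_le_mul_of_nonneg_left (tc_abs h1 h2) h4
    _ = _ := by push_cast; ring

/-- the normalised point -/
noncomputable def tv (D2 : ℕ) (b : Box) (v : Fin 6 → ℝ) : Fin 6 → ℝ :=
  ![tc b.l0 b.h0 (D2 * v 0), tc b.l1 b.h1 (D2 * v 1), tc b.l2 b.h2 (D2 * v 2),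
    tc b.l3 b.h3 (D2 * v 3), tc b.l4 b.h4 (D2 * v 4), 1]

theorem cval_eq (D2 : ℕ) (a : V6) (b : Box) : ((cval D2 a b : ℤ) : ℝ) =
    a.a0 * ((Nat.add b.l0 b.h0 : ℕ) : ℝ) + a.a1 * ((Nat.add b.l1 b.h1 : ℕ) : ℝ) +
    a.a2 * ((Nat.add b.l2 b.h2 : ℕ) : ℝ) + a.a3 * ((Nat.add b.l3 b.h3 : ℕ) : ℝ) +
    a.a4 * ((Nat.add b.l4 b.h4 : ℕ) : ℝ) + a.a5 * D2 := by
  have h : cval D2 a b = a.a0 * ((Nat.add b.l0 b.h0 : ℕ) : ℤ) + a.a1 * ((Nat.add b.l1 b.h1 : ℕ) : ℤ) +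
    a.a2 * ((Nat.add b.l2 b.h2 : ℕ) : ℤ) + a.a3 * ((Nat.add b.l3 b.h3 : ℕ) : ℤ) +
    a.a4 * ((Nat.add b.l4 b.h4 : ℕ) : ℤ) + a.a5 * (D2 : ℤ) := rfl
  rw [h]
  push_cast
  ring

/-- `D2` times the value of a linear form -/
theorem val_eq (D2 : ℕ) (a : V6) {b : Box} {v : Fin 6 → ℝ} (hb : b.Mem D2 v) (h5 : v 5 = 1) :
    D2 * a.val v = ((cval D2 a b : ℤ) : ℝ) +
      (a.a0 * (((Nat.sub b.h0 b.l0 : ℕ) : ℝ) * tc b.l0 b.h0 (D2 * v 0)) +
      a.a1 * (((Nat.sub b.h1 b.l1 : ℕ) : ℝ) * tc b.l1 b.h1 (D2 * v 1)) +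
      a.a2 * (((Nat.sub b.h2 b.l2 : ℕ) : ℝ) * tc b.l2 b.h2 (D2 * v 2)) +
      a.a3 * (((Nat.sub b.h3 b.l3 : ℕ) : ℝ) * tc b.l3 b.h3 (D2 * v 3)) +
      a.a4 * (((Nat.sub b.h4 b.l4 : ℕ) : ℝ) * tc b.l4 b.h4 (D2 * v 4))) := by
  rw [cval_eq]
  unfold V6.val
  rw [h5]
  have e0 := tc_eq hb.l0 hb.h0
  have e1 := tc_eq hb.l1 hb.h1
  have e2 := tc_eq hb.l2 hb.h2
  have e3 := tc_eq hb.l3 hb.h3
  have e4 := tc_eq hb.l4 hb.h4
  linear_combination (-(a.a0 : ℝ)) * e0 - (a.a1 : ℝ) * e1 - (a.a2 : ℝ) * e2 - (a.a3 : ℝ) * e3 -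
    (a.a4 : ℝ) * e4

/-- upper bound of a linear form on a box -/
theorem val_le (D2 : ℕ) (a : V6) {b : Box} {v : Fin 6 → ℝ} (hb : b.Mem D2 v) (h5 : v 5 = 1) :
    D2 * a.val v ≤ ((cval D2 a b : ℤ) : ℝ) + (rval a b : ℝ) := by
  rw [val_eq D2 a hb h5]
  have e0 := mul_tc_le (a := a.a0) hb.l0 hb.h0
  have e1 := mul_tc_le (a := a.a1) hb.l1 hb.h1
  have e2 := mul_tc_le (a := a.a2) hb.l2 hb.h2
  have e3 := mul_tc_le (a := a.a3) hb.l3 hb.h3
  have e4 := mul_tc_le (a := a.a4) hb.l4 hb.h4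
  have hr : (rval a b : ℝ) = ((Nat.mul a.a0.natAbs (Nat.sub b.h0 b.l0) : ℕ) : ℝ) +
      ((Nat.mul a.a1.natAbs (Nat.sub b.h1 b.l1) : ℕ) : ℝ) +
      ((Nat.mul a.a2.natAbs (Nat.sub b.h2 b.l2) : ℕ) : ℝ) +
      ((Nat.mul a.a3.natAbs (Nat.sub b.h3 b.l3) : ℕ) : ℝ) +
      ((Nat.mul a.a4.natAbs (Nat.sub b.h4 b.l4) : ℕ) : ℝ) := by
    rw [← Nat.cast_add, ← Nat.cast_add, ← Nat.cast_add, ← Nat.cast_add]
    rfl
  rw [hr]
  linarith

theorem mul_tc_ge {a : ℤ} {l h : ℕ} {x : ℝ} (h1 : 2 * (l : ℝ) ≤ x) (h2 : x ≤ 2 * (h : ℝ)) :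
    -((Nat.mul a.natAbs (Nat.sub h l) : ℕ) : ℝ) ≤ (a : ℝ) * (((Nat.sub h l : ℕ) : ℝ) * tc l h x) := by
  have := mul_tc_le (a := -a) h1 h2
  rw [Int.natAbs_neg] at this
  push_cast at this
  linarith

theorem val_ge (D2 : ℕ) (a : V6) {b : Box} {v : Fin 6 → ℝ} (hb : b.Mem D2 v) (h5 : v 5 = 1) :
    ((cval D2 a b : ℤ) : ℝ) - (rval a b : ℝ) ≤ D2 * a.val v := by
  rw [val_eq D2 a hb h5]
  have e0 := mul_tc_ge (a := a.a0) hb.l0 hb.h0
  have e1 := mul_tc_ge (a := a.a1) hb.l1 hb.h1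
  have e2 := mul_tc_ge (a := a.a2) hb.l2 hb.h2
  have e3 := mul_tc_ge (a := a.a3) hb.l3 hb.h3
  have e4 := mul_tc_ge (a := a.a4) hb.l4 hb.h4
  have hr : (rval a b : ℝ) = ((Nat.mul a.a0.natAbs (Nat.sub b.h0 b.l0) : ℕ) : ℝ) +
      ((Nat.mul a.a1.natAbs (Nat.sub b.h1 b.l1) : ℕ) : ℝ) +
      ((Nat.mul a.a2.natAbs (Nat.sub b.h2 b.l2) : ℕ) : ℝ) +
      ((Nat.mul a.a3.natAbs (Nat.sub b.h3 b.l3) : ℕ) : ℝ) +
      ((Nat.mul a.a4.natAbs (Nat.sub b.h4 b.l4) : ℕ) : ℝ) := by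
    rw [← Nat.cast_add, ← Nat.cast_add, ← Nat.cast_add, ← Nat.cast_add]
    rfl
  rw [hr]
  linarith

theorem nonneg_spec {z : ℤ} (h : nonneg z = true) : 0 ≤ z := by
  cases z with
  | ofNat n => exact Int.natCast_nonneg n
  | negSucc n => simp [nonneg] at h

theorem addMul_val (a : V6) (k : ℤ) (b : V6) (v : Fin 6 → ℝ) :
    (addMul a k b).val v = a.val v + k * b.val v := by
  unfold V6.val addMul
  have e : ∀ x y : ℤ, ((Int.add x (Int.mul k y) : ℤ) : ℝ) = x + k * y := by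
    intro x y
    change ((x + k * y : ℤ) : ℝ) = _
    push_cast
    ring
  simp only [e]
  ring

theorem zeroV_val (v : Fin 6 → ℝ) : zeroV.val v = 0 := by
  unfold V6.val zeroV; simp

theorem getD_val {cs : List V6} {v : Fin 6 → ℝ} (h : ∀ c ∈ cs, 0 ≤ c.val v) (i : ℕ) :
    0 ≤ (cs.getD i zeroV).val v := by
  by_cases hi : i < cs.length
  · rw [List.getD_eq_getElem _ _ hi]
    exact h _ (List.getElem_mem hi)
  · rw [List.getD_eq_default _ _ (by omega), zeroV_val]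

theorem comb_val {cs : List V6} {v : Fin 6 → ℝ} (h : ∀ c ∈ cs, 0 ≤ c.val v) :
    ∀ (lam : List (Nat × Nat)) (a : V6), a.val v ≤ (comb cs a lam).val v
  | [], a => le_refl _
  | (i, k) :: l, a => by
    unfold comb
    refine le_trans ?_ (comb_val h l _)
    rw [addMul_val]
    have h1 := getD_val h i
    have h2 : (0 : ℝ) ≤ ((Int.ofNat k : ℤ) : ℝ) := by
      change (0 : ℝ) ≤ (((k : ℕ) : ℤ) : ℝ)
      positivity
    have := mul_nonneg h2 h1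
    linarith

theorem comb_val_own {cs : List V6} {v : Fin 6 → ℝ} (h : ∀ c ∈ cs, 0 ≤ c.val v)
    (h0 : 0 < (cs.getD 0 zeroV).val v) :
    ∀ (lam : List (Nat × Nat)) (a : V6), ownPos lam = true → a.val v < (comb cs a lam).val v
  | [], a, hl => by simp [ownPos] at hl
  | (i, k) :: l, a, hl => by
    unfold ownPos at hl
    unfold comb
    rw [Bool.or_eq_true, Bool.and_eq_true, Nat.beq_eq, Nat.ble_eq] at hl
    have h1 := getD_val h i
    have h2 : (0 : ℝ) ≤ ((Int.ofNat k : ℤ) : ℝ) := by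
      change (0 : ℝ) ≤ (((k : ℕ) : ℤ) : ℝ)
      positivity
    have h3 := mul_nonneg h2 h1
    rcases hl with ⟨rfl, hk⟩ | hl
    · refine lt_of_lt_of_le ?_ (comb_val h l _)
      rw [addMul_val]
      have h4 : (0 : ℝ) < ((Int.ofNat k : ℤ) : ℝ) := by
        have : (0 : ℤ) < (Int.ofNat k : ℤ) := by
          change (0 : ℤ) < (k : ℤ)
          exact_mod_cast hk
        exact_mod_cast this
      have := mul_pos h4 h0
      linarith
    · refine lt_of_le_of_lt ?_ (comb_val_own h h0 l _ hl)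
      rw [addMul_val]
      linarith

/-- an empty leaf -/
theorem leafEmpty_sound {strict : Bool} {D2 : ℕ} {cs : List V6} {lam : List (Nat × Nat)} {b : Box}
    (h : leafEmpty strict D2 cs lam b = true) {v : Fin 6 → ℝ} (h5 : v 5 = 1) (hb : b.Mem D2 v)
    (hcs : ∀ c ∈ cs, 0 ≤ c.val v) (h0 : strict = true → 0 < (cs.getD 0 zeroV).val v)
    (hD : 0 < D2) : False := by
  unfold leafEmpty at h
  set a : V6 := comb cs zeroV lam with ha
  have h1 := val_le D2 a hb h5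
  have h2 := comb_val hcs lam zeroV
  rw [zeroV_val, ← ha] at h2
  have hDR : (0 : ℝ) < D2 := by exact_mod_cast hD
  rw [Bool.or_eq_true, Bool.and_eq_true, Bool.and_eq_true] at h
  rcases h with h | ⟨hs, ho, h⟩
  · have h3 := nonneg_spec h
    have h4 : (0 : ℤ) ≤ -1 - (cval D2 a b + (rval a b : ℤ)) := h3
    have h5 : ((cval D2 a b : ℤ) : ℝ) + (rval a b : ℝ) ≤ -1 := by
      have : cval D2 a b + (rval a b : ℤ) ≤ -1 := by omega
      exact_mod_cast this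
    have := mul_nonneg hDR.le h2
    linarith
  · have h3 := nonneg_spec h
    have h4 : (0 : ℤ) ≤ - (cval D2 a b + (rval a b : ℤ)) := h3
    have h5 : ((cval D2 a b : ℤ) : ℝ) + (rval a b : ℝ) ≤ 0 := by
      have : cval D2 a b + (rval a b : ℤ) ≤ 0 := by omega
      exact_mod_cast this
    have h6 := comb_val_own hcs (h0 hs) lam zeroV ho
    rw [zeroV_val, ← ha] at h6
    have := mul_pos hDR h6
    linarith

end Pool.Agent.Helper5.B54
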