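import Pool.Agent.Helper5.B54.Sound3

/-!
# Meaning of a killed leaf
-/

namespace Pool.Agent.Helper5.B54

open Finset MvPolynomial Pool.Agent.Helper65.B54

/-- the linear form `lval` -/
noncomputable def linP (D2 : ℕ) (a : V6) (b : Box) : MvPolynomial (Fin 6) ℤ :=
  C (a.a0 * (Nat.sub b.h0 b.l0 : ℕ)) * X 0 + C (a.a1 * (Nat.sub b.h1 b.l1 : ℕ)) * X 1 +
  C (a.a2 * (Nat.sub b.h2 b.l2 : ℕ)) * X 2 + C (a.a3 * (Nat.sub b.h3 b.l3 : ℕ)) * X 3 +
  C (a.a4 * (Nat.sub b.h4 b.l4 : ℕ)) * X 4 + C (cval D2 a b) * X 5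

/-- the linear form `lsum` -/
noncomputable def sumP (D2 : ℕ) (b : Box) : MvPolynomial (Fin 6) ℤ :=
  C ((Nat.sub b.h0 b.l0 : ℕ) : ℤ) * X 0 + C ((Nat.sub b.h1 b.l1 : ℕ) : ℤ) * X 1 +
  C ((Nat.sub b.h2 b.l2 : ℕ) : ℤ) * X 2 + C ((Nat.sub b.h3 b.l3 : ℕ) : ℤ) * X 3 +
  C ((Nat.sub b.h4 b.l4 : ℕ) : ℤ) * X 4 +
  C (((Nat.add b.l0 b.h0 + Nat.add b.l1 b.h1 + Nat.add b.l2 b.h2 + Nat.add b.l3 b.h3 +
    Nat.add b.l4 b.h4 + D2 : ℕ)) : ℤ) * X 5

theorem hom_CX (c : ℤ) (i : Fin 6) : (C c * X i : MvPolynomial (Fin 6) ℤ).IsHomogeneous 1 :=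
  isHomogeneous_C_mul_X _ _

theorem hom_linP (D2 : ℕ) (a : V6) (b : Box) : (linP D2 a b).IsHomogeneous 1 :=
  (((((hom_CX _ _).add (hom_CX _ _)).add (hom_CX _ _)).add (hom_CX _ _)).add (hom_CX _ _)).add
    (hom_CX _ _)

theorem hom_sumP (D2 : ℕ) (b : Box) : (sumP D2 b).IsHomogeneous 1 :=
  (((((hom_CX _ _).add (hom_CX _ _)).add (hom_CX _ _)).add (hom_CX _ _)).add (hom_CX _ _)).add
    (hom_CX _ _)

theorem pk_linP (D2 : ℕ) (a : V6) (b : Box) : pk (linP D2 a b) = lval D2 a b := by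
  unfold linP
  simp only [pk_add, pk_mul, pk_C]
  rw [← XI_eq X0_eq, ← XI_eq X1_eq, ← XI_eq X2_eq, ← XI_eq X3_eq, ← XI_eq X4_eq, ← XI_eq X5_eq]
  unfold lval
  change _ = a.a0 * ((Nat.sub b.h0 b.l0 : ℕ) : ℤ) * (X0 : ℤ) +
    a.a1 * ((Nat.sub b.h1 b.l1 : ℕ) : ℤ) * (X1 : ℤ) + a.a2 * ((Nat.sub b.h2 b.l2 : ℕ) : ℤ) * (X2 : ℤ) +
    a.a3 * ((Nat.sub b.h3 b.l3 : ℕ) : ℤ) * (X3 : ℤ) + a.a4 * ((Nat.sub b.h4 b.l4 : ℕ) : ℤ) * (X4 : ℤ) +
    cval D2 a b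
  simp

theorem pk_sumP (D2 : ℕ) (b : Box) : pk (sumP D2 b) = ((lsum D2 b : ℕ) : ℤ) := by
  unfold sumP
  simp only [pk_add, pk_mul, pk_C]
  rw [← XI_eq X0_eq, ← XI_eq X1_eq, ← XI_eq X2_eq, ← XI_eq X3_eq, ← XI_eq X4_eq, ← XI_eq X5_eq]
  have : lsum D2 b = Nat.sub b.h0 b.l0 * X0 + Nat.sub b.h1 b.l1 * X1 + Nat.sub b.h2 b.l2 * X2 +
      Nat.sub b.h3 b.l3 * X3 + Nat.sub b.h4 b.l4 * X4 +
      (Nat.add b.l0 b.h0 + Nat.add b.l1 b.h1 + Nat.add b.l2 b.h2 + Nat.add b.l3 b.h3 +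
        Nat.add b.l4 b.h4 + D2) := rfl
  rw [this]
  push_cast
  ring

theorem bd_linP (D2 : ℕ) (a : V6) (b : Box) :
    Bd (linP D2 a b) (Nat.add (cval D2 a b).natAbs (rval a b)) := by
  have hB : ∀ (c : ℤ) (i : Fin 6) (S : ℕ), |c| ≤ S → Bd (C c * X i) S := by
    intro c i S h
    have := (Bd.C c h).mul (Bd.X i)
    simpa using this
  have e : ∀ (x : ℤ) (n : ℕ), |x * (n : ℤ)| ≤ ((Nat.mul x.natAbs n : ℕ) : ℤ) := by
    intro x n
    change _ ≤ ((x.natAbs * n : ℕ) : ℤ)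
    rw [abs_mul]
    push_cast
    simp
  have h := ((((((hB _ 0 _ (e a.a0 (Nat.sub b.h0 b.l0))).add (hB _ 1 _ (e a.a1 (Nat.sub b.h1 b.l1)))).add
    (hB _ 2 _ (e a.a2 (Nat.sub b.h2 b.l2)))).add (hB _ 3 _ (e a.a3 (Nat.sub b.h3 b.l3)))).add
    (hB _ 4 _ (e a.a4 (Nat.sub b.h4 b.l4)))).add (hB (cval D2 a b) 5 (cval D2 a b).natAbs (by simp)))
  refine h.mono (le_of_eq ?_)
  change rval a b + (cval D2 a b).natAbs = (cval D2 a b).natAbs + rval a b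
  ring

/-- the upper ends dominate -/
theorem cr_le {l h : ℕ} (hlh : l ≤ h) : Nat.add l h + Nat.sub h l = 2 * h := by
  change l + h + (h - l) = 2 * h
  omega

theorem bd_sumP (D2 : ℕ) {b : Box} (h0 : b.l0 ≤ b.h0) (h1 : b.l1 ≤ b.h1) (h2 : b.l2 ≤ b.h2)
    (h3 : b.l3 ≤ b.h3) (h4 : b.l4 ≤ b.h4) : Bd (sumP D2 b) (rho D2 b) := by
  have hB : ∀ (c : ℕ) (i : Fin 6), Bd (C (c : ℤ) * X i) c := by
    intro c i
    have := (Bd.C (S := c) (c : ℤ) (by simp)).mul (Bd.X i)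
    simpa using this
  have h := (((((hB (Nat.sub b.h0 b.l0) 0).add (hB (Nat.sub b.h1 b.l1) 1)).add
    (hB (Nat.sub b.h2 b.l2) 2)).add (hB (Nat.sub b.h3 b.l3) 3)).add (hB (Nat.sub b.h4 b.l4) 4)).add
    (hB (Nat.add b.l0 b.h0 + Nat.add b.l1 b.h1 + Nat.add b.l2 b.h2 + Nat.add b.l3 b.h3 +
    Nat.add b.l4 b.h4 + D2) 5)
  refine h.mono ?_
  have e : rho D2 b = D2 + 2 * b.h0 + 2 * b.h1 + 2 * b.h2 + 2 * b.h3 + (2 * b.h4 + 5) := rfl
  have a0 := cr_le h0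
  have a1 := cr_le h1
  have a2 := cr_le h2
  have a3 := cr_le h3
  have a4 := cr_le h4
  omega

/-- weights of the variables in the successive stages -/
def wt (b : Box) (k : ℕ) : Fin 6 → ℕ :=
  ![if k ≤ 0 then 2 * b.h0 + 1 else 1, if k ≤ 1 then 2 * b.h1 + 1 else 1,
    if k ≤ 2 then 2 * b.h2 + 1 else 1, if k ≤ 3 then 2 * b.h3 + 1 else 1,
    if k ≤ 4 then 2 * b.h4 + 1 else 1, 1]

theorem wt_pos (b : Box) (k : ℕ) (i : Fin 6) : 1 ≤ wt b k i := by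
  fin_cases i <;> simp only [wt] <;> simp
  all_goals split_ifs <;> omega

theorem stage {V : VarD} {i : Fin 6} (hV : V.Ok i) (b : Box) (k : ℕ) (hi : i.val = k) (hk : k < 5)
    {l h : ℕ} (hw : wt b k i = 2 * h + 1) (hlh : l ≤ h)
    {g : MvPolynomial (Fin 6) ℕ} (hg : g.IsHomogeneous 5) (hbd : eval (wt b k) g < 2 ^ bb) :
    diag V (Nat.add l h) (Nat.sub h l) (pk g) = pk (subst i (lin i (Nat.add l h) (Nat.sub h l)) g) ∧
      eval (wt b (k + 1)) (subst i (lin i (Nat.add l h) (Nat.sub h l)) g) ≤ eval (wt b k) g := by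
  constructor
  · exact diag_eq hV hg (fun m => lt_of_le_of_lt (coeff_le_eval g (wt_pos b k) m) hbd) _ _
  · rw [eval_subst_nat i _ _ hg]
    apply eval_mono
    intro j
    have e : eval (wt b (k + 1)) (lin i (Nat.add l h) (Nat.sub h l)) = 2 * h := by
      have e1 : wt b (k + 1) 5 = 1 := rfl
      have e2 : wt b (k + 1) i = 1 := by
        subst hi
        revert hk
        fin_cases i <;> simp [wt]
      unfold lin
      simp only [map_add, map_mul, eval_C, eval_X, e1, e2, mul_one]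
      exact cr_le hlh
    by_cases hj : j = i
    · subst hj
      rw [Function.update_self, e, hw]
      omega
    · rw [Function.update_of_ne hj]
      subst hi
      revert hj hk
      fin_cases i <;> fin_cases j <;> simp [wt]

theorem Box.Mem.le {D2 : ℕ} {b : Box} {v : Fin 6 → ℝ} (hb : b.Mem D2 v) :
    b.l0 ≤ b.h0 ∧ b.l1 ≤ b.h1 ∧ b.l2 ≤ b.h2 ∧ b.l3 ≤ b.h3 ∧ b.l4 ≤ b.h4 := by
  have e : ∀ {l h : ℕ} {x : ℝ}, 2 * (l : ℝ) ≤ x → x ≤ 2 * (h : ℝ) → l ≤ h := by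
    intro l h x h1 h2
    have : (l : ℝ) ≤ h := by linarith
    exact_mod_cast this
  exact ⟨e hb.l0 hb.h0, e hb.l1 hb.h1, e hb.l2 hb.h2, e hb.l3 hb.h3, e hb.l4 hb.h4⟩

/-- homogeneity -/
theorem aeval_smul {p : MvPolynomial (Fin 6) ℤ} (hp : p.IsHomogeneous 5) (c : ℝ)
    (v : Fin 6 → ℝ) : aeval (fun k => c * v k) p = c ^ 5 * aeval v p := by
  rw [aeval_eq_sum p (support_of_hom hp), aeval_eq_sum p (support_of_hom hp), mul_sum]
  refine sum_congr rfl fun m hm => ?_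
  have : mon (fun k => c * v k) m = c ^ 5 * mon v m := by
    unfold mon
    simp only [mul_pow]
    rw [prod_mul_distrib, prod_pow_eq_pow_sum, mem_IxN.mp hm]
  rw [this]
  ring

/-- a killed leaf -/
theorem leafKill_sound {D2 : ℕ} {cs : List V6} {P : DP} {p : MvPolynomial (Fin 6) ℤ}
    (hS : Sem D2 P p) {lam : List (Nat × Nat)} {b : Box} (hD : 0 < D2)
    (h : leafKill D2 cs P lam b = true) {v : Fin 6 → ℝ} (h5 : v 5 = 1) (hb : b.Mem D2 v)
    (hcs : ∀ c ∈ cs, 0 ≤ c.val v) :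
    aeval v p ≤ 216 * P.mu.val v ∧ 1 ≤ D2 * P.mu.val v := by
  obtain ⟨hl0, hl1, hl2, hl3, hl4⟩ := hb.le
  have hDR : (0 : ℝ) < D2 := by exact_mod_cast hD
  unfold leafKill at h
  rw [Bool.and_eq_true, Bool.and_eq_true] at h
  obtain ⟨hmu, hsize, hfin⟩ := h
  set a : V6 := comb cs (addMul zeroV (-216) P.mu) lam with ha
  refine ⟨?_, ?_⟩
  swap
  · have h1 := nonneg_spec hmu
    have h2 : (0 : ℤ) ≤ cval D2 P.mu b - ((rval P.mu b + 1 : ℕ) : ℤ) := h1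
    have h3 := val_ge D2 P.mu hb h5
    have h4 : (1 : ℝ) ≤ ((cval D2 P.mu b : ℤ) : ℝ) - (rval P.mu b : ℝ) := by
      have : (1 : ℤ) ≤ cval D2 P.mu b - (rval P.mu b : ℤ) := by push_cast at h2; omega
      exact_mod_cast this
    linarith
  -- the form of the dual vector
  obtain ⟨g, hg, hgX, hgv⟩ := hS.g
  set t : Fin 6 → ℝ := tv D2 b v with ht
  have ht5 : t 5 = 1 := rfl
  -- sizes
  unfold sizeOk at hsize
  rw [Nat.ble_eq, aal] at hsize
  have hsize' : 3 * P.K * (rho D2 b) ^ 5 + D2 ^ 4 * (Nat.add (cval D2 a b).natAbs (rval a b)) ≤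
      2 ^ aa - 1 := hsize
  have hrho : (rho D2 b : ℝ) = D2 + 2 * b.h0 + 2 * b.h1 + 2 * b.h2 + 2 * b.h3 + (2 * b.h4 + 5) := by
    have : rho D2 b = D2 + 2 * b.h0 + 2 * b.h1 + 2 * b.h2 + 2 * b.h3 + (2 * b.h4 + 5) := rfl
    rw [this]; push_cast; ring
  -- the evaluation of `g` at the weights
  have hg0 : eval (wt b 0) g ≤ 2 * P.K * (rho D2 b) ^ 5 := by
    have h1 : ((eval (wt b 0) g : ℕ) : ℝ) = aeval (fun k => ((wt b 0 k : ℕ) : ℝ)) g := by
      rw [eval_eq_sum _ (subset_refl _), aeval_eq_sum _ (subset_refl _)]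
      push_cast
      refine sum_congr rfl fun m _ => ?_
      simp [mon]
    rw [hgv] at h1
    set w : Fin 6 → ℝ := Function.update (fun k => ((wt b 0 k : ℕ) : ℝ)) 5
      (D2 * ((wt b 0 5 : ℕ) : ℝ)) with hw
    have hw0 : ∀ k, 0 ≤ w k := by
      intro k
      by_cases hk : k = 5
      · subst hk
        rw [hw, Function.update_self]
        positivity
      · rw [hw, Function.update_of_ne hk]
        exact Nat.cast_nonneg _
    have hws : ∑ k, w k = rho D2 b := by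
      have e5 : w 5 = D2 * ((wt b 0 5 : ℕ) : ℝ) := by rw [hw, Function.update_self]
      have e : ∀ k : Fin 6, k ≠ 5 → w k = ((wt b 0 k : ℕ) : ℝ) := fun k hk => by
        rw [hw, Function.update_of_ne hk]
      rw [Fin.sum_univ_six, e 0 (by decide), e 1 (by decide), e 2 (by decide), e 3 (by decide),
        e 4 (by decide), e5, hrho]
      simp only [wt]
      simp
      ring
    have h2 := aeval_le hS.hom hS.norm hw0
    rw [hws] at h1 h2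
    have h3 : ((eval (wt b 0) g : ℕ) : ℝ) ≤ ((2 * P.K * (rho D2 b) ^ 5 : ℕ) : ℝ) := by
      push_cast
      linarith
    exact_mod_cast h3
  have haa : (2 : ℕ) ^ aa - 1 < 2 ^ bb :=
    lt_of_le_of_lt (Nat.sub_le _ _) (Nat.pow_lt_pow_right (by norm_num) (by decide))
  have hK2 : 2 * P.K * (rho D2 b) ^ 5 ≤ 2 ^ aa - 1 := by
    refine le_trans ?_ hsize'
    refine le_trans ?_ (Nat.le_add_right _ _)
    exact Nat.mul_le_mul_right _ (by omega)
  have hlt0 : eval (wt b 0) g < 2 ^ bb := lt_of_le_of_lt (hg0.trans hK2) haa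
  -- the five stages
  obtain ⟨s0, t0⟩ := stage V0_ok b 0 rfl (by norm_num) (by simp [wt]) hl0 hg hlt0
  set g1 := subst 0 (lin 0 (Nat.add b.l0 b.h0) (Nat.sub b.h0 b.l0)) g with hg1
  have hh1 : g1.IsHomogeneous 5 := hom_subst 0 (lin_hom _ _ _) _
  obtain ⟨s1, t1⟩ := stage V1_ok b 1 rfl (by norm_num) (by simp [wt]) hl1 hh1 (lt_of_le_of_lt t0 hlt0)
  set g2 := subst 1 (lin 1 (Nat.add b.l1 b.h1) (Nat.sub b.h1 b.l1)) g1 with hg2
  have hh2 : g2.IsHomogeneous 5 := hom_subst 1 (lin_hom _ _ _) _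
  have hlt2 := lt_of_le_of_lt (t1.trans t0) hlt0
  obtain ⟨s2, t2⟩ := stage V2_ok b 2 rfl (by norm_num) (by simp [wt]) hl2 hh2 hlt2
  set g3 := subst 2 (lin 2 (Nat.add b.l2 b.h2) (Nat.sub b.h2 b.l2)) g2 with hg3
  have hh3 : g3.IsHomogeneous 5 := hom_subst 2 (lin_hom _ _ _) _
  have hlt3 := lt_of_le_of_lt (t2.trans (t1.trans t0)) hlt0
  obtain ⟨s3, t3⟩ := stage V3_ok b 3 rfl (by norm_num) (by simp [wt]) hl3 hh3 hlt3
  set g4 := subst 3 (lin 3 (Nat.add b.l3 b.h3) (Nat.sub b.h3 b.l3)) g3 with hg4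
  have hh4 : g4.IsHomogeneous 5 := hom_subst 3 (lin_hom _ _ _) _
  have hlt4 := lt_of_le_of_lt (t3.trans (t2.trans (t1.trans t0))) hlt0
  obtain ⟨s4, t4⟩ := stage V4_ok b 4 rfl (by norm_num) (by simp [wt]) hl4 hh4 hlt4
  set g5 := subst 4 (lin 4 (Nat.add b.l4 b.h4) (Nat.sub b.h4 b.l4)) g4 with hg5
  have hh5 : g5.IsHomogeneous 5 := hom_subst 4 (lin_hom _ _ _) _
  have hX5 : diag5 P.X b = pk g5 := by
    unfold diag5
    rw [← hgX, s0, s1, s2, s3, s4]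
  have hg5one : eval (fun _ => 1) g5 ≤ 2 * P.K * (rho D2 b) ^ 5 := by
    have e : wt b (4 + 1) = fun _ => 1 := by
      funext k
      fin_cases k <;> simp [wt]
    rw [e] at t4
    exact t4.trans (t3.trans (t2.trans (t1.trans (t0.trans hg0))))
  -- the polynomial to be tested
  set T : MvPolynomial (Fin 6) ℤ := cst g5 - C (P.K : ℤ) * sumP D2 b ^ 5 +
    C (((D2 ^ 4 : ℕ)) : ℤ) * (linP D2 a b * X 5 ^ 4) with hT
  have hsp5 : (sumP D2 b ^ 5).IsHomogeneous 5 := by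
    have := (hom_sumP D2 b).pow 5
    simpa using this
  have hlx : (linP D2 a b * X 5 ^ 4).IsHomogeneous 5 := by
    have := (hom_linP D2 a b).mul ((hom_X 5).pow 4)
    simpa using this
  have hThom : T.IsHomogeneous 5 := ((hom_cst hh5).sub (hsp5.C_mul _)).add (hlx.C_mul _)
  have hTbd : Bd T (2 ^ aa - 1) := by
    refine (((bd_cst g5 hg5one).sub ((Bd.C (S := P.K) (P.K : ℤ) (by simp)).mul
      ((bd_sumP D2 hl0 hl1 hl2 hl3 hl4).pow 5))).add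
      ((Bd.C (S := D2 ^ 4) (((D2 ^ 4 : ℕ)) : ℤ) (by simp)).mul
        ((bd_linP D2 a b).mul ((Bd.X 5).pow 4)))).mono ?_
    refine le_trans (le_of_eq ?_) hsize'
    rw [one_pow, mul_one]
    ring
  have hTc : ∀ m, |coeff m T| < 2 ^ aa := lt_aa hTbd (by
    have : 0 < 2 ^ aa := by positivity
    omega)
  have hTs : ∑ m ∈ Ix, (coeff m T).natAbs < 2 ^ bb - 1 := by
    refine lt_of_le_of_lt (sum_natAbs_lt Ix (hTbd.sum_le Ix)) ?_
    have h1 : (2 : ℕ) ^ bb = 2 * 2 ^ aa := by rw [bb_eq, pow_succ]; ring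
    have h2 : 1 < 2 ^ aa := Nat.one_lt_two_pow (by decide)
    omega
  have hTpk : pk T = Int.add (Int.sub (Int.ofNat (diag5 P.X b))
      (Int.ofNat (Nat.mul P.K (Nat.pow (lsum D2 b) 5))))
      (Int.mul (Int.ofNat (Nat.pow D2 4)) (lval D2 a b)) := by
    rw [hT, pk_add, pk_sub', pk_mul, pk_mul, pk_mul, pk_C, pk_C, pk_pow, pk_pow, pk_cst, ← hX5,
      pk_sumP, pk_linP, ← XI_eq X5_eq]
    change _ = ((diag5 P.X b : ℕ) : ℤ) - ((P.K * lsum D2 b ^ 5 : ℕ) : ℤ) +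
      ((D2 ^ 4 : ℕ) : ℤ) * lval D2 a b
    push_cast
    ring
  have hfin' : posPart aa cOff (pk T + (cOff : ℤ)).toNat % (2 ^ bb - 1) +
      Nat.land (posPart aa cOff (Nat.sub (Nat.mul 2 cOff) (pk T + (cOff : ℤ)).toNat)) cOdd %
        (2 ^ bb - 1) ≤
      posPart aa cOff (Nat.sub (Nat.mul 2 cOff) (pk T + (cOff : ℤ)).toNat) % 2 ^ bb := by
    rw [hTpk]
    unfold finalTest at hfin
    rw [Nat.ble_eq, bbm, bbl] at hfin
    exact hfin
  have htle : ∀ i, |t i| ≤ 1 := by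
    intro i
    fin_cases i
    · exact tc_abs hb.l0 hb.h0
    · exact tc_abs hb.l1 hb.h1
    · exact tc_abs hb.l2 hb.h2
    · exact tc_abs hb.l3 hb.h3
    · exact tc_abs hb.l4 hb.h4
    · simp [ht, tv]
  have hle := final_test hThom off_ok hTc hTs cOdd_eq hfin' htle ht5
  -- the value of `T`
  have e0 := tc_eq hb.l0 hb.h0
  have e1 := tc_eq hb.l1 hb.h1
  have e2 := tc_eq hb.l2 hb.h2
  have e3 := tc_eq hb.l3 hb.h3
  have e4 := tc_eq hb.l4 hb.h4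
  have q0 : t 0 = tc b.l0 b.h0 (D2 * v 0) := rfl
  have q1 : t 1 = tc b.l1 b.h1 (D2 * v 1) := rfl
  have q2 : t 2 = tc b.l2 b.h2 (D2 * v 2) := rfl
  have q3 : t 3 = tc b.l3 b.h3 (D2 * v 3) := rfl
  have q4 : t 4 = tc b.l4 b.h4 (D2 * v 4) := rfl
  have hlin : ∀ (i : Fin 6) (c r : ℕ) (u : Fin 6 → ℝ), aeval u (lin i c r) = c * u 5 + r * u i := by
    intro i c r u
    unfold lin
    simp
  set u4 : Fin 6 → ℝ := Function.update t 4 (D2 * v 4) with hu4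
  set u3 : Fin 6 → ℝ := Function.update u4 3 (D2 * v 3) with hu3
  set u2 : Fin 6 → ℝ := Function.update u3 2 (D2 * v 2) with hu2
  set u1 : Fin 6 → ℝ := Function.update u2 1 (D2 * v 1) with hu1
  set u0 : Fin 6 → ℝ := Function.update u1 0 (D2 * v 0) with hu0
  have a4 : aeval t g5 = aeval u4 g4 := by
    rw [hg5, aeval_subst 4 _ _ hh4, hlin, ht5, mul_one, q4, e4]
  have a3 : aeval u4 g4 = aeval u3 g3 := by
    have z5 : u4 5 = 1 := ht5
    have z3 : u4 3 = tc b.l3 b.h3 (D2 * v 3) := q3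
    rw [hg4, aeval_subst 3 _ _ hh3, hlin, z5, mul_one, z3, e3]
  have a2 : aeval u3 g3 = aeval u2 g2 := by
    have z5 : u3 5 = 1 := ht5
    have z2 : u3 2 = tc b.l2 b.h2 (D2 * v 2) := q2
    rw [hg3, aeval_subst 2 _ _ hh2, hlin, z5, mul_one, z2, e2]
  have a1 : aeval u2 g2 = aeval u1 g1 := by
    have z5 : u2 5 = 1 := ht5
    have z1 : u2 1 = tc b.l1 b.h1 (D2 * v 1) := q1
    rw [hg2, aeval_subst 1 _ _ hh1, hlin, z5, mul_one, z1, e1]
  have a0 : aeval u1 g1 = aeval u0 g := by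
    have z5 : u1 5 = 1 := ht5
    have z0 : u1 0 = tc b.l0 b.h0 (D2 * v 0) := q0
    rw [hg1, aeval_subst 0 _ _ hg, hlin, z5, mul_one, z0, e0]
  have hvec : Function.update u0 5 (D2 * u0 5) = fun k => (D2 : ℝ) * v k := by
    have z5 : u0 5 = 1 := ht5
    funext k
    rw [z5]
    fin_cases k
    · rfl
    · rfl
    · rfl
    · rfl
    · rfl
    · change (D2 : ℝ) * 1 = D2 * v 5
      rw [h5]
  have hg5v : aeval t (cst g5) = (D2 : ℝ) ^ 5 * aeval v p +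
      P.K * (D2 * v 0 + D2 * v 1 + D2 * v 2 + D2 * v 3 + D2 * v 4 + D2 * v 5) ^ 5 := by
    rw [aeval_cst, a4, a3, a2, a1, a0, hgv, hvec, aeval_smul hS.hom, Fin.sum_univ_six]
  have hsumv : aeval t (sumP D2 b) = D2 * v 0 + D2 * v 1 + D2 * v 2 + D2 * v 3 + D2 * v 4 + D2 * v 5 := by
    unfold sumP
    simp only [map_add, map_mul, aeval_X, q0, q1, q2, q3, q4, ht5]
    simp only [eq_intCast, map_natCast, Int.cast_natCast, mul_one, MvPolynomial.algHom_C]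
    rw [h5]
    push_cast
    linarith [e0, e1, e2, e3, e4]
  have hlinv : aeval t (linP D2 a b) = D2 * a.val v := by
    rw [val_eq D2 a hb h5]
    have hC : ∀ (z : ℤ) (k : Fin 6), aeval t (C z * X k : MvPolynomial (Fin 6) ℤ) = (z : ℝ) * t k := by
      intro z k; rw [map_mul, aeval_C, eq_intCast, aeval_X]
    unfold linP
    rw [map_add, map_add, map_add, map_add, map_add, hC, hC, hC, hC, hC, hC,
      q0, q1, q2, q3, q4, ht5]
    push_cast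
    ring
  have hTv : aeval t T = (D2 : ℝ) ^ 5 * (aeval v p + a.val v) := by
    have hC : ∀ z : ℤ, aeval t (C z : MvPolynomial (Fin 6) ℤ) = (z : ℝ) := by
      intro z; rw [aeval_C, eq_intCast]
    rw [hT, map_add, map_sub, map_mul, map_mul, map_mul, map_pow, map_pow, hC, hC, hg5v, hsumv,
      hlinv, aeval_X, ht5]
    push_cast
    ring
  rw [hTv] at hle
  have h6 : aeval v p + a.val v ≤ 0 := by
    by_contra hcon
    push Not at hcon
    have := mul_pos (pow_pos hDR 5) hcon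
    linarith
  have h7 := comb_val hcs lam (addMul zeroV (-216) P.mu)
  rw [addMul_val, zeroV_val, ← ha] at h7
  push_cast at h7
  linarith

end Pool.Agent.Helper5.B54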