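import Pool.Agent.Helper5.B54.Corner2

/-!
# Trees, steps
-/

namespace Pool.Agent.Helper5.B54

open Finset MvPolynomial Pool.Agent.Helper65.B54

variable {prev : List Facet} {F : Facet}

theorem prep_sem (D2 : ℕ) {d : Dual} (h : dualOk prev F d = true) :
    Sem D2 (prep prev F D2 d) (par (polyP prev F d)) := by
  unfold prep
  rw [dualN_eq h, toPar_eq (hom_polyP d) (bd_polyP h)]
  exact prepN_sem D2 (hom_par _) (bd_par (bd_polyP h)) d.mu

theorem getDP_mem : ∀ (ps : List DP) (n : ℕ) (P : DP), getDP ps n = some P → P ∈ ps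
  | [], _, P, h => by simp [getDP] at h
  | Q :: l, 0, P, h => by
    simp only [getDP, Option.some.injEq] at h
    rw [h]; exact List.mem_cons_self
  | Q :: l, n + 1, P, h => by
    simp only [getDP] at h
    exact List.mem_cons_of_mem _ (getDP_mem l n P h)

/-- a checked tree -/
theorem chk_sound {strict : Bool} {D2 : ℕ} {cs : List V6} {ps : List DP} {Q : DP → Prop}
    {v : Fin 6 → ℝ} (h5 : v 5 = 1) (hcs : ∀ c ∈ cs, 0 ≤ c.val v)
    (h0 : strict = true → 0 < (cs.getD 0 zeroV).val v) (hD : 0 < D2)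
    (hleaf : ∀ P lam b, P ∈ ps → leafKill D2 cs P lam b = true → b.Mem D2 v → Q P)
    (hcor : ∀ P m ord lam b, P ∈ ps → leafCorner D2 cs P m ord lam b = true → b.Mem D2 v → Q P) :
    ∀ (t : Tree) (b : Box), chk strict D2 cs ps t b = true → b.Mem D2 v → ∃ P ∈ ps, Q P
  | .split i p l r, b, h, hb => by
    unfold chk at h
    rw [Bool.and_eq_true] at h
    obtain ⟨hl, hr⟩ := h
    have ihl := chk_sound h5 hcs h0 hD hleaf hcor l _ hl
    have ihr := chk_sound h5 hcs h0 hD hleaf hcor r _ hr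
    match i, ihl, ihr with
    | 0, ihl, ihr =>
      rcases le_total (D2 * v 0) (2 * (p : ℝ)) with hp | hp
      · exact ihl ⟨hb.l0, hp, hb.l1, hb.h1, hb.l2, hb.h2, hb.l3, hb.h3, hb.l4, hb.h4⟩
      · exact ihr ⟨hp, hb.h0, hb.l1, hb.h1, hb.l2, hb.h2, hb.l3, hb.h3, hb.l4, hb.h4⟩
    | 1, ihl, ihr =>
      rcases le_total (D2 * v 1) (2 * (p : ℝ)) with hp | hp
      · exact ihl ⟨hb.l0, hb.h0, hb.l1, hp, hb.l2, hb.h2, hb.l3, hb.h3, hb.l4, hb.h4⟩
      · exact ihr ⟨hb.l0, hb.h0, hp, hb.h1, hb.l2, hb.h2, hb.l3, hb.h3, hb.l4, hb.h4⟩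
    | 2, ihl, ihr =>
      rcases le_total (D2 * v 2) (2 * (p : ℝ)) with hp | hp
      · exact ihl ⟨hb.l0, hb.h0, hb.l1, hb.h1, hb.l2, hp, hb.l3, hb.h3, hb.l4, hb.h4⟩
      · exact ihr ⟨hb.l0, hb.h0, hb.l1, hb.h1, hp, hb.h2, hb.l3, hb.h3, hb.l4, hb.h4⟩
    | 3, ihl, ihr =>
      rcases le_total (D2 * v 3) (2 * (p : ℝ)) with hp | hp
      · exact ihl ⟨hb.l0, hb.h0, hb.l1, hb.h1, hb.l2, hb.h2, hb.l3, hp, hb.l4, hb.h4⟩
      · exact ihr ⟨hb.l0, hb.h0, hb.l1, hb.h1, hb.l2, hb.h2, hp, hb.h3, hb.l4, hb.h4⟩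
    | 4, ihl, ihr =>
      rcases le_total (D2 * v 4) (2 * (p : ℝ)) with hp | hp
      · exact ihl ⟨hb.l0, hb.h0, hb.l1, hb.h1, hb.l2, hb.h2, hb.l3, hb.h3, hb.l4, hp⟩
      · exact ihr ⟨hb.l0, hb.h0, hb.l1, hb.h1, hb.l2, hb.h2, hb.l3, hb.h3, hp, hb.h4⟩
    | n + 5, ihl, _ => exact ihl hb
  | .empty lam, b, h, hb => (leafEmpty_sound h h5 hb hcs h0 hD).elim
  | .kill d lam, b, h, hb => by
    unfold chk leafKillO at h
    cases hP : getDP ps d with
    | none => rw [hP] at h; simp at h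
    | some P =>
      rw [hP] at h
      have hmem := getDP_mem ps d P hP
      exact ⟨P, hmem, hleaf P lam b hmem h hb⟩
  | .corner m ord d lam, b, h, hb => by
    unfold chk leafCornerO at h
    cases hP : getDP ps d with
    | none => rw [hP] at h; simp at h
    | some P =>
      rw [hP] at h
      have hmem := getDP_mem ps d P hP
      exact ⟨P, hmem, hcor P m ord lam b hmem h hb⟩

/-! ### facets and regions -/

/-- the functional of a facet -/
noncomputable def Facet.f (F : Facet) (p : Fin 3 → ℝ) : ℝ := F.wA * p 0 + F.wC * p 1 + F.wD * p 2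

/-- the threshold of a facet -/
noncomputable def Facet.tau (F : Facet) (α γ : ℝ) : ℝ := F.m0 + F.ma * α + F.mg * γ

/-- the region after the facets `prev` -/
def Rs (prev : List Facet) (α γ : ℝ) : Set (Fin 3 → ℝ) :=
  {p | p ∈ R0 α γ ∧ ∀ G ∈ prev, G.f p ≤ G.tau α γ}

theorem Rs_nil (α γ : ℝ) : Rs [] α γ = R0 α γ := by
  ext p; simp [Rs]

theorem Rs_append (prev : List Facet) (F : Facet) (α γ : ℝ) :
    Rs prev α γ ∩ {p | F.f p ≤ F.tau α γ} = Rs (prev ++ [F]) α γ := by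
  ext p
  constructor
  · rintro ⟨⟨h1, h2⟩, h3⟩
    refine ⟨h1, fun G hG => ?_⟩
    rcases List.mem_append.mp hG with h | h
    · exact h2 G h
    · rw [List.mem_singleton.mp h]; exact h3
  · rintro ⟨h1, h2⟩
    exact ⟨⟨h1, fun G hG => h2 G (List.mem_append_left _ hG)⟩,
      h2 F (List.mem_append_right _ (List.mem_singleton_self _))⟩

/-- the parameter vector -/
noncomputable def pv (α γ : ℝ) (z : Fin 3 → ℝ) : Fin 6 → ℝ := ![z 0, α, z 1, γ, z 2, 1]

theorem cells_pv (α γ : ℝ) (z : Fin 3 → ℝ) : cells (pv α γ z) = s6 α γ z := by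
  funext k
  fin_cases k <;> simp [cells, pv, s6]

theorem con_val (G : Facet) (α γ : ℝ) (z : Fin 3 → ℝ) :
    G.con.val (pv α γ z) = G.tau α γ - G.f z := by
  unfold V6.val Facet.con Facet.tau Facet.f pv
  change (((-(G.wA : ℤ) : ℤ)) : ℝ) * z 0 + G.ma * α + ((-(G.wC : ℤ) : ℤ) : ℝ) * z 1 + G.mg * γ +
    ((-(G.wD : ℤ) : ℤ) : ℝ) * z 2 + G.m0 * 1 = _
  push_cast
  ring

theorem ncon_val (G : Facet) (α γ : ℝ) (z : Fin 3 → ℝ) :
    G.ncon.val (pv α γ z) = G.f z - G.tau α γ := by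
  unfold V6.val Facet.ncon Facet.tau Facet.f pv
  change (((G.wA : ℤ)) : ℝ) * z 0 + ((-G.ma : ℤ) : ℝ) * α + (((G.wC : ℤ)) : ℝ) * z 1 +
    ((-G.mg : ℤ) : ℝ) * γ + (((G.wD : ℤ)) : ℝ) * z 2 + ((-G.m0 : ℤ) : ℝ) * 1 = _
  push_cast
  ring

/-- all constraints hold in the region -/
theorem cons_nonneg {α γ : ℝ} {z : Fin 3 → ℝ} (hγα : γ ≤ α) (h1 : α + γ ≤ 1) (h35 : α ≤ 3 / 5)
    (hz : z ∈ Rs prev α γ) (hF : 0 ≤ F.f z - F.tau α γ) :
    ∀ c ∈ cons prev F, 0 ≤ c.val (pv α γ z) := by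
  obtain ⟨⟨_, hz1, hz2, hz3⟩, hz4⟩ := hz
  intro c hc
  unfold cons at hc
  rw [List.mem_cons] at hc
  rcases hc with rfl | hc
  · rw [ncon_val]; exact hF
  rw [List.mem_append] at hc
  rcases hc with hc | hc
  · unfold baseCons at hc
    simp only [List.mem_cons, List.not_mem_nil, or_false] at hc
    rcases hc with rfl | rfl | rfl | rfl | rfl | rfl <;> simp [V6.val, pv] <;> linarith
  · rw [List.mem_map] at hc
    obtain ⟨G, hG, rfl⟩ := hc
    rw [con_val]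
    have := hz4 G hG
    linarith

/-! ### cuts -/

theorem poly_val (v : V6) (s : Fin 6 → ℝ) : aeval s v.poly = ∑ k, (v.fn k : ℝ) * s k := by
  unfold V6.poly
  rw [map_sum]
  exact sum_congr rfl fun k _ => by rw [map_mul, aeval_C, aeval_X, eq_intCast]

theorem getD_facet {α γ : ℝ} (p : Fin 3 → ℝ) (h : ∀ G ∈ prev, G.f p ≤ G.tau α γ) (j : ℕ) :
    (prev.getD j zeroF).f p ≤ (prev.getD j zeroF).tau α γ := by
  by_cases hj : j < prev.length
  · rw [List.getD_eq_getElem _ _ hj]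
    exact h _ (List.getElem_mem hj)
  · rw [List.getD_eq_default _ _ (by omega)]
    simp [Facet.f, Facet.tau, zeroF]

theorem agg6 (q : Fin 6 → ℝ) : agg par6 q = ![q 0 + q 1, q 2 + q 3, q 4 + q 5] := by
  funext i
  unfold agg par6
  rw [Fin.sum_univ_six]
  fin_cases i <;> simp

/-- the cuts are valid -/
theorem cut_valid {α γ : ℝ} {z : Fin 3 → ℝ} (c : Cut) (q : Fin 6 → ℝ)
    (hq : ∀ k, q k ≤ s6 α γ z k)
    (hR : agg par6 q ∈ Rs prev α γ ∩ {p | F.f p ≤ F.f z}) :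
    ∑ k, ((cutW prev F c).fn k : ℝ) * q k ≤ aeval (s6 α γ z) (cutH prev F c).poly := by
  obtain ⟨⟨⟨_, hz1, hz2, hz3⟩, hz4⟩, hown⟩ := hR
  rw [agg6] at hz1 hz2 hz3 hz4 hown
  simp only [Set.mem_setOf_eq] at hown
  rw [poly_val, Fin.sum_univ_six, Fin.sum_univ_six]
  simp at hz1 hz2 hz3
  have hs0 : s6 α γ z 0 = z 0 := rfl
  have hs1 : s6 α γ z 1 = α - z 0 := rfl
  have hs2 : s6 α γ z 2 = z 1 := rfl
  have hs3 : s6 α γ z 3 = γ - z 1 := rfl
  have hs4 : s6 α γ z 4 = z 2 := rfl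
  have hs5 : s6 α γ z 5 = 1 - α - γ - z 2 := rfl
  cases c with
  | tot =>
    simp [cutW, cutH, N6.fn, V6.fn, hs0, hs1]
    linarith
  | nc =>
    simp [cutW, cutH, N6.fn, V6.fn, hs2, hs3]
    linarith
  | box k =>
    have h0 := hq 0
    have h1 := hq 1
    have h2 := hq 2
    have h3 := hq 3
    have h4 := hq 4
    have h5 := hq 5
    unfold cutW cutH unitN unitI
    simp only
    split <;> simp_all [N6.fn, V6.fn]
  | fac j =>
    have h := getD_facet _ hz4 j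
    unfold cutW cutH
    simp only
    generalize prev.getD j zeroF = G at h
    unfold Facet.f Facet.tau at h
    simp at h
    unfold Facet.W Facet.H N6.fn V6.fn
    change _ ≤ (((G.m0 + G.ma : ℤ) : ℝ)) * s6 α γ z 0 + (((G.m0 + G.ma : ℤ) : ℝ)) * s6 α γ z 1 +
      (((G.m0 + G.mg : ℤ) : ℝ)) * s6 α γ z 2 + (((G.m0 + G.mg : ℤ) : ℝ)) * s6 α γ z 3 +
      ((G.m0 : ℤ) : ℝ) * s6 α γ z 4 + ((G.m0 : ℤ) : ℝ) * s6 α γ z 5
    change (G.wA : ℝ) * q 0 + (G.wA : ℝ) * q 1 + (G.wC : ℝ) * q 2 + (G.wC : ℝ) * q 3 +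
      (G.wD : ℝ) * q 4 + (G.wD : ℝ) * q 5 ≤ _
    rw [hs0, hs1, hs2, hs3, hs4, hs5]
    push_cast
    linarith
  | own =>
    unfold Facet.f at hown
    simp at hown
    unfold cutW cutH Facet.W Facet.HO N6.fn V6.fn
    change (F.wA : ℝ) * q 0 + (F.wA : ℝ) * q 1 + (F.wC : ℝ) * q 2 + (F.wC : ℝ) * q 3 +
      (F.wD : ℝ) * q 4 + (F.wD : ℝ) * q 5 ≤ (((F.wA : ℤ) : ℝ)) * s6 α γ z 0 + ((0 : ℤ) : ℝ) * s6 α γ z 1 +
      (((F.wC : ℤ) : ℝ)) * s6 α γ z 2 + ((0 : ℤ) : ℝ) * s6 α γ z 3 +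
      (((F.wD : ℤ) : ℝ)) * s6 α γ z 4 + ((0 : ℤ) : ℝ) * s6 α γ z 5
    rw [hs0, hs2, hs4]
    push_cast
    linarith

/-! ### the forms of a dual vector -/

theorem coeff_polyW : ∀ (ys : List (Cut × Nat × Nat)) (m : E), coeff m (polyW prev F ys) =
    ∑ c : Fin ys.length, coeff m (quart (decY (ys.get c).2.1 (ys.get c).2.2) *
      (cutW prev F (ys.get c).1).poly)
  | [], m => by simp [polyW]
  | (c, n, x) :: l, m => by
    unfold polyW
    rw [coeff_add, coeff_polyW l m]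
    simp only [List.length_cons]
    rw [Fin.sum_univ_succ]
    rfl

theorem aeval_polyH : ∀ (ys : List (Cut × Nat × Nat)) (s : Fin 6 → ℝ), aeval s (polyH prev F ys) =
    ∑ c : Fin ys.length, aeval s (quart (decY (ys.get c).2.1 (ys.get c).2.2)) *
      aeval s (cutH prev F (ys.get c).1).poly
  | [], s => by simp [polyH]
  | (c, n, x) :: l, s => by
    unfold polyH
    rw [map_add, map_mul, aeval_polyH l s, aeval_cst]
    simp only [List.length_cons]
    rw [Fin.sum_univ_succ]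
    rfl

theorem muPar_val (m : V6) (v : Fin 6 → ℝ) :
    (muPar m).val v = ∑ k, (m.fn k : ℝ) * cells v k := by
  rw [Fin.sum_univ_six]
  unfold muPar V6.val cells V6.fn
  change ((m.a0 - m.a1 : ℤ) : ℝ) * v 0 + ((m.a1 - m.a5 : ℤ) : ℝ) * v 1 +
    ((m.a2 - m.a3 : ℤ) : ℝ) * v 2 + ((m.a3 - m.a5 : ℤ) : ℝ) * v 3 + ((m.a4 - m.a5 : ℤ) : ℝ) * v 4 +
    (m.a5 : ℝ) * v 5 = (m.a0 : ℝ) * (v 0) + (m.a1 : ℝ) * (v 1 - v 0) + (m.a2 : ℝ) * (v 2) +
    (m.a3 : ℝ) * (v 3 - v 2) + (m.a4 : ℝ) * (v 4) + (m.a5 : ℝ) * (v 5 - v 1 - v 3 - v 4)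
  push_cast
  ring

theorem hcoef_of {d : Dual} {m : E} (h5 : ∑ k, m k = 5) (hall : Allowed m) :
    coeff m ((∑ k : Fin 6, (X k : MvPolynomial (Fin 6) ℤ)) ^ 4 * ∑ k, C (d.mu.fn k) * X k) ≤
      ∑ c : Fin d.ys.length, ((coeff m (quart (decY (d.ys.get c).2.1 (d.ys.get c).2.2) *
        ∑ k, C ((cutW prev F (d.ys.get c).1).fn k) * X k) : ℕ) : ℤ) +
        ((coeff m (polyU prev F d) : ℕ) : ℤ) := by
  have h1 : coeff m (polyD prev F d) =
      coeff m ((∑ k : Fin 6, (X k : MvPolynomial (Fin 6) ℤ)) ^ 4 * ∑ k, C (d.mu.fn k) * X k) -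
      ((coeff m (polyW prev F d.ys) : ℕ) : ℤ) := by
    unfold polyD
    rw [coeff_sub, coeff_cst]
    rfl
  have h2 : coeff m (polyU prev F d) = (coeff m (polyD prev F d)).toNat := by
    rw [coeff_polyU, if_pos (mem_filter.mpr ⟨mem_IxN.mpr h5, hall⟩)]
  have h3 := coeff_polyW (prev := prev) (F := F) d.ys m
  have h4 : ∑ c : Fin d.ys.length, ((coeff m (quart (decY (d.ys.get c).2.1 (d.ys.get c).2.2) *
        ∑ k, C ((cutW prev F (d.ys.get c).1).fn k) * X k) : ℕ) : ℤ) =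
      ((coeff m (polyW prev F d.ys) : ℕ) : ℤ) := by
    rw [h3]
    push_cast
    rfl
  rw [h4, h2]
  omega

/-- the bound for the multipliers -/
def MM : ℝ := 2 ^ 80

theorem dual_kill6 {D2 : ℕ} {d : Dual} (hD : 0 < D2) (hD2 : D2 ≤ 131072)
    (hok : dualOk prev F d = true) {α γ : ℝ}
    {z : Fin 3 → ℝ} (h1 : aeval (pv α γ z) (par (polyP prev F d)) ≤
      216 * (muPar d.mu).val (pv α γ z)) (h2 : 1 ≤ D2 * (muPar d.mu).val (pv α γ z)) :
    Kill MM par6 [fun k : Fin 6 => par6 k == 0, fun k => par6 k == 1,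
      fun k => k == 0 || k == 2 || k == 4] (s6 α γ z) (Rs prev α γ ∩ {p | F.f p ≤ F.f z}) := by
  have hDR : (0 : ℝ) < D2 := by exact_mod_cast hD
  rw [aeval_par (hom_polyP d), cells_pv] at h1
  rw [muPar_val, cells_pv] at h1 h2
  refine kill_of_forms par6 _ (s6 α γ z) _ MM
    (fun c k => (cutW prev F (d.ys.get c).1).fn k)
    (fun c => aeval (s6 α γ z) (cutH prev F (d.ys.get c).1).poly) d.mu.fn
    (fun c => quart (decY (d.ys.get c).2.1 (d.ys.get c).2.2)) (polyU prev F d)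
    (fun c m => quart_deg _ m) ?_ ?_ ?_ (1 / D2) (by positivity) ?_ ?_ ?_
  · intro m hm
    exact mem_IxN.mp (support_of_hom (hom_polyU d) (mem_support_iff.mpr hm))
  · intro c q _ hq hR
    exact cut_valid _ q hq hR
  · intro m h5 hS
    refine hcoef_of h5 ⟨?_, ?_, ?_⟩
    · have h := hS (fun k : Fin 6 => par6 k == 0) (by simp)
      rw [sum_filter, Fin.sum_univ_six] at h
      simpa [par6] using h
    · have h := hS (fun k : Fin 6 => par6 k == 1) (by simp)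
      rw [sum_filter, Fin.sum_univ_six] at h
      simpa [par6] using h
    · have h := hS (fun k : Fin 6 => k == 0 || k == 2 || k == 4) (by simp)
      rw [sum_filter, Fin.sum_univ_six] at h
      simpa using h
  · rw [div_le_iff₀ hDR]
    linarith
  · intro k
    have h3 := smallV_spec (dualOk_spec hok).2.1 k
    have h4 : |(d.mu.fn k : ℝ)| ≤ 1152921504606846976 := by
      have : |d.mu.fn k| ≤ 1152921504606846976 := by
        rw [← Int.natCast_natAbs]; exact_mod_cast h3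
      exact_mod_cast this
    refine h4.trans ?_
    unfold MM
    have h5 : (D2 : ℝ) ≤ 131072 := by exact_mod_cast hD2
    rw [mul_one_div, le_div_iff₀ hDR]
    calc (1152921504606846976 : ℝ) * D2 ≤ 1152921504606846976 * 131072 := by gcongr
      _ ≤ 2 ^ 80 := by norm_num
  · refine le_trans (le_of_eq ?_) h1
    unfold polyP
    rw [map_mul, map_add, aeval_C, aeval_polyH, aeval_cst]
    simp

/-- **A step of the chain.** -/
theorem dead_step {D a0 a1 g0 g1 : ℕ} {ds : List Dual} {t : Tree}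
    (h : stepChk D a0 a1 g0 g1 prev F ds t = true) {α γ : ℝ}
    (ha0 : (a0 : ℝ) ≤ D * α) (ha1 : D * α ≤ a1) (hg0 : (g0 : ℝ) ≤ D * γ) (hg1 : D * γ ≤ g1)
    (hγα : γ ≤ α) (h1 : α + γ ≤ 1) (h35 : α ≤ 3 / 5)
    (hd : Dead MM α γ (Rs (prev ++ [F]) α γ)) : Dead MM α γ (Rs prev α γ) := by
  unfold stepChk at h
  rw [Bool.and_eq_true, Bool.and_eq_true, Bool.and_eq_true, Nat.ble_eq, Nat.ble_eq] at h
  obtain ⟨⟨hD1, hD2⟩, hds, hchk⟩ := h
  have hDR : (0 : ℝ) < D := by exact_mod_cast hD1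
  refine Dead.step (Rs prev α γ) F.f (F.tau α γ) ?_ (by rw [Rs_append]; exact hd)
  intro z hz hzt
  have hz' := hz
  obtain ⟨⟨hz0, hz1, hz2, hz3⟩, hz4⟩ := hz'
  have hb : Box.Mem (Nat.mul 2 D) ⟨0, a1, a0, a1, 0, g1, g0, g1, 0, Nat.sub D (Nat.add a0 g0)⟩
      (pv α γ z) := by
    have e2 : ((Nat.mul 2 D : ℕ) : ℝ) = 2 * D := by
      change ((2 * D : ℕ) : ℝ) = _
      push_cast; ring
    have p0 : pv α γ z 0 = z 0 := rfl
    have p1 : pv α γ z 1 = α := rfl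
    have p2 : pv α γ z 2 = z 1 := rfl
    have p3 : pv α γ z 3 = γ := rfl
    have p4 : pv α γ z 4 = z 2 := rfl
    have hn0 := hz0 0
    have hn1 := hz0 1
    have hn2 := hz0 2
    have m0 : D * z 0 ≤ D * α := mul_le_mul_of_nonneg_left (by linarith) hDR.le
    have m1 : D * z 1 ≤ D * γ := mul_le_mul_of_nonneg_left (by linarith) hDR.le
    have m2 : D * z 2 ≤ D * (1 - α - γ) := mul_le_mul_of_nonneg_left hz3 hDR.le
    have n0 := mul_nonneg hDR.le hn0
    have n1 := mul_nonneg hDR.le hn1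
    have n2 := mul_nonneg hDR.le hn2
    have hsub : (D : ℝ) - (a0 + g0) ≤ ((Nat.sub D (Nat.add a0 g0) : ℕ) : ℝ) := by
      change _ ≤ ((D - (a0 + g0) : ℕ) : ℝ)
      have : (D : ℤ) - (a0 + g0) ≤ ((D - (a0 + g0) : ℕ) : ℤ) := by omega
      exact_mod_cast this
    constructor
    · rw [e2, p0]; push_cast; linarith
    · rw [e2, p0]; linarith
    · rw [e2, p1]; linarith
    · rw [e2, p1]; linarith
    · rw [e2, p2]; push_cast; linarith
    · rw [e2, p2]; linarith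
    · rw [e2, p3]; linarith
    · rw [e2, p3]; linarith
    · rw [e2, p4]; push_cast; linarith
    · rw [e2, p4]; linarith
  have hdsall : ∀ l : List Dual, dualsOk prev F l = true → ∀ d ∈ l, dualOk prev F d = true := by
    intro l
    induction l with
    | nil => intro _ d hd; simp at hd
    | cons e l ih =>
      intro hl d hd
      unfold dualsOk at hl
      rw [Bool.and_eq_true] at hl
      rcases List.mem_cons.mp hd with rfl | hd
      · exact hl.1
      · exact ih hl.2 d hd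
  have hD20 : 0 < Nat.mul 2 D := by change 0 < 2 * D; omega
  have hD2le : Nat.mul 2 D ≤ 131072 := by change 2 * D ≤ 131072; omega
  obtain ⟨P, hP, d, hd', hPd, hq1, hq2⟩ := chk_sound (Q := fun P => ∃ d ∈ ds,
      P = prep prev F (Nat.mul 2 D) d ∧ aeval (pv α γ z) (par (polyP prev F d)) ≤
      216 * (muPar d.mu).val (pv α γ z) ∧ 1 ≤ ((Nat.mul 2 D : ℕ) : ℝ) * (muPar d.mu).val (pv α γ z))
    (v := pv α γ z) rfl
    (cons_nonneg hγα h1 h35 hz (by linarith)) (fun _ => by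
      have : (cons prev F).getD 0 zeroV = F.ncon := rfl
      rw [this, ncon_val]; linarith) hD20
    (by
      intro P lam b hP hk hb
      rw [List.mem_map] at hP
      obtain ⟨d, hd, rfl⟩ := hP
      have := leafKill_sound (prep_sem (Nat.mul 2 D) (hdsall ds hds d hd)) hD20 hk
        (v := pv α γ z) rfl hb (cons_nonneg hγα h1 h35 hz (by linarith))
      exact ⟨d, hd, rfl, this⟩)
    (by
      intro P m ord lam b hP hk hb
      rw [List.mem_map] at hP
      obtain ⟨d, hd, rfl⟩ := hP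
      have hn1 := hz0 1
      have hn2 := hz0 2
      have := leafCorner_sound (prep_sem (Nat.mul 2 D) (hdsall ds hds d hd)) hD20 hk
        (v := pv α γ z) rfl hb (cons_nonneg hγα h1 h35 hz (by linarith)) h35
        (by change z 0 ≤ α; linarith) (by change α + γ + z 2 ≤ 1; linarith)
      exact ⟨d, hd, rfl, this⟩) t _ hchk hb
  exact dual_kill6 hD20 hD2le (hdsall ds hds d hd') hq1 hq2

end Pool.Agent.Helper5.B54
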