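import Pool.Agent.Helper5.B54.Sound5

/-!
# The end of the chain
-/

namespace Pool.Agent.Helper5.B54

open Finset MvPolynomial Pool.Agent.Helper65.B54

variable {prev : List Facet}

section
variable {R : Type} [CommSemiring R]

/-- restriction to the cells `1, 3, 5` -/
noncomputable def phi (p : MvPolynomial (Fin 6) R) : MvPolynomial (Fin 3) R :=
  aeval ![0, X 0, 0, X 1, 0, X 2] p

/-- the exponent of six variables -/
noncomputable def emb (m : Fin 3 →₀ ℕ) : E :=
  Finsupp.single 1 (m 0) + Finsupp.single 3 (m 1) + Finsupp.single 5 (m 2)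

theorem emb_apply (m : Fin 3 →₀ ℕ) : emb m 0 = 0 ∧ emb m 1 = m 0 ∧ emb m 2 = 0 ∧ emb m 3 = m 1 ∧
    emb m 4 = 0 ∧ emb m 5 = m 2 := by
  unfold emb
  simp

theorem eq_emb_iff (m' : E) (m : Fin 3 →₀ ℕ) : m' = emb m ↔
    m' 0 = 0 ∧ m' 1 = m 0 ∧ m' 2 = 0 ∧ m' 3 = m 1 ∧ m' 4 = 0 ∧ m' 5 = m 2 := by
  constructor
  · rintro rfl; exact emb_apply m
  · intro h
    obtain ⟨e0, e1, e2, e3, e4, e5⟩ := emb_apply m
    obtain ⟨h0, h1, h2, h3, h4, h5⟩ := h
    ext k
    fin_cases k
    exacts [h0.trans e0.symm, h1.trans e1.symm, h2.trans e2.symm, h3.trans e3.symm,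
      h4.trans e4.symm, h5.trans e5.symm]

theorem phi_monomial (m' : E) (c : R) : phi (monomial m' c) =
    C c * (0 ^ m' 0 * X 0 ^ m' 1 * 0 ^ m' 2 * X 1 ^ m' 3 * 0 ^ m' 4 * X 2 ^ m' 5) := by
  unfold phi
  rw [aeval_monomial, Finsupp.prod_fintype _ _ (by intro k; simp), Fin.prod_univ_six]
  rfl

theorem coeff_phi (p : MvPolynomial (Fin 6) R) (m : Fin 3 →₀ ℕ) :
    coeff m (phi p) = coeff (emb m) p := by
  induction p using MvPolynomial.induction_on' with
  | monomial m' c =>
    rw [phi_monomial, coeff_monomial]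
    by_cases h : m' = emb m
    · rw [if_pos h]
      obtain ⟨h0, h1, h2, h3, h4, h5⟩ := (eq_emb_iff m' m).mp h
      rw [h0, h1, h2, h3, h4, h5]
      simp only [pow_zero, one_mul, mul_one]
      rw [coeff_C_mul]
      have e : (X 0 ^ m 0 * X 1 ^ m 1 * X 2 ^ m 2 : MvPolynomial (Fin 3) R) = monomial m 1 := by
        rw [monomial_eq, Finsupp.prod_fintype _ _ (by intro k; simp), Fin.prod_univ_three]
        simp
      rw [e, coeff_monomial, if_pos rfl, mul_one]
    · rw [if_neg h]
      by_cases h0 : m' 0 = 0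
      · by_cases h2 : m' 2 = 0
        · by_cases h4 : m' 4 = 0
          · rw [h0, h2, h4]
            simp only [pow_zero, one_mul, mul_one]
            rw [coeff_C_mul]
            set m'' : Fin 3 →₀ ℕ := Finsupp.single 0 (m' 1) + Finsupp.single 1 (m' 3) +
              Finsupp.single 2 (m' 5) with hm''
            have e : (X 0 ^ m' 1 * X 1 ^ m' 3 * X 2 ^ m' 5 : MvPolynomial (Fin 3) R) =
                monomial m'' 1 := by
              rw [monomial_eq, Finsupp.prod_fintype _ _ (by intro k; simp), Fin.prod_univ_three]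
              simp [hm'']
            rw [e, coeff_monomial, if_neg, mul_zero]
            intro hcon
            apply h
            rw [eq_emb_iff]
            have c0 := DFunLike.congr_fun hcon 0
            have c1 := DFunLike.congr_fun hcon 1
            have c2 := DFunLike.congr_fun hcon 2
            simp [hm''] at c0 c1 c2
            exact ⟨h0, c0, h2, c1, h4, c2⟩
          · rw [zero_pow h4]; simp
        · rw [zero_pow h2]; simp
      · rw [zero_pow h0]; simp
  | add p q hp hq =>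
    have : phi (p + q) = phi p + phi q := map_add _ _ _
    rw [this, coeff_add, coeff_add, hp, hq]

theorem phi_mul (p q : MvPolynomial (Fin 6) R) : phi (p * q) = phi p * phi q := map_mul _ _ _

theorem phi_lin (a : Fin 6 → R) : phi (∑ k, C (a k) * X k) =
    ∑ k : Fin 3, C (![a 1, a 3, a 5] k) * X k := by
  unfold phi
  rw [map_sum, Fin.sum_univ_six, Fin.sum_univ_three]
  simp only [map_mul, aeval_X, aeval_C]
  simp [MvPolynomial.algebraMap_eq]

theorem phi_sumX : phi (∑ k : Fin 6, (X k : MvPolynomial (Fin 6) R)) =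
    ∑ k : Fin 3, (X k : MvPolynomial (Fin 3) R) := by
  unfold phi
  rw [map_sum, Fin.sum_univ_six, Fin.sum_univ_three]
  simp

end

theorem aeval_phi (p : MvPolynomial (Fin 6) ℕ) (s : Fin 3 → ℝ) :
    aeval s (phi p) = aeval ![0, s 0, 0, s 1, 0, s 2] p := by
  unfold phi
  have h := MvPolynomial.comp_aeval_apply (R := ℕ) (σ := Fin 6) (B := ℝ)
    ![0, X 0, 0, X 1, 0, X 2] (aeval s : MvPolynomial (Fin 3) ℕ →ₐ[ℕ] ℝ) p
  rw [h]
  congr 2
  funext k
  fin_cases k <;> simp

theorem s6_zero (α γ : ℝ) : s6 α γ 0 = ![0, s3 α γ 0, 0, s3 α γ 1, 0, s3 α γ 2] := by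
  funext k
  fin_cases k <;> simp [s6, s3]

theorem sum_emb (m : Fin 3 →₀ ℕ) : ∑ k, emb m k = ∑ k, m k := by
  obtain ⟨e0, e1, e2, e3, e4, e5⟩ := emb_apply m
  rw [Fin.sum_univ_six, Fin.sum_univ_three, e0, e1, e2, e3, e4, e5]
  ring

theorem dual_kill3 {D2 : ℕ} {d : Dual} (hD : 0 < D2) (hD2 : D2 ≤ 131072)
    (hok : dualOk prev zeroF d = true) {α γ : ℝ}
    (h1 : aeval (pv α γ 0) (par (polyP prev zeroF d)) ≤ 216 * (muPar d.mu).val (pv α γ 0))
    (h2 : 1 ≤ D2 * (muPar d.mu).val (pv α γ 0)) :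
    Kill MM id [fun k : Fin 3 => k == 0, fun k => k == 1] (s3 α γ) (Rs prev α γ) := by
  have hDR : (0 : ℝ) < D2 := by exact_mod_cast hD
  rw [aeval_par (hom_polyP d), cells_pv] at h1
  rw [muPar_val, cells_pv] at h1 h2
  have hmu : ∑ k, (d.mu.fn k : ℝ) * s6 α γ 0 k =
      ∑ k : Fin 3, ((![d.mu.fn 1, d.mu.fn 3, d.mu.fn 5] k : ℤ) : ℝ) * s3 α γ k := by
    rw [Fin.sum_univ_six, Fin.sum_univ_three, s6_zero]
    simp
  rw [hmu] at h1 h2
  refine kill_of_forms id _ (s3 α γ) _ MM
    (fun c k => ![(cutW prev zeroF (d.ys.get c).1).fn 1, (cutW prev zeroF (d.ys.get c).1).fn 3,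
      (cutW prev zeroF (d.ys.get c).1).fn 5] k)
    (fun c => aeval (s6 α γ 0) (cutH prev zeroF (d.ys.get c).1).poly)
    ![d.mu.fn 1, d.mu.fn 3, d.mu.fn 5]
    (fun c => phi (quart (decY (d.ys.get c).2.1 (d.ys.get c).2.2))) (phi (polyU prev zeroF d))
    ?_ ?_ ?_ ?_ (1 / D2) (by positivity) ?_ ?_ ?_
  · intro c m hm
    rw [coeff_phi] at hm
    rw [← sum_emb]
    exact quart_deg _ _ hm
  · intro m hm
    rw [coeff_phi] at hm
    rw [← sum_emb]
    exact mem_IxN.mp (support_of_hom (hom_polyU d) (mem_support_iff.mpr hm))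
  · intro c q hq0 hq hR
    have h3 := cut_valid (prev := prev) (F := zeroF) (α := α) (γ := γ) (z := 0) (d.ys.get c).1
      ![0, q 0, 0, q 1, 0, q 2] (by
        intro k
        rw [s6_zero]
        fin_cases k
        · simp
        · simpa using hq 0
        · simp
        · simpa using hq 1
        · simp
        · simpa using hq 2) (by
        have e : agg par6 ![0, q 0, 0, q 1, 0, q 2] = agg id q := by
          rw [agg6]
          funext i
          unfold agg
          rw [Fin.sum_univ_three]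
          fin_cases i <;> simp
        rw [e]
        refine ⟨hR, ?_⟩
        show zeroF.f _ ≤ zeroF.f _
        simp [Facet.f, zeroF])
    refine le_trans (le_of_eq ?_) h3
    rw [Fin.sum_univ_six, Fin.sum_univ_three]
    simp
  · intro m h5 hS
    have h6 : ∑ k, emb m k = 5 := by rw [sum_emb]; exact h5
    obtain ⟨e0, e1, e2, e3, e4, e5⟩ := emb_apply m
    have hall : Allowed (emb m) := by
      refine ⟨?_, ?_, ?_⟩
      · have h := hS (fun k : Fin 3 => k == 0) (by simp)
        rw [sum_filter, Fin.sum_univ_three] at h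
        rw [e0, e1]
        simpa using h
      · have h := hS (fun k : Fin 3 => k == 1) (by simp)
        rw [sum_filter, Fin.sum_univ_three] at h
        rw [e2, e3]
        simpa using h
      · rw [e0, e2, e4]; norm_num
    have h7 := hcoef_of (prev := prev) (F := zeroF) (d := d) h6 hall
    have f1 : coeff m ((∑ k : Fin 3, (X k : MvPolynomial (Fin 3) ℤ)) ^ 4 *
        ∑ k, C (![d.mu.fn 1, d.mu.fn 3, d.mu.fn 5] k) * X k) =
        coeff (emb m) ((∑ k : Fin 6, (X k : MvPolynomial (Fin 6) ℤ)) ^ 4 *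
        ∑ k, C (d.mu.fn k) * X k) := by
      rw [← coeff_phi, phi_mul, phi_lin]
      have : phi ((∑ k : Fin 6, (X k : MvPolynomial (Fin 6) ℤ)) ^ 4) =
          (∑ k : Fin 3, (X k : MvPolynomial (Fin 3) ℤ)) ^ 4 := by
        rw [← phi_sumX]; exact map_pow _ _ _
      rw [this]
    have f2 : ∀ c : Fin d.ys.length, coeff m (phi (quart (decY (d.ys.get c).2.1 (d.ys.get c).2.2)) *
        ∑ k, C (![(cutW prev zeroF (d.ys.get c).1).fn 1, (cutW prev zeroF (d.ys.get c).1).fn 3,
        (cutW prev zeroF (d.ys.get c).1).fn 5] k) * X k) =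
        coeff (emb m) (quart (decY (d.ys.get c).2.1 (d.ys.get c).2.2) *
        ∑ k, C ((cutW prev zeroF (d.ys.get c).1).fn k) * X k) := by
      intro c
      rw [← coeff_phi, phi_mul, phi_lin]
    rw [f1, coeff_phi]
    simp only [f2]
    exact h7
  · rw [div_le_iff₀ hDR]
    linarith
  · intro k
    have h3 : ∀ j : Fin 6, |(d.mu.fn j : ℝ)| ≤ MM * (1 / D2) := by
      intro j
      have h3 := smallV_spec (dualOk_spec hok).2.1 j
      have h4 : |(d.mu.fn j : ℝ)| ≤ 1152921504606846976 := by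
        have : |d.mu.fn j| ≤ 1152921504606846976 := by
          rw [← Int.natCast_natAbs]; exact_mod_cast h3
        exact_mod_cast this
      refine h4.trans ?_
      unfold MM
      have h5 : (D2 : ℝ) ≤ 131072 := by exact_mod_cast hD2
      rw [mul_one_div, le_div_iff₀ hDR]
      calc (1152921504606846976 : ℝ) * D2 ≤ 1152921504606846976 * 131072 := by gcongr
        _ ≤ 2 ^ 80 := by norm_num
    fin_cases k
    · exact h3 1
    · exact h3 3
    · exact h3 5
  · refine le_trans (le_of_eq ?_) h1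
    unfold polyP
    rw [map_mul, map_add, aeval_C, aeval_polyH, aeval_cst]
    simp only [aeval_phi, ← s6_zero]
    simp

/-- **The end of the chain.** -/
theorem dead_fin {D a0 a1 g0 g1 : ℕ} {ds : List Dual} {t : Tree}
    (h : finChk D a0 a1 g0 g1 prev ds t = true) {α γ : ℝ}
    (ha0 : (a0 : ℝ) ≤ D * α) (ha1 : D * α ≤ a1) (hg0 : (g0 : ℝ) ≤ D * γ) (hg1 : D * γ ≤ g1)
    (hγ : 0 ≤ γ) (hγα : γ ≤ α) (h1 : α + γ ≤ 1) (h35 : α ≤ 3 / 5) :
    Dead MM α γ (Rs prev α γ) := by
  unfold finChk at h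
  rw [Bool.and_eq_true, Bool.and_eq_true, Bool.and_eq_true, Nat.ble_eq, Nat.ble_eq] at h
  obtain ⟨⟨hD1, hD2⟩, hds, hchk⟩ := h
  have hDR : (0 : ℝ) < D := by exact_mod_cast hD1
  refine Dead.kill _ ?_
  have hb : Box.Mem (Nat.mul 2 D) ⟨0, 0, a0, a1, 0, 0, g0, g1, 0, 0⟩ (pv α γ 0) := by
    have e2 : ((Nat.mul 2 D : ℕ) : ℝ) = 2 * D := by
      change ((2 * D : ℕ) : ℝ) = _
      push_cast; ring
    have p0 : pv α γ 0 0 = 0 := rfl
    have p1 : pv α γ 0 1 = α := rfl
    have p2 : pv α γ 0 2 = 0 := rfl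
    have p3 : pv α γ 0 3 = γ := rfl
    have p4 : pv α γ 0 4 = 0 := rfl
    constructor
    · rw [e2, p0]; simp
    · rw [e2, p0]; simp
    · rw [e2, p1]; linarith
    · rw [e2, p1]; linarith
    · rw [e2, p2]; simp
    · rw [e2, p2]; simp
    · rw [e2, p3]; linarith
    · rw [e2, p3]; linarith
    · rw [e2, p4]; simp
    · rw [e2, p4]; simp
  have hdsall : ∀ l : List Dual, dualsOk prev zeroF l = true → ∀ d ∈ l, dualOk prev zeroF d = true := by
    intro l
    induction l with
    | nil => intro _ d hd; simp at hd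
    | cons e l ih =>
      intro hl d hd
      unfold dualsOk at hl
      rw [Bool.and_eq_true] at hl
      rcases List.mem_cons.mp hd with rfl | hd
      · exact hl.1
      · exact ih hl.2 d hd
  have hD20 : 0 < Nat.mul 2 D := by change 0 < 2 * D; omega
  have hD2le : Nat.mul 2 D ≤ 131072 := by change 2 * D ≤ 131072; omega
  have hF : 0 ≤ zeroF.f (0 : Fin 3 → ℝ) - zeroF.tau α γ := by
    simp [Facet.f, Facet.tau, zeroF]
  have hR : (0 : Fin 3 → ℝ) ∈ Rs [] α γ := by
    rw [Rs_nil]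
    refine ⟨fun i => le_refl _, ?_, ?_, ?_⟩ <;> simp <;> linarith
  have hcons := cons_nonneg hγα h1 h35 hR hF
  obtain ⟨P, hP, d, hd', hPd, hq1, hq2⟩ := chk_sound (strict := false) (Q := fun P => ∃ d ∈ ds,
      P = prep prev zeroF (Nat.mul 2 D) d ∧ aeval (pv α γ 0) (par (polyP prev zeroF d)) ≤
      216 * (muPar d.mu).val (pv α γ 0) ∧ 1 ≤ ((Nat.mul 2 D : ℕ) : ℝ) * (muPar d.mu).val (pv α γ 0))
    (v := pv α γ 0) rfl hcons (fun hh => by simp at hh) hD20
    (by
      intro P lam b hP hk hb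
      rw [List.mem_map] at hP
      obtain ⟨d, hd, rfl⟩ := hP
      have := leafKill_sound (prep_sem (Nat.mul 2 D) (hdsall ds hds d hd)) hD20 hk
        (v := pv α γ 0) rfl hb hcons
      exact ⟨d, hd, rfl, this⟩)
    (by
      intro P m ord lam b hP hk hb
      rw [List.mem_map] at hP
      obtain ⟨d, hd, rfl⟩ := hP
      have := leafCorner_sound (prep_sem (Nat.mul 2 D) (hdsall ds hds d hd)) hD20 hk
        (v := pv α γ 0) rfl hb hcons h35
        (by change (0 : ℝ) ≤ α; linarith) (by change α + γ + 0 ≤ 1; linarith)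
      exact ⟨d, hd, rfl, this⟩) t _ hchk hb
  exact dual_kill3 hD20 hD2le (hdsall ds hds d hd') hq1 hq2

end Pool.Agent.Helper5.B54
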